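import Mathlib

/-!
Lonely runner with speeds at most 2 n: the basic definitions.

`Sys n W` lists the constraints satisfied by the complement `W` in `[1, 2 n]` of a set of `n` speeds
for which the lonely runner statement fails. `Ex` is the exceptional set of the reflection
`x ↦ w - x`. `rsum q v` is the sum of `1 / p` over the prime divisors `p > q` of `v`.
-/

namespace Pool.Agent.LR2

open Finset

/-- The constraints on the complement of a set of `n` speeds in `[1, 2 n]` which is a counterexample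
to the lonely runner statement. -/
structure Sys (n : ℕ) (W : Finset ℕ) : Prop where
  pos : ∀ x ∈ W, 0 < x
  le : ∀ x ∈ W, x ≤ 2 * n
  card : W.card = n
  one : 1 ∉ W
  succ : n + 1 ∉ W
  refl : ∀ x y : ℕ, x + y = 2 * n + 1 → Nat.Coprime x y → x ∈ W → y ∉ W
  dbl : ∀ q z : ℕ, 0 < q → Nat.Coprime z q → 2 * n + 1 ≤ z → z + 2 * q ≤ 3 * n + 3 →
    q ∈ W → 2 * q ∉ W
  dblHigh : ∀ q : ℕ, 2 * n < 3 * q → q ≤ n → q ∈ W → 2 * q ∉ W
  tri : ∀ x y : ℕ, x < y → Nat.Coprime x y → n < x + y → x + y ≤ 2 * n →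
    ((y ≤ n ∧ 2 * n < x + 2 * y) ∨ (n < y ∧ (2 * n < 2 * x + y ∨ x + 2 * y ≤ 3 * n + 3))) →
    x ∈ W → y ∈ W → x + y ∉ W

/-- The exceptional set of the reflection `x ↦ w - x`. -/
def Ex (n : ℕ) (W : Finset ℕ) (w : ℕ) : Finset ℕ :=
  (Icc 1 (2 * n)).filter (fun x : ℕ => ¬ (x < w ∧ (x ∈ W ↔ w - x ∉ W)))

/-- The sum of `1 / p` over the prime divisors `p > q` of `v`. -/
noncomputable def rsum (q v : ℕ) : ℝ :=
  ∑ p ∈ v.primeFactors.filter (fun p : ℕ => q < p), (1 : ℝ) / p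

/-- The situation of the main theorem: a counterexample and a missing speed `w` close to `2 n`
which has no small prime factors. -/
structure Ctx (ε : ℝ) (n w : ℕ) (W : Finset ℕ) : Prop where
  sys : Sys n W
  mem : w = 2 * n + 1 ∨ w ∈ W
  low : (2 - ε) * n ≤ w
  rough : rsum 0 w ≤ ε

/-- The missing speeds at most `T` in the class of `c` modulo `M`. -/
def ones (T M : ℕ) (W : Finset ℕ) (c : ℤ) : Finset ℕ :=
  (Icc 1 T).filter (fun p : ℕ => (p : ℤ) ≡ c [ZMOD M] ∧ p ∈ W)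

/-- The speeds at most `T` in the class of `c` modulo `M`. -/
def zeros (T M : ℕ) (W : Finset ℕ) (c : ℤ) : Finset ℕ :=
  (Icc 1 T).filter (fun p : ℕ => (p : ℤ) ≡ c [ZMOD M] ∧ p ∉ W)

lemma mem_Ex {n w x : ℕ} {W : Finset ℕ} :
    x ∈ Ex n W w ↔ (1 ≤ x ∧ x ≤ 2 * n) ∧ ¬ (x < w ∧ (x ∈ W ↔ w - x ∉ W)) := by
  simp [Ex]

/-- Reflection of a point outside the exceptional set. -/
lemma notMem_Ex {n w x : ℕ} {W : Finset ℕ} (h : x ∉ Ex n W w) (h1 : 1 ≤ x) (h2 : x ≤ 2 * n) :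
    x < w ∧ (x ∈ W ↔ w - x ∉ W) := by
  by_contra hc
  exact h (mem_Ex.2 ⟨⟨h1, h2⟩, hc⟩)

lemma Ctx.le {ε : ℝ} {n w : ℕ} {W : Finset ℕ} (c : Ctx ε n w W) : w ≤ 2 * n + 1 := by
  rcases c.mem with h | h
  · exact h.le
  · exact (c.sys.le w h).trans (Nat.le_succ _)

lemma rsum_nonneg (q v : ℕ) : 0 ≤ rsum q v :=
  Finset.sum_nonneg fun p _ => by positivity

lemma mem_ones {T M : ℕ} {W : Finset ℕ} {c : ℤ} {p : ℕ} :
    p ∈ ones T M W c ↔ (1 ≤ p ∧ p ≤ T) ∧ (p : ℤ) ≡ c [ZMOD M] ∧ p ∈ W := by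
  simp [ones]

lemma mem_zeros {T M : ℕ} {W : Finset ℕ} {c : ℤ} {p : ℕ} :
    p ∈ zeros T M W c ↔ (1 ≤ p ∧ p ≤ T) ∧ (p : ℤ) ≡ c [ZMOD M] ∧ p ∉ W := by
  simp [zeros]

end Pool.Agent.LR2
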