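import Mathlib
import Pool.Agent.LR2.Defs

namespace Pool.Agent.LR2

open Finset

/-- A rational time `A / B` keeps the speed `x` at distance at least `1 / (n + 1)` from the
integers as soon as `A x` is at distance at least `m` from every multiple of `B ≤ m (n + 1)`. -/
lemma CONS_rat {n : ℕ} {V : Finset ℕ}
    (hno : ∀ t : ℝ, ∃ x ∈ V, ∃ k : ℤ, |t * (x : ℝ) - (k : ℝ)| < (1 : ℝ) / ((n : ℝ) + 1))
    (A B m : ℤ) (hB : 0 < B) (hm : B ≤ m * (n + 1)) :
    ∃ x ∈ V, ∃ k : ℤ, |A * x - k * B| < m := by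
  obtain ⟨x, hx, k, hk⟩ := hno ((A : ℝ) / B)
  refine ⟨x, hx, k, ?_⟩
  have hB' : (0 : ℝ) < B := by exact_mod_cast hB
  have hn' : (0 : ℝ) < (n : ℝ) + 1 := by positivity
  have h1 : (A : ℝ) / B * (x : ℝ) - (k : ℝ) = ((A * x - k * B : ℤ) : ℝ) / B := by
    push_cast
    field_simp
  rw [h1, abs_div, abs_of_pos hB', div_lt_div_iff₀ hB' hn', one_mul] at hk
  by_contra hc
  push Not at hc
  have h2 : (m : ℝ) ≤ |((A * x - k * B : ℤ) : ℝ)| := by
    rw [← Int.cast_abs]
    exact_mod_cast hc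
  have h3 : (B : ℝ) ≤ m * (n + 1) := by exact_mod_cast hm
  have h4 : (m : ℝ) * (n + 1) ≤ |((A * x - k * B : ℤ) : ℝ)| * (n + 1) := by gcongr
  linarith

/-- Multiples of `s` between bounds. -/
lemma CONS_mul {s d : ℤ} (hs : 0 < s) (h : s ∣ d) (h1 : -s < d) (h2 : d < s) : d = 0 := by
  obtain ⟨k, rfl⟩ := h
  have h3 : k < 1 := by
    by_contra hk
    push Not at hk
    nlinarith
  have h4 : -1 < k := by
    by_contra hk
    push Not at hk
    nlinarith
  have : k = 0 := by omega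
  rw [this, mul_zero]

/-- Inverting a residue. -/
lemma CONS_inv {s a x z k ρ m : ℤ} (ha : a * x = 1 + m * s) (h : a * z - k * s = ρ) :
    s ∣ z - ρ * x := by
  refine ⟨k * x - m * z, ?_⟩
  rw [← h]
  linear_combination (-z) * ha

lemma CONS_bez {x s : ℕ} (h : Nat.Coprime x s) : ∃ a m : ℤ, a * x = 1 + m * s := by
  have h1 : IsCoprime (x : ℤ) (s : ℤ) := Nat.isCoprime_iff_coprime.2 h
  obtain ⟨u, v, huv⟩ := h1
  exact ⟨u, -v, by linarith⟩

/-- The triple constraint, first case. -/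
lemma CONS_tri1 {n : ℕ} {V : Finset ℕ} (hV : ∀ x ∈ V, 1 ≤ x ∧ x ≤ 2 * n)
    (hno : ∀ t : ℝ, ∃ x ∈ V, ∃ k : ℤ, |t * (x : ℝ) - (k : ℝ)| < (1 : ℝ) / ((n : ℝ) + 1))
    {x y : ℕ} (hc : Nat.Coprime x y) (hn : n < x + y) (h2n : x + y ≤ 2 * n)
    (h1 : 2 * n < 2 * x + y) (h2 : 2 * n < x + 2 * y) (hx : x ∉ V) (hy : y ∉ V)
    (hs : x + y ∉ V) (hx0 : 0 < x) (hy0 : 0 < y) : False := by
  have hcs : Nat.Coprime x (x + y) := by simpa using hc
  obtain ⟨a, m, ham⟩ := CONS_bez hcs
  push_cast at ham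
  obtain ⟨z, hz, k, hk⟩ := CONS_rat hno a ((x : ℤ) + y) 2 (by positivity) (by
    have : ((x : ℤ) + y) ≤ 2 * n := by exact_mod_cast h2n
    linarith)
  obtain ⟨hz1, hz2⟩ := hV z hz
  obtain ⟨ρ, hρ⟩ : ∃ ρ : ℤ, a * z - k * ((x : ℤ) + y) = ρ := ⟨_, rfl⟩
  have hd := CONS_inv ham hρ
  rw [hρ, abs_lt] at hk
  have h3 : ρ = 0 ∨ ρ = 1 ∨ ρ = -1 := by omega
  have hs0 : (0 : ℤ) < (x : ℤ) + y := by positivity
  rcases h3 with rfl | rfl | rfl
  · -- z multiple of s
    have hd2 : ((x : ℤ) + y) ∣ (z : ℤ) - ((x : ℤ) + y) := by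
      have h4 : (z : ℤ) - ((x : ℤ) + y) = (z - 0 * x) - ((x : ℤ) + y) := by ring
      rw [h4]
      exact dvd_sub_self_right.2 hd
    have := CONS_mul hs0 hd2 (by omega) (by omega)
    have h5 : z = x + y := by omega
    exact hs (h5 ▸ hz)
  · have := CONS_mul hs0 hd (by omega) (by omega)
    have h5 : z = x := by omega
    exact hx (h5 ▸ hz)
  · have hd2 : ((x : ℤ) + y) ∣ (z : ℤ) - y := by
      have h4 : (z : ℤ) - y = (z - -1 * x) - ((x : ℤ) + y) := by ring
      rw [h4]
      exact dvd_sub_self_right.2 hd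
    have := CONS_mul hs0 hd2 (by omega) (by omega)
    have h5 : z = y := by omega
    exact hy (h5 ▸ hz)

/-- The triple constraint, second case. -/
lemma CONS_tri2 {n : ℕ} {V : Finset ℕ} (hV : ∀ x ∈ V, 1 ≤ x ∧ x ≤ 2 * n)
    (hno : ∀ t : ℝ, ∃ x ∈ V, ∃ k : ℤ, |t * (x : ℝ) - (k : ℝ)| < (1 : ℝ) / ((n : ℝ) + 1))
    {x y : ℕ} (hxy : x < y) (hc : Nat.Coprime x y) (hn : n < x + y) (h2n : x + y ≤ 2 * n)
    (h1 : 2 * x + y ≤ 2 * n) (h2 : 2 * n < x + 2 * y) (h3 : y ≤ n ∨ x + 2 * y ≤ 3 * n + 3)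
    (hx : x ∉ V) (hy : y ∉ V) (hs : x + y ∉ V) (hx0 : 0 < x) : False := by
  have hcs : Nat.Coprime x (x + y) := by simpa using hc
  obtain ⟨a, m, ham⟩ := CONS_bez hcs
  push_cast at ham
  obtain ⟨s, hsd⟩ : ∃ s : ℤ, s = (x : ℤ) + y := ⟨_, rfl⟩
  obtain ⟨N, hN⟩ : ∃ N : ℤ, N = (n : ℤ) + 1 := ⟨_, rfl⟩
  have hs0 : 0 < s := by omega
  have hx0' : (0 : ℤ) < x := by omega
  have hxs : 0 < (x : ℤ) + s := by omega
  have hN0 : 0 < N := by omega
  have hB : s * N * (x + s) ≤ (s * (x + s)) * (n + 1) := by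
    rw [hN]; exact le_of_eq (by ring)
  obtain ⟨z, hz, k, hk⟩ := CONS_rat hno (a * N * (x + s) + (s - N)) (s * N * (x + s))
    (s * (x + s)) (by positivity) hB
  obtain ⟨hz1, hz2⟩ := hV z hz
  obtain ⟨ρ, hρ⟩ : ∃ ρ : ℤ, a * z - k * s = ρ := ⟨_, rfl⟩
  have hval : (a * N * (x + s) + (s - N)) * z - k * (s * N * (x + s)) =
      N * (x + s) * ρ + (s - N) * z := by rw [← hρ]; ring
  rw [hval, abs_lt] at hk
  obtain ⟨hk1, hk2⟩ := hk
  have hd : s ∣ z - ρ * x := CONS_inv (by rw [hsd]; exact ham) hρ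
  have hsN : 0 ≤ s - N := by omega
  have hs2N : s ≤ 2 * N - 2 := by omega
  have hzN : (z : ℤ) ≤ 2 * N - 2 := by omega
  have hz0 : (0 : ℤ) < z := by omega
  -- cases on ρ
  rcases lt_trichotomy ρ 0 with hρ0 | hρ0 | hρ0
  · -- negative
    rcases eq_or_lt_of_le (show ρ ≤ -1 by omega) with h4 | h4
    · -- ρ = -1
      subst h4
      have hd2 : s ∣ (z : ℤ) - y := by
        have h5 : (z : ℤ) - y = (z - -1 * x) - s := by rw [hsd]; ring
        rw [h5]
        exact dvd_sub_self_right.2 hd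
      have := CONS_mul hs0 hd2 (by omega) (by omega)
      have h6 : z = y := by omega
      exact hy (h6 ▸ hz)
    · rcases eq_or_lt_of_le (show ρ ≤ -2 by omega) with h5 | h5
      · -- ρ = -2 : z ∈ {y - x, 2 y}
        subst h5
        have hd2 : s ∣ (z : ℤ) - (y - x) := by
          have h6 : (z : ℤ) - (y - x) = (z - -2 * x) - s := by rw [hsd]; ring
          rw [h6]
          exact dvd_sub_self_right.2 hd
        have hzz : (z : ℤ) = y - x ∨ (z : ℤ) = 2 * y := by
          obtain ⟨e, he⟩ := hd2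
          have he1 : e < 2 := by
            by_contra hh
            push Not at hh
            nlinarith
          have he2 : -1 < e := by
            by_contra hh
            push Not at hh
            nlinarith
          have he3 : e = 0 ∨ e = 1 := by omega
          rcases he3 with rfl | rfl
          · left; linarith
          · right; rw [mul_one] at he; omega
        rcases hzz with hz' | hz'
        · -- z = y - x
          rw [hz'] at hk1
          have h7 : (x : ℤ) + 2 * y ≤ 3 * N := by omega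
          have h8 : 0 ≤ s * (3 * N - x - 2 * y) := mul_nonneg hs0.le (by linarith)
          have h9 : s = (x : ℤ) + y := hsd
          rw [h9] at hk1 h8
          nlinarith only [hk1, h8]
        · rw [hz'] at hk1
          have h7 : y ≤ n := by omega
          have h8 : 0 ≤ ((x : ℤ) + y) * (4 * N - 2 * x - 3 * y) :=
            mul_nonneg (by positivity) (by omega)
          have h9 : s = (x : ℤ) + y := hsd
          rw [h9] at hk1
          nlinarith only [hk1, h8]
      · -- ρ ≤ -3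
        have h6 : N * (x + s) * ρ ≤ N * (x + s) * (-3) :=
          mul_le_mul_of_nonneg_left (by omega) (by positivity)
        have h7 : (s - N) * z ≤ (s - N) * (2 * N - 2) := mul_le_mul_of_nonneg_left hzN hsN
        -- s (x + s) > ... contradiction
        have h8 : (s - N) * (2 * N - 2) ≤ (3 * N - s) * (x + s) := by
          have h9 : (3 * N - s) * s ≤ (3 * N - s) * (x + s) :=
            mul_le_mul_of_nonneg_left (by linarith) (by linarith)
          have h10 : 0 ≤ (s - N) * (2 * N - s) := mul_nonneg hsN (by linarith)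
          nlinarith only [h9, h10, hs2N, hN0, hsN]
        nlinarith only [hk1, h6, h7, h8]
  · -- zero
    subst hρ0
    have hd2 : s ∣ (z : ℤ) - s := by
      have h4 : (z : ℤ) - s = (z - 0 * x) - s := by ring
      rw [h4]
      exact dvd_sub_self_right.2 hd
    have := CONS_mul hs0 hd2 (by omega) (by omega)
    have h5 : z = x + y := by omega
    exact hs (h5 ▸ hz)
  · rcases eq_or_lt_of_le (show 1 ≤ ρ by omega) with h4 | h4
    · -- ρ = 1
      rw [← h4] at hd hk2
      obtain ⟨e, he⟩ := hd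
      have he1 : e < 2 := by
        by_contra hh
        push Not at hh
        nlinarith
      have he2 : -1 < e := by
        by_contra hh
        push Not at hh
        nlinarith
      have he3 : e = 0 ∨ e = 1 := by omega
      rcases he3 with rfl | rfl
      · have h5 : z = x := by
          rw [mul_zero] at he
          omega
        exact hx (h5 ▸ hz)
      · have h5 : (z : ℤ) = x + s := by
          rw [mul_one] at he
          omega
        rw [h5] at hk2
        nlinarith only [hk2]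
    · -- ρ ≥ 2
      have h6 : N * (x + s) * 2 ≤ N * (x + s) * ρ :=
        mul_le_mul_of_nonneg_left (by omega) (by positivity)
      have h7 : 0 ≤ (s - N) * z := mul_nonneg hsN hz0.le
      have h8 : s * (x + s) ≤ (2 * N) * (x + s) := mul_le_mul_of_nonneg_right (by linarith) hxs.le
      nlinarith only [hk2, h6, h7, h8]

/-- A counterexample gives a system of constraints. -/
theorem CONS (n : ℕ) (V : Finset ℕ) (hn : 2 ≤ n) (hV : ∀ x ∈ V, 1 ≤ x ∧ x ≤ 2 * n)
    (hcard : V.card = n)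
    (hno : ∀ t : ℝ, ∃ x ∈ V, ∃ k : ℤ, |t * (x : ℝ) - (k : ℝ)| < (1 : ℝ) / ((n : ℝ) + 1)) :
    Sys n ((Icc 1 (2 * n)) \ V) := by
  have hsub : V ⊆ Icc 1 (2 * n) := fun x hx => mem_Icc.2 (hV x hx)
  have hmem : ∀ x, x ∈ (Icc 1 (2 * n)) \ V ↔ (1 ≤ x ∧ x ≤ 2 * n) ∧ x ∉ V := by
    intro x; simp
  refine ⟨?_, ?_, ?_, ?_, ?_, ?_, ?_, ?_, ?_⟩
  · intro x hx
    exact ((hmem x).1 hx).1.1
  · intro x hx
    exact ((hmem x).1 hx).1.2
  · rw [Finset.card_sdiff_of_subset hsub, hcard, Nat.card_Icc]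
    omega
  · -- 1
    intro h1
    have h1V := ((hmem 1).1 h1).2
    obtain ⟨x, hx, k, hk⟩ := CONS_rat hno 1 (2 * n + 2) 2 (by positivity) (by linarith)
    obtain ⟨hx1, hx2⟩ := hV x hx
    rw [abs_lt] at hk
    have hk0 : k = 0 := by
      rcases lt_trichotomy k 0 with h | h | h
      · exfalso; nlinarith
      · exact h
      · exfalso; nlinarith
    subst hk0
    have : x = 1 := by omega
    exact h1V (this ▸ hx)
  · -- n + 1
    intro h1
    have h1V := ((hmem (n + 1)).1 h1).2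
    obtain ⟨x, hx, k, hk⟩ := CONS_rat hno 1 (n + 1) 1 (by positivity) (by linarith)
    obtain ⟨hx1, hx2⟩ := hV x hx
    rw [abs_lt] at hk
    have hk0 : k = 1 := by
      have h2 : 0 < k := by
        by_contra h
        push Not at h
        nlinarith
      have h3 : k < 2 := by
        by_contra h
        push Not at h
        nlinarith
      omega
    subst hk0
    have : x = n + 1 := by omega
    exact h1V (this ▸ hx)
  · -- reflection
    intro x y hxy hc hx hy
    obtain ⟨⟨hx1, hx2⟩, hxV⟩ := (hmem x).1 hx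
    obtain ⟨⟨hy1, hy2⟩, hyV⟩ := (hmem y).1 hy
    have hcs : Nat.Coprime x (2 * n + 1) := by
      rw [← hxy]; simpa using hc
    obtain ⟨a, m, ham⟩ := CONS_bez hcs
    push_cast at ham
    obtain ⟨z, hz, k, hk⟩ := CONS_rat hno a (2 * n + 1) 2 (by positivity) (by linarith)
    obtain ⟨hz1, hz2⟩ := hV z hz
    obtain ⟨ρ, hρ⟩ : ∃ ρ : ℤ, a * z - k * (2 * n + 1) = ρ := ⟨_, rfl⟩
    have hd := CONS_inv ham hρ
    rw [hρ, abs_lt] at hk
    have h3 : ρ = 0 ∨ ρ = 1 ∨ ρ = -1 := by omega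
    have hs0 : (0 : ℤ) < 2 * n + 1 := by positivity
    rcases h3 with rfl | rfl | rfl
    · have := CONS_mul hs0 hd (by omega) (by omega)
      omega
    · have := CONS_mul hs0 hd (by omega) (by omega)
      have h5 : z = x := by omega
      exact hxV (h5 ▸ hz)
    · have hd2 : (2 * (n : ℤ) + 1) ∣ (z : ℤ) - y := by
        have h4 : (z : ℤ) - y = (z - -1 * x) - (2 * n + 1) := by
          have : (x : ℤ) + y = 2 * n + 1 := by exact_mod_cast hxy
          linarith
        rw [h4]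
        exact dvd_sub_self_right.2 hd
      have := CONS_mul hs0 hd2 (by omega) (by omega)
      have h5 : z = y := by omega
      exact hyV (h5 ▸ hz)
  · -- doubling
    intro q z hq hc hz1 hz2 hqW h2qW
    obtain ⟨⟨hq1, hq2⟩, hqV⟩ := (hmem q).1 hqW
    obtain ⟨-, h2qV⟩ := (hmem (2 * q)).1 h2qW
    obtain ⟨c, m, hcm⟩ := CONS_bez hc
    -- c z = 1 + m q ; use -c
    obtain ⟨x, hx, k, hk⟩ := CONS_rat hno (3 * (n + 1) * (-c) + 1) (3 * q * (n + 1)) (3 * q)
      (by positivity) le_rfl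
    obtain ⟨hx1, hx2⟩ := hV x hx
    obtain ⟨ρ, hρ⟩ : ∃ ρ : ℤ, (-c) * x - k * q = ρ := ⟨_, rfl⟩
    have hval : (3 * ((n : ℤ) + 1) * (-c) + 1) * x - k * (3 * q * (n + 1)) =
        3 * (n + 1) * ρ + x := by rw [← hρ]; ring
    rw [hval, abs_lt] at hk
    obtain ⟨hk1, hk2⟩ := hk
    have h2q : 2 * q ≤ n + 2 := by omega
    have hρ1 : ρ < 1 := by
      by_contra hh
      push Not at hh
      have : 3 * ((n : ℤ) + 1) * 1 ≤ 3 * (n + 1) * ρ := mul_le_mul_of_nonneg_left hh (by positivity)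
      omega
    have hρ2 : -2 < ρ := by
      by_contra hh
      push Not at hh
      have : 3 * ((n : ℤ) + 1) * ρ ≤ 3 * (n + 1) * (-2) :=
        mul_le_mul_of_nonneg_left hh (by positivity)
      omega
    -- q ∣ x + ρ z
    have hd : (q : ℤ) ∣ x + ρ * z := by
      refine ⟨-(x * m) - k * z, ?_⟩
      rw [← hρ]
      linear_combination (-(x : ℤ)) * hcm
    have hρ3 : ρ = 0 ∨ ρ = -1 := by omega
    rcases hρ3 with rfl | rfl
    · rw [zero_mul, add_zero] at hd
      obtain ⟨e, he⟩ := hd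
      have he1 : e < 3 := by
        by_contra hh
        push Not at hh
        nlinarith
      have he2 : 0 < e := by
        by_contra hh
        push Not at hh
        nlinarith
      have he3 : e = 1 ∨ e = 2 := by omega
      rcases he3 with rfl | rfl
      · have : x = q := by omega
        exact hqV (this ▸ hx)
      · have : x = 2 * q := by omega
        exact h2qV (this ▸ hx)
    · obtain ⟨e, he⟩ := hd
      have he1 : e ≤ -1 := by
        by_contra hh
        push Not at hh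
        nlinarith
      have he2 : (q : ℤ) * e ≤ q * (-1) := mul_le_mul_of_nonneg_left he1 (by positivity)
      have hz2' : (z : ℤ) + 2 * q ≤ 3 * n + 3 := by exact_mod_cast hz2
      linarith
  · -- high doubling
    intro q hq1 hq2 hqW h2qW
    obtain ⟨⟨hq3, hq4⟩, hqV⟩ := (hmem q).1 hqW
    obtain ⟨-, h2qV⟩ := (hmem (2 * q)).1 h2qW
    obtain ⟨x, hx, k, hk⟩ := CONS_rat hno 1 q 1 (by exact_mod_cast hq3) (by
      have : (q : ℤ) ≤ n := by exact_mod_cast hq2
      linarith)
    obtain ⟨hx1, hx2⟩ := hV x hx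
    rw [abs_lt] at hk
    have he1 : k < 3 := by
      by_contra hh
      push Not at hh
      nlinarith
    have he2 : 0 < k := by
      by_contra hh
      push Not at hh
      nlinarith
    have he3 : k = 1 ∨ k = 2 := by omega
    rcases he3 with rfl | rfl
    · have : x = q := by omega
      exact hqV (this ▸ hx)
    · have : x = 2 * q := by omega
      exact h2qV (this ▸ hx)
  · -- triples
    intro x y hxy hc hn1 hn2 hr hx hy hs
    obtain ⟨⟨hx1, hx2⟩, hxV⟩ := (hmem x).1 hx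
    obtain ⟨⟨hy1, hy2⟩, hyV⟩ := (hmem y).1 hy
    obtain ⟨-, hsV⟩ := (hmem (x + y)).1 hs
    have h2y : 2 * n < x + 2 * y := by omega
    rcases Nat.lt_or_ge (2 * n) (2 * x + y) with h | h
    · exact CONS_tri1 hV hno hc hn1 hn2 h h2y hxV hyV hsV hx1 hy1
    · exact CONS_tri2 hV hno hxy hc hn1 hn2 h h2y (by omega) hxV hyV hsV hx1

end Pool.Agent.LR2
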