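import Mathlib
import Pool.Agent.LR2.Defs

namespace Pool.Agent.LR2

open Finset

/-- The number of elements of an interval in a residue class, with the floor function. -/
theorem CLS_card (a b M : ℕ) (hab : a ≤ b) (hM : 0 < M) (c : ℤ) :
    ∃ v : ℤ, (((Ioc a b).filter (fun p : ℕ => (p : ℤ) ≡ c [ZMOD M])).card : ℤ)
      = ⌊((b : ℚ) - v) / M⌋ - ⌊((a : ℚ) - v) / M⌋ := by
  have hM' : (0 : ℤ) < M := by exact_mod_cast hM
  have hMq : (0 : ℚ) < M := by exact_mod_cast hM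
  obtain ⟨v, hv⟩ : ∃ v : ℕ, (v : ℤ) = c % M :=
    ⟨(c % M).toNat, Int.toNat_of_nonneg (Int.emod_nonneg _ hM'.ne')⟩
  have h1 : ((Ioc a b).filter (fun p : ℕ => (p : ℤ) ≡ c [ZMOD M]))
      = ((Ioc a b).filter (fun p : ℕ => p ≡ v [MOD M])) := by
    apply Finset.filter_congr
    intro p _
    rw [← Int.natCast_modEq_iff, hv]
    exact ⟨fun h => h.trans (Int.mod_modEq c M).symm, fun h => h.trans (Int.mod_modEq c M)⟩
  refine ⟨(v : ℤ), ?_⟩
  rw [h1, Nat.Ioc_filter_modEq_card _ _ hM]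
  push_cast
  rw [max_eq_left]
  rw [sub_nonneg]
  apply Int.floor_le_floor
  have : (a : ℚ) ≤ b := by exact_mod_cast hab
  gcongr

/-- Lower bound for the number of elements of an interval in a residue class. -/
theorem CLS_lower (a b M : ℕ) (hab : a ≤ b) (hM : 0 < M) (c : ℤ) :
    ((b : ℝ) - a) / M - 1 ≤ (((Ioc a b).filter (fun p : ℕ => (p : ℤ) ≡ c [ZMOD M])).card : ℝ) := by
  obtain ⟨v, hv⟩ := CLS_card a b M hab hM c
  have h1 := Int.sub_one_lt_floor (((b : ℚ) - v) / M)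
  have h2 := Int.floor_le (((a : ℚ) - v) / M)
  have h3 : (((b : ℚ) - a) / M - 1)
      ≤ (((Ioc a b).filter (fun p : ℕ => (p : ℤ) ≡ c [ZMOD M])).card : ℚ) := by
    have h4 : (((Ioc a b).filter (fun p : ℕ => (p : ℤ) ≡ c [ZMOD M])).card : ℚ)
        = ((⌊((b : ℚ) - v) / M⌋ - ⌊((a : ℚ) - v) / M⌋ : ℤ) : ℚ) := by
      rw [← hv]; norm_cast
    rw [h4]
    push_cast
    have h5 : ((b : ℚ) - a) / M = ((b : ℚ) - v) / M - ((a : ℚ) - v) / M := by ring
    rw [h5]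
    linarith
  have h6 := (Rat.cast_le (K := ℝ)).2 h3
  push_cast at h6
  exact h6

/-- Upper bound for the number of elements of an interval in a residue class. -/
theorem CLS_upper (a b M : ℕ) (hab : a ≤ b) (hM : 0 < M) (c : ℤ) :
    (((Ioc a b).filter (fun p : ℕ => (p : ℤ) ≡ c [ZMOD M])).card : ℝ) ≤ ((b : ℝ) - a) / M + 1 := by
  obtain ⟨v, hv⟩ := CLS_card a b M hab hM c
  have h1 := Int.floor_le (((b : ℚ) - v) / M)
  have h2 := Int.sub_one_lt_floor (((a : ℚ) - v) / M)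
  have h3 : (((Ioc a b).filter (fun p : ℕ => (p : ℤ) ≡ c [ZMOD M])).card : ℚ)
      ≤ (((b : ℚ) - a) / M + 1) := by
    have h4 : (((Ioc a b).filter (fun p : ℕ => (p : ℤ) ≡ c [ZMOD M])).card : ℚ)
        = ((⌊((b : ℚ) - v) / M⌋ - ⌊((a : ℚ) - v) / M⌋ : ℤ) : ℚ) := by
      rw [← hv]; norm_cast
    rw [h4]
    push_cast
    have h5 : ((b : ℚ) - a) / M = ((b : ℚ) - v) / M - ((a : ℚ) - v) / M := by ring
    rw [h5]
    linarith
  have h6 := (Rat.cast_le (K := ℝ)).2 h3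
  push_cast at h6
  exact h6

/-- A set of pairwise congruent numbers in `[1, n]`. -/
theorem CLS_congr (n m : ℕ) (hm : 0 < m) (S : Finset ℕ) (hS : ∀ x ∈ S, 1 ≤ x ∧ x ≤ n)
    (h : ∀ x ∈ S, ∀ y ∈ S, (x : ℤ) ≡ y [ZMOD m]) : (S.card : ℝ) ≤ n / m + 1 := by
  rcases S.eq_empty_or_nonempty with rfl | ⟨x0, hx0⟩
  · simp only [card_empty, Nat.cast_zero]
    positivity
  have hsub : S ⊆ (Ioc 0 n).filter (fun p : ℕ => (p : ℤ) ≡ (x0 : ℤ) [ZMOD m]) := by
    intro x hx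
    rw [mem_filter, mem_Ioc]
    exact ⟨⟨(hS x hx).1, (hS x hx).2⟩, h x hx x0 hx0⟩
  have h1 := CLS_upper 0 n m (Nat.zero_le _) hm (x0 : ℤ)
  have h2 : (S.card : ℝ)
      ≤ (((Ioc 0 n).filter (fun p : ℕ => (p : ℤ) ≡ (x0 : ℤ) [ZMOD m])).card : ℝ) := by
    exact_mod_cast card_le_card hsub
  refine h2.trans (h1.trans (le_of_eq ?_))
  push_cast
  ring

end Pool.Agent.LR2
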