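import Mathlib
import Pool.Agent.LR2.Defs
import Pool.Agent.LR2.Cls
import Pool.Agent.PnMn.SumInv

namespace Pool.Agent.LR2

open Finset

/-- Sum of the reciprocals of a finite set of primes. -/
lemma INT_primes {C1 : ℝ} (hC1 : ∀ x : ℕ, 2 ≤ x →
    ∑ p ∈ (Finset.Icc 1 x).filter Nat.Prime, (1 : ℝ) / p ≤ Real.log (Real.log x) + C1)
    (P : Finset ℕ) (hP : ∀ p ∈ P, p.Prime) (y : ℕ) (hy : P.card + 2 ≤ y) :
    ∑ p ∈ P, (1 : ℝ) / p ≤ Real.log (Real.log y) + C1 + 1 := by
  classical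
  have h1 : ∑ p ∈ P, (1 : ℝ) / p = ∑ p ∈ P.filter (fun p => p ≤ y), (1 : ℝ) / p +
      ∑ p ∈ P.filter (fun p => ¬ p ≤ y), (1 : ℝ) / p :=
    (Finset.sum_filter_add_sum_filter_not _ _ _).symm
  have h2 : ∑ p ∈ P.filter (fun p => p ≤ y), (1 : ℝ) / p ≤
      ∑ p ∈ (Finset.Icc 1 y).filter Nat.Prime, (1 : ℝ) / p := by
    apply Finset.sum_le_sum_of_subset_of_nonneg
    · intro p hp
      rw [mem_filter] at hp ⊢
      exact ⟨mem_Icc.2 ⟨(hP p hp.1).one_lt.le, hp.2⟩, hP p hp.1⟩
    · intro p _ _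
      positivity
  have hy0 : (0 : ℝ) < y := by
    have : 0 < y := by omega
    exact_mod_cast this
  have h3 : ∑ p ∈ P.filter (fun p => ¬ p ≤ y), (1 : ℝ) / p ≤ 1 := by
    calc ∑ p ∈ P.filter (fun p => ¬ p ≤ y), (1 : ℝ) / p
        ≤ ∑ p ∈ P.filter (fun p => ¬ p ≤ y), (1 : ℝ) / y := by
          apply Finset.sum_le_sum
          intro p hp
          rw [mem_filter] at hp
          have : (y : ℝ) ≤ p := by exact_mod_cast (not_le.1 hp.2).le
          gcongr
      _ = (P.filter (fun p => ¬ p ≤ y)).card * (1 / (y : ℝ)) := by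
          rw [Finset.sum_const, nsmul_eq_mul]
      _ ≤ (y : ℝ) * (1 / (y : ℝ)) := by
          gcongr
          exact (Finset.card_filter_le _ _).trans (by omega)
      _ = 1 := by field_simp
  have h4 := hC1 y (by omega)
  linarith

/-- Averaging over a progression. -/
lemma INT_avg (p0 k m : ℕ) (hp0 : 0 < p0) (hkm : k ≤ m) :
    ∃ P : Finset ℕ, (∀ p ∈ P, p.Prime) ∧
      P.card ≤ k * Nat.log 2 (p0.factorial * m + 1) ∧
      ∑ i ∈ range k, rsum 0 (p0.factorial * (m - i) + 1) ≤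
        (k : ℝ) / p0 + ∑ p ∈ P, (1 : ℝ) / p := by
  classical
  set Q := p0.factorial with hQ
  have hQ0 : 0 < Q := Nat.factorial_pos p0
  let w : ℕ → ℕ := fun i => Q * (m - i) + 1
  let P : Finset ℕ := (range k).biUnion fun i => (w i).primeFactors
  have hPp : ∀ p ∈ P, p.Prime := by
    intro p hp
    obtain ⟨i, -, hi⟩ := Finset.mem_biUnion.1 hp
    exact Nat.prime_of_mem_primeFactors hi
  have hPgt : ∀ p ∈ P, p0 < p := by
    intro p hp
    obtain ⟨i, -, hi⟩ := Finset.mem_biUnion.1 hp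
    by_contra hle
    push Not at hle
    have hpp := Nat.prime_of_mem_primeFactors hi
    have h1 : p ∣ Q := (hpp.dvd_factorial).2 hle
    have h2 : p ∣ Q * (m - i) + 1 := Nat.dvd_of_mem_primeFactors hi
    have h3 : p ∣ 1 := (Nat.dvd_add_right (h1.mul_right _)).1 h2
    exact hpp.one_lt.ne' (Nat.dvd_one.1 h3)
  refine ⟨P, hPp, ?_, ?_⟩
  · calc P.card ≤ ∑ i ∈ range k, (w i).primeFactors.card := Finset.card_biUnion_le
      _ ≤ ∑ i ∈ range k, Nat.log 2 (Q * m + 1) := by
          apply Finset.sum_le_sum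
          intro i _
          have h1 : 2 ^ (w i).primeFactors.card ≤ w i := by
            calc 2 ^ (w i).primeFactors.card = ∏ _p ∈ (w i).primeFactors, 2 := by simp
              _ ≤ ∏ p ∈ (w i).primeFactors, p := by
                  apply Finset.prod_le_prod'
                  intro p hp
                  exact (Nat.prime_of_mem_primeFactors hp).two_le
              _ ≤ w i := Nat.le_of_dvd (Nat.succ_pos _) (Nat.prod_primeFactors_dvd _)
          have h2 : w i ≤ Q * m + 1 := by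
            have : Q * (m - i) ≤ Q * m := Nat.mul_le_mul_left _ (Nat.sub_le _ _)
            simp only [w]
            omega
          exact Nat.le_log_of_pow_le (by norm_num) (h1.trans h2)
      _ = k * Nat.log 2 (Q * m + 1) := by simp
  · have hr : ∀ i ∈ range k, rsum 0 (Q * (m - i) + 1) =
        ∑ p ∈ P, if p ∣ w i then (1 : ℝ) / p else 0 := by
      intro i hi
      rw [← Finset.sum_filter, rsum]
      apply Finset.sum_congr
      · ext p
        simp only [mem_filter]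
        constructor
        · rintro ⟨h1, -⟩
          exact ⟨Finset.mem_biUnion.2 ⟨i, hi, h1⟩, Nat.dvd_of_mem_primeFactors h1⟩
        · rintro ⟨h1, h2⟩
          exact ⟨Nat.mem_primeFactors.2 ⟨hPp p h1, h2, Nat.succ_ne_zero _⟩, (hPp p h1).pos⟩
      · intros; rfl
    rw [Finset.sum_congr rfl hr, Finset.sum_comm]
    have hcount : ∀ p ∈ P, ∑ i ∈ range k, (if p ∣ w i then (1 : ℝ) / p else 0) ≤
        (k : ℝ) * (1 / (p : ℝ) ^ 2) + 1 / p := by
      intro p hp
      have hpp := hPp p hp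
      have hp0' : (0 : ℝ) < p := by exact_mod_cast hpp.pos
      rw [← Finset.sum_filter, Finset.sum_const, nsmul_eq_mul]
      have hcard : (((range k).filter (fun i => p ∣ w i)).card : ℝ) ≤ (k : ℝ) / p + 1 := by
        let S : Finset ℕ := ((range k).filter (fun i => p ∣ w i)).image (fun i => i + 1)
        have hSc : S.card = ((range k).filter (fun i => p ∣ w i)).card :=
          Finset.card_image_of_injective _ (fun a b h => by simpa using h)
        rw [← hSc]
        refine CLS_congr k p hpp.pos S ?_ ?_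
        · intro x hx
          obtain ⟨i, hi, rfl⟩ := Finset.mem_image.1 hx
          rw [mem_filter, mem_range] at hi
          omega
        · intro x hx y hy
          obtain ⟨i, hi, rfl⟩ := Finset.mem_image.1 hx
          obtain ⟨i', hi', rfl⟩ := Finset.mem_image.1 hy
          rw [mem_filter, mem_range] at hi hi'
          obtain ⟨hik, hiw⟩ := hi
          obtain ⟨hik', hiw'⟩ := hi'
          have hcop : IsCoprime (p : ℤ) (Q : ℤ) := by
            rw [Nat.isCoprime_iff_coprime]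
            rw [hpp.coprime_iff_not_dvd]
            intro hpQ
            exact absurd ((hpp.dvd_factorial).1 hpQ) (not_le.2 (hPgt p hp))
          have h1 : (p : ℤ) ∣ (Q : ℤ) * (m - i) + 1 := by
            have : ((w i : ℕ) : ℤ) = (Q : ℤ) * (m - i) + 1 := by
              simp only [w]
              push_cast [Nat.cast_sub (by omega : i ≤ m)]
              ring
            rw [← this]
            exact_mod_cast hiw
          have h2 : (p : ℤ) ∣ (Q : ℤ) * (m - i') + 1 := by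
            have : ((w i' : ℕ) : ℤ) = (Q : ℤ) * (m - i') + 1 := by
              simp only [w]
              push_cast [Nat.cast_sub (by omega : i' ≤ m)]
              ring
            rw [← this]
            exact_mod_cast hiw'
          have h3 : (p : ℤ) ∣ (Q : ℤ) * ((i' : ℤ) - i) := by
            have := dvd_sub h1 h2
            have h4 : ((Q : ℤ) * (m - i) + 1) - ((Q : ℤ) * (m - i') + 1) =
              (Q : ℤ) * ((i' : ℤ) - i) := by ring
            rwa [h4] at this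
          have h5 := hcop.dvd_of_dvd_mul_left h3
          push_cast
          rw [Int.modEq_iff_dvd]
          have h6 : ((i' : ℤ) + 1) - (i + 1) = i' - i := by ring
          rw [h6]
          exact h5
      calc (((range k).filter (fun i => p ∣ w i)).card : ℝ) * (1 / (p : ℝ))
          ≤ ((k : ℝ) / p + 1) * (1 / (p : ℝ)) := by gcongr
        _ = (k : ℝ) * (1 / (p : ℝ) ^ 2) + 1 / p := by field_simp
    refine (Finset.sum_le_sum hcount).trans ?_
    rw [Finset.sum_add_distrib, ← Finset.mul_sum]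
    have htail : ∑ p ∈ P, (1 : ℝ) / (p : ℝ) ^ 2 ≤ 1 / p0 := by
      -- telescoping
      obtain ⟨Z, hZ⟩ : ∃ Z : ℕ, ∀ p ∈ P, p ≤ Z :=
        ⟨P.sup id, fun p hp => Finset.le_sup (f := id) hp⟩
      have h1 : ∑ p ∈ P, (1 : ℝ) / (p : ℝ) ^ 2 ≤
          ∑ p ∈ Ioc p0 (max p0 Z), (1 : ℝ) / (p : ℝ) ^ 2 := by
        apply Finset.sum_le_sum_of_subset_of_nonneg
        · intro p hp
          rw [mem_Ioc]
          exact ⟨hPgt p hp, (hZ p hp).trans (le_max_right _ _)⟩
        · intro p _ _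
          positivity
      have h2 : ∀ Y : ℕ, p0 ≤ Y → ∑ p ∈ Ioc p0 Y, (1 : ℝ) / (p : ℝ) ^ 2 ≤
          1 / p0 - 1 / Y := by
        intro Y hY
        induction Y, hY using Nat.le_induction with
        | base => simp
        | succ Y hY ih =>
          rw [Finset.sum_Ioc_succ_top hY]
          have hY0 : (0 : ℝ) < Y := by
            have : 0 < Y := by omega
            exact_mod_cast this
          have h3 : (1 : ℝ) / ((Y + 1 : ℕ) : ℝ) ^ 2 ≤ 1 / Y - 1 / ((Y + 1 : ℕ) : ℝ) := by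
            push_cast
            rw [div_sub_div _ _ (by positivity) (by positivity), div_le_div_iff₀ (by positivity)
              (by positivity)]
            nlinarith
          linarith
      refine h1.trans ((h2 _ (le_max_left _ _)).trans ?_)
      have : (0 : ℝ) ≤ 1 / ((max p0 Z : ℕ) : ℝ) := by positivity
      linarith
    have hk0 : (0 : ℝ) ≤ k := by positivity
    have : (k : ℝ) * ∑ p ∈ P, (1 : ℝ) / (p : ℝ) ^ 2 ≤ k * (1 / p0) := by gcongr
    have h5 : (k : ℝ) * (1 / p0) = k / p0 := by ring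
    linarith

/-- Near `2 n` there is a number whose prime factors are large. -/
theorem INT {ε : ℝ} (hε : 0 < ε) (hεbig : ε < 2) : ∃ C : ℝ, 0 < C ∧ ∃ n0 : ℕ, ∀ n : ℕ, n0 ≤ n → ∃ w : ℕ,
    2 * (n : ℝ) - C * Real.log (Real.log (Real.log n)) < w ∧ w ≤ 2 * n + 1 ∧
      (2 - ε) * n ≤ w ∧ rsum 0 w ≤ ε := by
  obtain ⟨C0, hC0⟩ := Pool.Agent.PnMn.sumInvPrimes
  obtain ⟨C1, hC1pos, hC1⟩ : ∃ C1 : ℝ, 0 ≤ C1 ∧ ∀ x : ℕ, 2 ≤ x →
      ∑ p ∈ (Finset.Icc 1 x).filter Nat.Prime, (1 : ℝ) / p ≤ Real.log (Real.log x) + C1 :=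
    ⟨max C0 0, le_max_right _ _, fun x hx => (hC0 x hx).trans (by
      have := le_max_left C0 0
      linarith)⟩
  obtain ⟨p0, hp0, hp0ε⟩ : ∃ p0 : ℕ, 0 < p0 ∧ 2 / ε ≤ p0 :=
    ⟨⌈2 / ε⌉₊ + 1, Nat.succ_pos _, (Nat.le_ceil _).trans (by push_cast; linarith)⟩
  obtain ⟨Q, hQ⟩ : ∃ Q : ℕ, Q = p0.factorial := ⟨_, rfl⟩
  have hQ0 : 0 < Q := hQ ▸ Nat.factorial_pos p0
  have hQ0' : (0 : ℝ) < Q := by exact_mod_cast hQ0
  obtain ⟨C3, hC3def⟩ : ∃ C3 : ℝ, C3 = 2 / ε * (C1 + 4) + 2 := ⟨_, rfl⟩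
  have hC3 : 0 < C3 := by rw [hC3def]; positivity
  refine ⟨Q * C3, by positivity, ?_⟩
  -- asymptotics
  have hlog : Filter.Tendsto (fun n : ℕ => Real.log (n : ℝ)) Filter.atTop Filter.atTop :=
    Real.tendsto_log_atTop.comp tendsto_natCast_atTop_atTop
  have hll : Filter.Tendsto (fun x : ℝ => Real.log (Real.log x)) Filter.atTop Filter.atTop :=
    Real.tendsto_log_atTop.comp Real.tendsto_log_atTop
  have hlx : Filter.Tendsto (fun x : ℝ => Real.log x / x) Filter.atTop (nhds 0) := by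
    have := Real.tendsto_pow_log_div_mul_add_atTop 1 0 1 one_ne_zero
    simpa using this
  have hE1 : ∀ᶠ x : ℝ in Filter.atTop, 1 ≤ Real.log (Real.log x) :=
    hll.eventually (Filter.eventually_ge_atTop 1)
  have hE2 : ∀ᶠ x : ℝ in Filter.atTop, Real.log x / x < 1 / (6 * C3) :=
    (tendsto_order.1 hlx).2 _ (by positivity)
  have hE3 : ∀ᶠ x : ℝ in Filter.atTop, (3 : ℝ) ≤ x := Filter.eventually_ge_atTop 3
  have hE4 : ∀ᶠ x : ℝ in Filter.atTop, Real.log x / x < ε / (Q * C3) :=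
    (tendsto_order.1 hlx).2 _ (by positivity)
  have hF : ∀ᶠ n : ℕ in Filter.atTop, (1 ≤ Real.log (Real.log (Real.log n)) ∧
      Real.log (Real.log n) / Real.log n < 1 / (6 * C3) ∧ 3 ≤ Real.log n) ∧
      (Real.log n / n < ε / (Q * C3)) :=
    (hlog.eventually (hE1.and (hE2.and hE3))).and
      ((tendsto_natCast_atTop_atTop (R := ℝ)).eventually hE4)
  obtain ⟨n0, hn0⟩ := Filter.eventually_atTop.1 hF
  refine ⟨n0 + 3, fun n hn => ?_⟩
  obtain ⟨⟨hL1, hL2, hL3⟩, hL4⟩ := hn0 n (by omega)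
  obtain ⟨x, hx⟩ : ∃ x : ℝ, x = Real.log n := ⟨_, rfl⟩
  rw [← hx] at hL1 hL2 hL3 hL4
  obtain ⟨L, hL⟩ : ∃ L : ℝ, L = Real.log (Real.log x) := ⟨_, rfl⟩
  rw [← hx, ← hL]
  rw [← hL] at hL1
  have hx0 : 0 < x := by linarith
  have hn0' : (0 : ℝ) < n := by
    have : 0 < n := by omega
    exact_mod_cast this
  have hn3 : (3 : ℝ) ≤ n := by
    have : 3 ≤ n := by omega
    exact_mod_cast this
  have hlx0 : 0 < Real.log x := Real.log_pos (by linarith)
  have hLx : L ≤ Real.log x := by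
    rw [hL]
    have := Real.log_le_sub_one_of_pos hlx0
    linarith
  have hlxx : Real.log x ≤ x := by
    have := Real.log_le_sub_one_of_pos hx0
    linarith
  rw [div_lt_iff₀ hx0] at hL2
  rw [div_lt_iff₀ hn0'] at hL4
  -- the number of terms
  obtain ⟨k, hk1, hk2, hk0⟩ : ∃ k : ℕ, 2 / ε * (L + C1 + 3) ≤ k ∧
      (k : ℝ) + 1 ≤ C3 * L ∧ 0 < k := by
    refine ⟨⌈2 / ε * (L + C1 + 3)⌉₊, Nat.le_ceil _, ?_, ?_⟩
    · have h1 := (Nat.ceil_lt_add_one (show 0 ≤ 2 / ε * (L + C1 + 3) by positivity)).le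
      have h2 : 2 / ε * (L + C1 + 3) ≤ 2 / ε * ((C1 + 4) * L) := by
        gcongr
        nlinarith
      rw [hC3def]
      nlinarith
    · exact Nat.ceil_pos.2 (by positivity)
  have hkε : L + C1 + 3 ≤ ε / 2 * k := by
    have h1 : ε / 2 * (2 / ε * (L + C1 + 3)) ≤ ε / 2 * k := by gcongr
    have h2 : ε / 2 * (2 / ε * (L + C1 + 3)) = L + C1 + 3 := by field_simp
    linarith
  have hkL : (Q : ℝ) * ((k : ℝ) + 1) ≤ Q * C3 * L := by
    have : (Q : ℝ) * ((k : ℝ) + 1) ≤ Q * (C3 * L) := by gcongr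
    linarith
  have hCL : (Q : ℝ) * C3 * L ≤ ε * n := by
    have h1 : L ≤ x := hLx.trans hlxx
    have h2 : (Q : ℝ) * C3 * x ≤ (Q : ℝ) * C3 * (ε / (Q * C3) * n) := by gcongr
    have h3 : (Q : ℝ) * C3 * (ε / (Q * C3) * n) = ε * n := by field_simp
    have h4 : (Q : ℝ) * C3 * L ≤ (Q : ℝ) * C3 * x := by gcongr
    linarith
  obtain ⟨m, hm⟩ : ∃ m : ℕ, m = 2 * n / Q := ⟨_, rfl⟩
  have hQm : Q * m ≤ 2 * n := by rw [hm]; exact Nat.mul_div_le _ _
  have hQm2 : 2 * n < Q * m + Q := by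
    rw [hm]
    have := Nat.lt_mul_div_succ (2 * n) hQ0
    linarith
  have hQm2' : 2 * (n : ℝ) < Q * m + Q := by exact_mod_cast hQm2
  have hkm : k ≤ m := by
    have h1 : (Q : ℝ) * ((k : ℝ) + 1) ≤ ε * n := hkL.trans hCL
    have h2 : (Q : ℝ) * ((k : ℝ) + 1) < Q * m + Q := by nlinarith
    have h3 : (Q : ℝ) * k < Q * m := by linarith
    have h4 : (k : ℝ) < m := lt_of_mul_lt_mul_left h3 hQ0'.le
    exact_mod_cast h4.le
  obtain ⟨P, hP1, hP2, hP3⟩ := INT_avg p0 k m hp0 hkm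
  rw [← hQ] at hP2 hP3
  -- the size of P
  have hPcard : ((P.card + 2 : ℕ) : ℝ) ≤ x ^ 2 := by
    have h1 : (P.card : ℝ) ≤ k * Nat.log 2 (Q * m + 1) := by exact_mod_cast hP2
    have h2 : (Nat.log 2 (Q * m + 1) : ℝ) ≤ 3 * x := by
      have h3 : (Nat.log 2 (Q * m + 1) : ℝ) ≤ Nat.log 2 (2 * n + 1) := by
        exact_mod_cast Nat.log_mono_right (by omega)
      have hl2 : (0.69 : ℝ) ≤ Real.log 2 := by
        have := Real.log_two_gt_d9
        linarith
      have h6 : (Nat.log 2 (2 * n + 1) : ℝ) * Real.log 2 ≤ Real.log (2 * n + 1) := by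
        have h7 : (2 : ℝ) ^ (Nat.log 2 (2 * n + 1)) ≤ 2 * n + 1 := by
          exact_mod_cast Nat.pow_log_le_self 2 (by omega : 2 * n + 1 ≠ 0)
        have h8 := Real.log_le_log (by positivity) h7
        rwa [Real.log_pow] at h8
      have h9 : Real.log (2 * n + 1) ≤ 2 * x := by
        rw [hx, ← Real.log_rpow hn0']
        apply Real.log_le_log (by positivity)
        have : (n : ℝ) ^ (2 : ℝ) = n ^ 2 := by norm_cast
        rw [this]
        nlinarith
      have h10 : (0 : ℝ) ≤ Nat.log 2 (2 * n + 1) := by positivity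
      have h11 : (Nat.log 2 (2 * n + 1) : ℝ) * 0.69 ≤ 2 * x := by nlinarith
      linarith
    have h4 : (P.card : ℝ) ≤ (C3 * L) * (3 * x) := by
      refine h1.trans ?_
      have : (k : ℝ) ≤ C3 * L := by linarith
      gcongr
    have h5 : C3 * L * (3 * x) ≤ x ^ 2 / 2 := by
      have h6 : C3 * L ≤ x / 6 := by
        have h7 : C3 * Real.log x ≤ C3 * (1 / (6 * C3) * x) := by gcongr
        have h8 : C3 * (1 / (6 * C3) * x) = x / 6 := by field_simp
        have h9 : C3 * L ≤ C3 * Real.log x := by gcongr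
        linarith
      nlinarith
    push_cast
    nlinarith
  have hsum := INT_primes hC1 P hP1 (P.card + 2) le_rfl
  have hloglog : Real.log (Real.log ((P.card + 2 : ℕ) : ℝ)) ≤ L + 1 := by
    have h1 : (2 : ℝ) ≤ ((P.card + 2 : ℕ) : ℝ) := by push_cast; linarith [(Nat.cast_nonneg P.card : (0 : ℝ) ≤ P.card)]
    have h2 : 0 < Real.log ((P.card + 2 : ℕ) : ℝ) := Real.log_pos (by linarith)
    have h3 : Real.log ((P.card + 2 : ℕ) : ℝ) ≤ 2 * Real.log x := by
      have := Real.log_le_log (by linarith) hPcard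
      rwa [Real.log_pow] at this
    have h4 := Real.log_le_log h2 h3
    rw [Real.log_mul (by norm_num) hlx0.ne'] at h4
    have h5 : Real.log 2 ≤ 1 := by
      have := Real.log_two_lt_d9
      linarith
    linarith
  have hS : ∑ i ∈ range k, rsum 0 (Q * (m - i) + 1) ≤ ε * k := by
    have h1 : (k : ℝ) / p0 ≤ ε / 2 * k := by
      have hp0' : (0 : ℝ) < p0 := by exact_mod_cast hp0
      rw [div_le_iff₀ hp0']
      rw [div_le_iff₀ hε] at hp0ε
      have : (0 : ℝ) ≤ k := by positivity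
      nlinarith
    linarith
  obtain ⟨i, hi, hir⟩ : ∃ i ∈ range k, rsum 0 (Q * (m - i) + 1) ≤ ε := by
    by_contra hc
    push Not at hc
    have h1 : ∑ i ∈ range k, ε < ∑ i ∈ range k, rsum 0 (Q * (m - i) + 1) :=
      Finset.sum_lt_sum_of_nonempty ⟨0, mem_range.2 hk0⟩ hc
    rw [Finset.sum_const, card_range, nsmul_eq_mul] at h1
    linarith
  rw [mem_range] at hi
  have hwcast : ((Q * (m - i) + 1 : ℕ) : ℝ) = Q * (m - i) + 1 := by
    push_cast [Nat.cast_sub (by omega : i ≤ m)]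
    ring
  have hik : (i : ℝ) + 1 ≤ k := by exact_mod_cast hi
  have hlow : 2 * (n : ℝ) - Q * C3 * L < ((Q * (m - i) + 1 : ℕ) : ℝ) := by
    rw [hwcast]
    have h1 : (Q : ℝ) * (i + 1) ≤ Q * k := by gcongr
    nlinarith
  refine ⟨Q * (m - i) + 1, hlow, ?_, ?_, hir⟩
  · have : Q * (m - i) ≤ Q * m := Nat.mul_le_mul_left _ (Nat.sub_le _ _)
    omega
  · have : (2 - ε) * (n : ℝ) = 2 * n - ε * n := by ring
    linarith

end Pool.Agent.LR2
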