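import Mathlib

namespace Pool.Agent.LR2

open Finset

/-- the number of `x ∈ (a, b]` divisible by no prime of `P` -/
private def cnt (P : Finset ℕ) (a b : ℕ) : ℕ :=
  ((Ioc a b).filter (fun x : ℕ => ∀ p ∈ P, ¬ p ∣ x)).card

private theorem cop_step (P : Finset ℕ) (hP : ∀ p ∈ P, p.Prime) (q : ℕ) (hq : q.Prime)
    (hqP : q ∉ P) (a b : ℕ) :
    cnt (insert q P) a b + cnt P (a / q) (b / q) = cnt P a b := by
  classical
  unfold cnt
  have h1 : ((Ioc (a / q) (b / q)).filter (fun x : ℕ => ∀ p ∈ P, ¬ p ∣ x)).card =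
      ((Ioc a b).filter (fun x : ℕ => (∀ p ∈ P, ¬ p ∣ x) ∧ q ∣ x)).card := by
    apply Finset.card_bij (fun y _ => q * y)
    · intro y hy
      rw [Finset.mem_filter, Finset.mem_Ioc] at hy ⊢
      refine ⟨⟨?_, ?_⟩, ?_, dvd_mul_right _ _⟩
      · have := (Nat.div_lt_iff_lt_mul hq.pos).1 hy.1.1
        linarith [mul_comm y q]
      · have := (Nat.le_div_iff_mul_le hq.pos).1 hy.1.2
        linarith [mul_comm y q]
      · intro p hp hd
        rcases (hP p hp).dvd_mul.1 hd with h | h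
        · have := (Nat.prime_dvd_prime_iff_eq (hP p hp) hq).1 h
          exact hqP (this ▸ hp)
        · exact hy.2 p hp h
    · intro y _ z _ h
      exact Nat.eq_of_mul_eq_mul_left hq.pos h
    · intro x hx
      rw [Finset.mem_filter, Finset.mem_Ioc] at hx
      obtain ⟨y, rfl⟩ := hx.2.2
      refine ⟨y, ?_, rfl⟩
      rw [Finset.mem_filter, Finset.mem_Ioc]
      refine ⟨⟨?_, ?_⟩, fun p hp hd => hx.2.1 p hp (hd.mul_left q)⟩
      · rw [Nat.div_lt_iff_lt_mul hq.pos]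
        linarith [hx.1.1, mul_comm y q]
      · rw [Nat.le_div_iff_mul_le hq.pos]
        linarith [hx.1.2, mul_comm y q]
  rw [h1]
  have h2 : (Ioc a b).filter (fun x : ℕ => ∀ p ∈ insert q P, ¬ p ∣ x) =
      ((Ioc a b).filter (fun x : ℕ => ∀ p ∈ P, ¬ p ∣ x)).filter (fun x => ¬ q ∣ x) := by
    ext x
    simp only [Finset.mem_filter, Finset.mem_insert, forall_eq_or_imp]
    tauto
  have h3 : (Ioc a b).filter (fun x : ℕ => (∀ p ∈ P, ¬ p ∣ x) ∧ q ∣ x) =
      ((Ioc a b).filter (fun x : ℕ => ∀ p ∈ P, ¬ p ∣ x)).filter (fun x => q ∣ x) := by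
    ext x
    simp only [Finset.mem_filter]
    tauto
  rw [h2, h3, add_comm]
  exact Finset.card_filter_add_card_filter_not _

private theorem cop_floor (q a b : ℕ) (hq : 0 < q) (hab : a ≤ b) :
    |((b / q : ℕ) : ℝ) - ((a / q : ℕ) : ℝ) - ((b : ℝ) - a) / q| ≤ 1 := by
  have hq' : (0 : ℝ) < q := by exact_mod_cast hq
  have e : ∀ t : ℕ, ((t / q : ℕ) : ℝ) ≤ t / q ∧ (t : ℝ) / q < ((t / q : ℕ) : ℝ) + 1 := by
    intro t
    refine ⟨Nat.cast_div_le, ?_⟩
    rw [div_lt_iff₀ hq']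
    have := Nat.lt_div_mul_add hq (a := t)
    have h2 : t < (t / q + 1) * q := by linarith
    exact_mod_cast h2
  have ha := e a
  have hb := e b
  rw [sub_div, abs_le]
  constructor <;> linarith [ha.1, ha.2, hb.1, hb.2]

private theorem cop_main (P : Finset ℕ) (hP : ∀ p ∈ P, p.Prime) : ∀ a b : ℕ, a ≤ b →
    |(cnt P a b : ℝ) - ((b : ℝ) - a) * ∏ p ∈ P, (1 - (p : ℝ)⁻¹)| ≤ 2 ^ P.card - 1 := by
  classical
  induction P using Finset.induction_on with
  | empty =>
    intro a b hab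
    have : (cnt ∅ a b : ℝ) = (b : ℝ) - a := by
      unfold cnt
      simp [Nat.card_Ioc, Nat.cast_sub hab]
    rw [this]
    simp
  | insert q P hq ih =>
    intro a b hab
    have hqp : q.Prime := hP q (Finset.mem_insert_self q P)
    have hP' : ∀ p ∈ P, p.Prime := fun p hp => hP p (Finset.mem_insert_of_mem hp)
    have ih' := ih hP'
    have h1 := cop_step P hP' q hqp hq a b
    have h1' : (cnt (insert q P) a b : ℝ) = cnt P a b - cnt P (a / q) (b / q) := by
      rw [← h1]; push_cast; ring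
    have h2 := ih' a b hab
    have h3 := ih' (a / q) (b / q) (Nat.div_le_div_right hab)
    have h4 := cop_floor q a b hqp.pos hab
    have hq0 : 0 ≤ ∏ p ∈ P, (1 - (p : ℝ)⁻¹) := by
      refine Finset.prod_nonneg (fun p hp => ?_)
      have : (1 : ℝ) ≤ p := by exact_mod_cast (hP' p hp).one_le
      have := inv_le_one_of_one_le₀ this
      linarith
    have hq1 : ∏ p ∈ P, (1 - (p : ℝ)⁻¹) ≤ 1 := by
      refine Finset.prod_le_one (fun p hp => ?_) (fun p hp => ?_)
      · have : (1 : ℝ) ≤ p := by exact_mod_cast (hP' p hp).one_le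
        have := inv_le_one_of_one_le₀ this
        linarith
      · have : (0 : ℝ) ≤ (p : ℝ)⁻¹ := by positivity
        linarith
    rw [Finset.prod_insert hq, Finset.card_insert_of_notMem hq, h1']
    set pr : ℝ := ∏ p ∈ P, (1 - (p : ℝ)⁻¹) with hprd
    have h5 : |(((b / q : ℕ) : ℝ) - ((a / q : ℕ) : ℝ) - ((b : ℝ) - a) / q) * pr| ≤ 1 := by
      rw [abs_mul, abs_of_nonneg hq0]
      calc |((b / q : ℕ) : ℝ) - ((a / q : ℕ) : ℝ) - ((b : ℝ) - a) / q| * pr ≤ 1 * 1 :=
            mul_le_mul h4 hq1 hq0 (by norm_num)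
        _ = 1 := by norm_num
    have e : (cnt P a b : ℝ) - cnt P (a / q) (b / q) - ((b : ℝ) - a) * ((1 - (q : ℝ)⁻¹) * pr) =
        ((cnt P a b : ℝ) - ((b : ℝ) - a) * pr) -
        ((cnt P (a / q) (b / q) : ℝ) - (((b / q : ℕ) : ℝ) - ((a / q : ℕ) : ℝ)) * pr) -
        (((b / q : ℕ) : ℝ) - ((a / q : ℕ) : ℝ) - ((b : ℝ) - a) / q) * pr := by
      rw [div_eq_mul_inv]
      ring
    rw [e]
    refine (abs_sub _ _).trans ?_
    refine (add_le_add (abs_sub _ _) le_rfl).trans ?_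
    have e2 : (2 : ℝ) ^ (P.card + 1) - 1 = (2 ^ P.card - 1) + (2 ^ P.card - 1) + 1 := by
      rw [pow_succ]; ring
    rw [e2]
    linarith

/-- Numbers in an interval coprime to `m`. -/
theorem COP (m a b : ℕ) (hm : 0 < m) (hab : a ≤ b) :
    ((b : ℝ) - a) * ((m.totient : ℝ) / m) - 2 ^ m.primeFactors.card ≤
      (((Ioc a b).filter (fun x : ℕ => Nat.Coprime x m)).card : ℝ) := by
  have h1 := cop_main m.primeFactors (fun p hp => Nat.prime_of_mem_primeFactors hp) a b hab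
  have h2 : (cnt m.primeFactors a b : ℝ) =
      (((Ioc a b).filter (fun x : ℕ => Nat.Coprime x m)).card : ℝ) := by
    unfold cnt
    congr 2
    ext x
    simp only [Finset.mem_filter]
    refine and_congr_right (fun _ => ?_)
    constructor
    · intro h
      by_contra hc
      obtain ⟨p, hp, hpx, hpm⟩ := Nat.Prime.not_coprime_iff_dvd.1 hc
      exact h p (Nat.mem_primeFactors.2 ⟨hp, hpm, hm.ne'⟩) hpx
    · intro h p hp hpx
      obtain ⟨hpp, hpm, _⟩ := Nat.mem_primeFactors.1 hp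
      exact Nat.Prime.not_coprime_iff_dvd.2 ⟨p, hpp, hpx, hpm⟩ h
  have h3 : (m.totient : ℝ) / m = ∏ p ∈ m.primeFactors, (1 - (p : ℝ)⁻¹) := by
    have h4 := Nat.totient_eq_mul_prod_factors m
    have h5 : (m.totient : ℝ) = m * ∏ p ∈ m.primeFactors, (1 - (p : ℝ)⁻¹) := by
      have := congrArg (fun t : ℚ => (t : ℝ)) h4
      push_cast at this
      exact this
    have hm' : (m : ℝ) ≠ 0 := by exact_mod_cast hm.ne'
    rw [h5, mul_div_cancel_left₀ _ hm']
  rw [h2, ← h3] at h1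
  have h6 := (abs_le.1 h1).1
  linarith

end Pool.Agent.LR2
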