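import Mathlib

namespace Pool.Agent.LR2

open Finset

/-- `g p = (p / (p - 1)) ^ 2 - 1` -/
private noncomputable def mg (p : ℕ) : ℝ := ((1 - (p : ℝ)⁻¹) ^ 2)⁻¹ - 1

private theorem mg_bd (p : ℕ) (hp : p.Prime) : 0 ≤ mg p ∧ mg p ≤ 6 / p := by
  have h2 : (2 : ℝ) ≤ p := by exact_mod_cast hp.two_le
  have h0 : (0 : ℝ) < p := by linarith
  have h1 : (0 : ℝ) < p - 1 := by linarith
  have e : mg p = (2 * p - 1) / (p - 1) ^ 2 := by
    unfold mg
    field_simp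
    ring
  rw [e]
  constructor
  · have : (0 : ℝ) ≤ 2 * p - 1 := by linarith
    positivity
  · rw [div_le_div_iff₀ (by positivity) h0]
    nlinarith

private theorem mom_sq (m : ℕ) (hm : 0 < m) :
    ((m : ℝ) / m.totient) ^ 2 = ∏ p ∈ m.primeFactors, (1 + mg p) := by
  have h4 := Nat.totient_eq_mul_prod_factors m
  have h5 : (m.totient : ℝ) = m * ∏ p ∈ m.primeFactors, (1 - (p : ℝ)⁻¹) := by
    have := congrArg (fun t : ℚ => (t : ℝ)) h4
    push_cast at this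
    exact this
  have hm' : (m : ℝ) ≠ 0 := by exact_mod_cast hm.ne'
  have h6 : (m : ℝ) / m.totient = (∏ p ∈ m.primeFactors, (1 - (p : ℝ)⁻¹))⁻¹ := by
    rw [h5, div_mul_eq_div_div, div_self hm', one_div]
  rw [h6, inv_pow, ← Finset.prod_pow, ← Finset.prod_inv_distrib]
  refine Finset.prod_congr rfl (fun p _ => ?_)
  unfold mg
  ring

private theorem mom_count (x : ℕ) (T : Finset ℕ) (hT : ∀ p ∈ T, p.Prime) :
    (((Icc 1 x).filter (fun m : ℕ => T ⊆ m.primeFactors)).card : ℝ) ≤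
      x * ∏ p ∈ T, (p : ℝ)⁻¹ := by
  have h1 : (Icc 1 x).filter (fun m : ℕ => T ⊆ m.primeFactors) ⊆
      (Ioc 0 x).filter (fun m : ℕ => (∏ p ∈ T, p) ∣ m) := by
    intro m hm
    rw [Finset.mem_filter, Finset.mem_Icc] at hm
    rw [Finset.mem_filter, Finset.mem_Ioc]
    refine ⟨⟨by omega, hm.1.2⟩, ?_⟩
    exact Finset.prod_primes_dvd m (fun p hp => (hT p hp).prime)
      (fun p hp => Nat.dvd_of_mem_primeFactors (hm.2 hp))
  have h2 := Finset.card_le_card h1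
  rw [Nat.Ioc_filter_dvd_card_eq_div] at h2
  have h3 : ((x / ∏ p ∈ T, p : ℕ) : ℝ) ≤ (x : ℝ) / ((∏ p ∈ T, p : ℕ) : ℝ) := Nat.cast_div_le
  calc (((Icc 1 x).filter (fun m : ℕ => T ⊆ m.primeFactors)).card : ℝ)
      ≤ ((x / ∏ p ∈ T, p : ℕ) : ℝ) := by exact_mod_cast h2
    _ ≤ (x : ℝ) / ((∏ p ∈ T, p : ℕ) : ℝ) := h3
    _ = x * ∏ p ∈ T, (p : ℝ)⁻¹ := by
        push_cast
        rw [Finset.prod_inv_distrib, div_eq_mul_inv]

/-- The second moment of `m / φ(m)`. -/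
theorem MOM : ∃ C : ℝ, 0 < C ∧ ∀ x : ℕ,
    ∑ m ∈ Icc 1 x, ((m : ℝ) / m.totient) ^ 2 ≤ C * x := by
  classical
  refine ⟨Real.exp 12, Real.exp_pos _, fun x => ?_⟩
  set S : Finset ℕ := (Icc 1 x).filter Nat.Prime with hS
  have hSp : ∀ p ∈ S, p.Prime := fun p hp => (Finset.mem_filter.1 hp).2
  have h1 : ∀ m ∈ Icc 1 x, ((m : ℝ) / m.totient) ^ 2 =
      ∑ T ∈ S.powerset, if T ⊆ m.primeFactors then ∏ p ∈ T, mg p else 0 := by
    intro m hm
    rw [Finset.mem_Icc] at hm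
    rw [mom_sq m (by omega), Finset.prod_one_add, ← Finset.sum_filter]
    refine Finset.sum_congr ?_ (fun _ _ => rfl)
    ext T
    rw [Finset.mem_powerset, Finset.mem_filter, Finset.mem_powerset]
    constructor
    · intro h
      refine ⟨fun p hp => ?_, h⟩
      have h3 := h hp
      rw [hS, Finset.mem_filter, Finset.mem_Icc]
      have h4 := Nat.prime_of_mem_primeFactors h3
      exact ⟨⟨h4.one_le, (Nat.le_of_mem_primeFactors h3).trans hm.2⟩, h4⟩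
    · exact fun h => h.2
  rw [Finset.sum_congr rfl h1, Finset.sum_comm]
  have h2 : ∀ T ∈ S.powerset,
      (∑ m ∈ Icc 1 x, if T ⊆ m.primeFactors then ∏ p ∈ T, mg p else 0) ≤
        x * ∏ p ∈ T, (mg p * (p : ℝ)⁻¹) := by
    intro T hT
    rw [Finset.mem_powerset] at hT
    have hTp : ∀ p ∈ T, p.Prime := fun p hp => hSp p (hT hp)
    rw [← Finset.sum_filter, Finset.sum_const, nsmul_eq_mul, Finset.prod_mul_distrib]
    have h3 := mom_count x T hTp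
    have h4 : 0 ≤ ∏ p ∈ T, mg p := Finset.prod_nonneg (fun p hp => (mg_bd p (hTp p hp)).1)
    have h5 := mul_le_mul_of_nonneg_right h3 h4
    linarith [h5, mul_comm (∏ p ∈ T, mg p) (∏ p ∈ T, (p : ℝ)⁻¹),
      mul_assoc (x : ℝ) (∏ p ∈ T, (p : ℝ)⁻¹) (∏ p ∈ T, mg p),
      congrArg (fun t => (x : ℝ) * t) (mul_comm (∏ p ∈ T, mg p) (∏ p ∈ T, (p : ℝ)⁻¹))]
  refine (Finset.sum_le_sum h2).trans ?_
  rw [← Finset.mul_sum, ← Finset.prod_one_add, mul_comm]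
  refine mul_le_mul_of_nonneg_right ?_ (Nat.cast_nonneg x)
  have h6 : ∏ p ∈ S, (1 + mg p * (p : ℝ)⁻¹) ≤ Real.exp (∑ p ∈ S, mg p * (p : ℝ)⁻¹) := by
    rw [Real.exp_sum]
    refine Finset.prod_le_prod (fun p hp => ?_) (fun p _ => ?_)
    · have := (mg_bd p (hSp p hp)).1
      positivity
    · rw [add_comm]
      exact Real.add_one_le_exp _
  refine h6.trans (Real.exp_le_exp.2 ?_)
  have h7 : ∑ p ∈ S, mg p * (p : ℝ)⁻¹ ≤ ∑ p ∈ Ioo 0 (x + 1), 6 * (((p : ℝ)) ^ 2)⁻¹ := by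
    calc ∑ p ∈ S, mg p * (p : ℝ)⁻¹ ≤ ∑ p ∈ S, 6 * (((p : ℝ)) ^ 2)⁻¹ := by
          refine Finset.sum_le_sum (fun p hp => ?_)
          have hp0 : (0 : ℝ) < p := by exact_mod_cast (hSp p hp).pos
          have h8 := mul_le_mul_of_nonneg_right (mg_bd p (hSp p hp)).2
            (by positivity : (0 : ℝ) ≤ (p : ℝ)⁻¹)
          refine h8.trans (le_of_eq ?_)
          field_simp
      _ ≤ ∑ p ∈ Ioo 0 (x + 1), 6 * (((p : ℝ)) ^ 2)⁻¹ := by
          refine Finset.sum_le_sum_of_subset_of_nonneg ?_ (fun p _ _ => by positivity)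
          intro p hp
          rw [hS, Finset.mem_filter, Finset.mem_Icc] at hp
          rw [Finset.mem_Ioo]
          omega
  refine h7.trans ?_
  rw [← Finset.mul_sum]
  have h9 := sum_Ioo_inv_sq_le (α := ℝ) 0 (x + 1)
  norm_num at h9
  linarith

end Pool.Agent.LR2
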