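import Mathlib
import Pool.Agent.LR2.Mom

namespace Pool.Agent.LR2

open Finset

/-- Auxiliary weight. -/
noncomputable def secU (p : ℕ) : ℝ := if p = 2 then 1 / 8 else if p = 3 then 1 / 3 else
  if p = 5 then 4 / 5 else 1

theorem secU_pos (p : ℕ) : 0 < secU p := by
  unfold secU; split_ifs <;> norm_num

theorem secU_le_one (p : ℕ) : secU p ≤ 1 := by
  unfold secU; split_ifs <;> norm_num

theorem secU_le {p : ℕ} (hp : p.Prime) : secU p ≤ (p : ℝ) * (1 - (p : ℝ)⁻¹) ^ 2 / 4 := by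
  unfold secU
  split_ifs with h2 h3 h5
  · subst h2; norm_num
  · subst h3; norm_num
  · subst h5; norm_num
  · have h7 : 7 ≤ p := by
      by_contra hlt
      have h1 := hp.two_le
      interval_cases p
      · exact h2 rfl
      · exact h3 rfl
      · revert hp; decide
      · exact h5 rfl
      · revert hp; decide
    have h7' : (7 : ℝ) ≤ p := by exact_mod_cast h7
    have hp0 : (0 : ℝ) < p := by linarith
    have hinv : (p : ℝ)⁻¹ ≤ 1 / 7 := by
      rw [inv_le_comm₀ hp0 (by norm_num)]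
      norm_num; exact h7
    have h1 : (6 : ℝ) / 7 ≤ 1 - (p : ℝ)⁻¹ := by linarith
    have h2' : ((6 : ℝ) / 7) ^ 2 ≤ (1 - (p : ℝ)⁻¹) ^ 2 := pow_le_pow_left₀ (by norm_num) h1 2
    nlinarith

theorem sec_prod (S : Finset ℕ) : (1 : ℝ) / 30 ≤ ∏ p ∈ S, secU p := by
  classical
  have h1 : ∏ p ∈ S ∪ {2, 3, 5}, secU p = ∏ p ∈ ({2, 3, 5} : Finset ℕ), secU p := by
    symm
    apply Finset.prod_subset Finset.subset_union_right
    intro x _ hx
    simp only [Finset.mem_insert, Finset.mem_singleton, not_or] at hx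
    unfold secU
    rw [if_neg hx.1, if_neg hx.2.1, if_neg hx.2.2]
  have h2 : ∏ p ∈ ({2, 3, 5} : Finset ℕ), secU p = 1 / 30 := by
    rw [Finset.prod_insert (by decide), Finset.prod_insert (by decide), Finset.prod_singleton]
    unfold secU
    norm_num
  have h3 : ∏ p ∈ S ∪ {2, 3, 5}, secU p ≤ ∏ p ∈ S, secU p := by
    rw [← Finset.prod_sdiff (Finset.subset_union_left (s₁ := S) (s₂ := {2, 3, 5}))]
    apply mul_le_of_le_one_left
    · exact Finset.prod_nonneg fun p _ => (secU_pos p).le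
    · exact Finset.prod_le_one (fun p _ => (secU_pos p).le) (fun p _ => secU_le_one p)
  rw [← h2, ← h1]; exact h3

/-- `4^ω(m) m ≤ 30 φ(m)^2`. -/
theorem sec_omega (m : ℕ) (hm : 0 < m) :
    (4 : ℝ) ^ m.primeFactors.card * m ≤ 30 * (m.totient : ℝ) ^ 2 := by
  have hm' : (0 : ℝ) < m := by exact_mod_cast hm
  have htot : (m.totient : ℝ) = m * ∏ p ∈ m.primeFactors, (1 - (p : ℝ)⁻¹) := by
    have := Nat.totient_eq_mul_prod_factors m
    have h := congrArg (fun x : ℚ => (x : ℝ)) this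
    push_cast at h
    exact h
  have hrad : ∏ p ∈ m.primeFactors, (p : ℝ) ≤ m := by
    have h : ∏ p ∈ m.primeFactors, p ≤ m := Nat.le_of_dvd hm (Nat.prod_primeFactors_dvd m)
    rw [← Nat.cast_prod]
    exact_mod_cast h
  have hu : ∏ p ∈ m.primeFactors, secU p ≤
      ∏ p ∈ m.primeFactors, ((p : ℝ) * (1 - (p : ℝ)⁻¹) ^ 2 / 4) :=
    Finset.prod_le_prod (fun p _ => (secU_pos p).le)
      (fun p hp => secU_le (Nat.prime_of_mem_primeFactors hp))
  have h30 := sec_prod m.primeFactors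
  rw [Finset.prod_div_distrib, Finset.prod_mul_distrib, Finset.prod_pow, Finset.prod_const] at hu
  have h4 : (0 : ℝ) < 4 ^ m.primeFactors.card := by positivity
  set P := ∏ p ∈ m.primeFactors, (1 - (p : ℝ)⁻¹) with hP
  set R := ∏ p ∈ m.primeFactors, (p : ℝ) with hR
  have h5 : (1 : ℝ) / 30 ≤ R * P ^ 2 / 4 ^ m.primeFactors.card := h30.trans hu
  rw [le_div_iff₀ h4] at h5
  have h6 : R * P ^ 2 ≤ m * P ^ 2 := mul_le_mul_of_nonneg_right hrad (sq_nonneg _)
  rw [htot]
  have h7 : (4 : ℝ) ^ m.primeFactors.card ≤ 30 * (m * P ^ 2) := by linarith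
  calc (4 : ℝ) ^ m.primeFactors.card * m ≤ 30 * (m * P ^ 2) * m :=
        mul_le_mul_of_nonneg_right h7 hm'.le
    _ = 30 * (m * P) ^ 2 := by ring

/-- A nonempty set whose size is bounded below in terms of each of its elements is large. -/
theorem SEC : ∃ lam : ℝ, 0 < lam ∧ ∃ n0 : ℕ, ∀ n : ℕ, n0 ≤ n → ∀ B : Finset ℕ, B.Nonempty →
    (∀ m ∈ B, 0 < m ∧ m ≤ 2 * n) →
    (∀ m ∈ B, (n : ℝ) / 24 * ((m.totient : ℝ) / m) - 2 ^ m.primeFactors.card - 1 ≤ B.card) →
    lam * n < B.card := by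
  obtain ⟨C, hC, hmom⟩ := MOM
  refine ⟨1 / (20000 * C), by positivity, 1000000, ?_⟩
  intro n hn B hB hrange hlow
  have hn' : (1000000 : ℝ) ≤ n := by exact_mod_cast hn
  have hb1 : (1 : ℝ) ≤ B.card := by exact_mod_cast hB.card_pos
  have key : ∀ m ∈ B, (n : ℝ) / (96 * B.card) ≤ (m : ℝ) / m.totient := by
    intro m hm
    obtain ⟨hm0, hm2⟩ := hrange m hm
    have hm0' : (0 : ℝ) < m := by exact_mod_cast hm0
    have hm2' : (m : ℝ) ≤ 2 * n := by exact_mod_cast hm2
    have ht0 : (0 : ℝ) < m.totient := by exact_mod_cast Nat.totient_pos.mpr hm0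
    have ht1 : (m.totient : ℝ) ≤ m := by exact_mod_cast Nat.totient_le m
    have h1 := hlow m hm
    have hom := sec_omega m hm0
    set w := (2 : ℝ) ^ m.primeFactors.card with hw
    have hw0 : 0 < w := by positivity
    have hw2 : (4 : ℝ) ^ m.primeFactors.card = w ^ 2 := by
      rw [hw, ← pow_mul, mul_comm, pow_mul]; norm_num
    rw [hw2] at hom
    -- w * m ≤ n / 48 * totient
    have hwm : w * m ≤ (n : ℝ) / 48 * m.totient := by
      have hsq : (w * m) ^ 2 ≤ ((n : ℝ) / 48 * m.totient) ^ 2 := by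
        calc (w * m) ^ 2 = (w ^ 2 * m) * m := by ring
          _ ≤ 30 * (m.totient : ℝ) ^ 2 * m := mul_le_mul_of_nonneg_right hom hm0'.le
          _ ≤ 30 * (m.totient : ℝ) ^ 2 * (2 * n) := by gcongr
          _ = (60 * n) * (m.totient : ℝ) ^ 2 := by ring
          _ ≤ ((n : ℝ) / 48) ^ 2 * (m.totient : ℝ) ^ 2 := by
              apply mul_le_mul_of_nonneg_right _ (sq_nonneg _)
              nlinarith
          _ = _ := by ring
      exact le_of_sq_le_sq hsq (by positivity)
    have h2 : (n : ℝ) / 24 * m.totient ≤ (B.card + 1 + w) * m := by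
      have : (n : ℝ) / 24 * ((m.totient : ℝ) / m) ≤ B.card + 1 + w := by linarith
      have h3 := mul_le_mul_of_nonneg_right this hm0'.le
      have h4 : (n : ℝ) / 24 * ((m.totient : ℝ) / m) * m = (n : ℝ) / 24 * m.totient := by
        field_simp
      linarith
    have h3 : (n : ℝ) / 48 * m.totient ≤ 2 * B.card * m := by
      have : (B.card + 1 : ℝ) * m ≤ 2 * B.card * m := by
        apply mul_le_mul_of_nonneg_right _ hm0'.le
        linarith
      nlinarith
    rw [div_le_div_iff₀ (by positivity) ht0]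
    linarith
  have hsum1 : (B.card : ℝ) * ((n : ℝ) / (96 * B.card)) ^ 2 ≤
      ∑ m ∈ B, ((m : ℝ) / m.totient) ^ 2 := by
    rw [← nsmul_eq_mul, ← Finset.sum_const]
    apply Finset.sum_le_sum
    intro m hm
    exact pow_le_pow_left₀ (by positivity) (key m hm) 2
  have hsum2 : ∑ m ∈ B, ((m : ℝ) / m.totient) ^ 2 ≤
      ∑ m ∈ Icc 1 (2 * n), ((m : ℝ) / m.totient) ^ 2 := by
    apply Finset.sum_le_sum_of_subset_of_nonneg
    · intro m hm
      rw [Finset.mem_Icc]
      exact hrange m hm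
    · intro i _ _
      positivity
  have h3 := hmom (2 * n)
  push_cast at h3
  have h4 : (B.card : ℝ) * ((n : ℝ) / (96 * B.card)) ^ 2 ≤ C * (2 * n) :=
    (hsum1.trans hsum2).trans h3
  have h5 : (B.card : ℝ) * ((n : ℝ) / (96 * B.card)) ^ 2 = (n : ℝ) ^ 2 / (9216 * B.card) := by
    field_simp
    norm_num
  rw [h5, div_le_iff₀ (by positivity)] at h4
  have hn0 : (0 : ℝ) < n := by linarith
  have h6 : (n : ℝ) ≤ 18432 * C * B.card := by
    have : (n : ℝ) * n ≤ (18432 * C * B.card) * n := by nlinarith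
    exact le_of_mul_le_mul_right this hn0
  rw [div_mul_eq_mul_div, one_mul, div_lt_iff₀ (by positivity)]
  have : 0 < C * B.card := by positivity
  nlinarith

end Pool.Agent.LR2
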