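import Mathlib
import Pool.Agent.LR2.Defs
import Pool.Agent.LR2.Cop
import Pool.Agent.LR2.Sec

namespace Pool.Agent.LR2

open Finset

/-- The missing speeds `x` with `2 n < 3 x` and `x ≤ n`. -/
private def emptyL (n : ℕ) (W : Finset ℕ) : Finset ℕ :=
  W.filter (fun x : ℕ => 2 * n < 3 * x ∧ x ≤ n)

/-- The missing speeds larger than `n`. -/
private def emptyH (n : ℕ) (W : Finset ℕ) : Finset ℕ :=
  W.filter (fun x : ℕ => n < x)

/-- The defect set. -/
private def emptyD (n : ℕ) (W : Finset ℕ) : Finset ℕ :=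
  Ioc n (2 * n) \ (emptyH n W ∪ (emptyL n W).image (fun x : ℕ => 2 * x))

private lemma empty_card {n : ℕ} {W : Finset ℕ} (h : Sys n W) :
    (emptyD n W).card = (W.filter (fun x : ℕ => 3 * x ≤ 2 * n)).card := by
  have hsub : emptyH n W ∪ (emptyL n W).image (fun x : ℕ => 2 * x) ⊆ Ioc n (2 * n) := by
    intro x hx
    simp only [emptyH, emptyL, mem_union, mem_image, mem_filter, mem_Ioc] at hx ⊢
    rcases hx with ⟨h1, h2⟩ | ⟨y, ⟨h1, h2, h3⟩, rfl⟩
    · exact ⟨h2, h.le x h1⟩
    · omega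
  have hdisj : Disjoint (emptyH n W) ((emptyL n W).image (fun x : ℕ => 2 * x)) := by
    rw [Finset.disjoint_left]
    intro x hx hy
    simp only [emptyH, emptyL, mem_image, mem_filter] at hx hy
    obtain ⟨y, ⟨h1, h2, h3⟩, rfl⟩ := hy
    exact h.dblHigh y h2 h3 h1 hx.1
  have hL2 : ((emptyL n W).image (fun x : ℕ => 2 * x)).card = (emptyL n W).card :=
    Finset.card_image_of_injective _ (fun a b hab => by simpa using hab)
  have hW : W.card = (W.filter (fun x : ℕ => 3 * x ≤ 2 * n)).card + (emptyL n W).card +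
      (emptyH n W).card := by
    have h1 := Finset.card_filter_add_card_filter_not (s := W) (fun x : ℕ => n < x)
    have h2 := Finset.card_filter_add_card_filter_not
      (s := W.filter (fun x : ℕ => ¬ n < x)) (fun x : ℕ => 3 * x ≤ 2 * n)
    rw [Finset.filter_filter, Finset.filter_filter] at h2
    have e1 : W.filter (fun x : ℕ => ¬ n < x ∧ 3 * x ≤ 2 * n) =
        W.filter (fun x : ℕ => 3 * x ≤ 2 * n) := by
      apply Finset.filter_congr
      intro x hx
      omega
    have e2 : W.filter (fun x : ℕ => ¬ n < x ∧ ¬ 3 * x ≤ 2 * n) = emptyL n W := by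
      apply Finset.filter_congr
      intro x hx
      omega
    rw [e1, e2] at h2
    have e3 : emptyH n W = W.filter (fun x : ℕ => n < x) := rfl
    rw [e3]
    omega
  have hc := h.card
  rw [emptyD, Finset.card_sdiff_of_subset hsub, Finset.card_union_of_disjoint hdisj, hL2,
    Nat.card_Ioc]
  omega

private lemma empty_mem {n x : ℕ} {W : Finset ℕ} (h1 : n < x) (h2 : x ≤ 2 * n) (h3 : x ∉ W)
    (h4 : ∀ y, 2 * n < 3 * y → x ≠ 2 * y) : x ∈ emptyD n W := by
  simp only [emptyD, emptyH, emptyL, mem_sdiff, mem_union, mem_image, mem_filter, mem_Ioc, not_or,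
    not_exists, not_and]
  exact ⟨⟨h1, h2⟩, fun h => absurd h h3, fun y hy hxy => h4 y hy.2.1 hxy.symm⟩

private lemma empty_pairs {n m : ℕ} {W : Finset ℕ} (h : Sys n W) (hm : m ∈ W) (hm3 : 3 * m ≤ 2 * n) :
    ((Ioc n (7 * n / 6)).filter (fun u : ℕ => Nat.Coprime u m ∧ Odd (u + m))).card ≤
      2 * (emptyD n W).card := by
  have hsub : (Ioc n (7 * n / 6)).filter (fun u : ℕ => Nat.Coprime u m ∧ Odd (u + m)) ⊆
      emptyD n W ∪ (emptyD n W).image (fun x : ℕ => x - m) := by
    intro u hu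
    simp only [mem_filter, mem_Ioc] at hu
    obtain ⟨⟨hu1, hu2⟩, hu3, hu4⟩ := hu
    have hu2' : 6 * u ≤ 7 * n := by omega
    rw [mem_union]
    by_cases hD : u ∈ emptyD n W
    · exact Or.inl hD
    · right
      have huW : u ∈ W := by
        by_contra hc
        exact hD (empty_mem hu1 (by omega) hc (fun y hy => by omega))
      rw [mem_image]
      refine ⟨u + m, empty_mem (by omega) (by omega) ?_ ?_, by omega⟩
      · rw [add_comm]
        exact h.tri m u (by omega) hu3.symm (by omega) (by omega)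
          (Or.inr ⟨hu1, Or.inr (by omega)⟩) hm huW
      · intro y hy hxy
        rw [hxy] at hu4
        exact (Nat.not_odd_iff_even.2 (even_two_mul y)) hu4
  have h1 := Finset.card_le_card hsub
  have h2 := Finset.card_union_le (emptyD n W) ((emptyD n W).image (fun x : ℕ => x - m))
  have h3 : ((emptyD n W).image (fun x : ℕ => x - m)).card ≤ (emptyD n W).card :=
    Finset.card_image_le
  omega

private lemma empty_lower (n m : ℕ) (hm : 0 < m) :
    (n : ℝ) / 12 * ((m.totient : ℝ) / m) - 1 - 2 ^ m.primeFactors.card ≤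
      (((Ioc n (7 * n / 6)).filter (fun u : ℕ => Nat.Coprime u m ∧ Odd (u + m))).card : ℝ) := by
  have hφ0 : (0 : ℝ) ≤ (m.totient : ℝ) / m := by positivity
  have hφ1 : (m.totient : ℝ) / m ≤ 1 := by
    rw [div_le_one (by exact_mod_cast hm)]
    exact_mod_cast Nat.totient_le m
  have hn0 : (0 : ℝ) ≤ n := Nat.cast_nonneg n
  rcases Nat.even_or_odd m with he | ho
  · -- `m` even
    have h1 := COP m n (7 * n / 6) hm (by omega)
    have h2 : ((7 * n / 6 : ℕ) : ℝ) ≥ (n : ℝ) + n / 6 - 1 := by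
      have : 7 * n ≤ 6 * (7 * n / 6) + 5 := by omega
      have h' : (7 : ℝ) * n ≤ 6 * ((7 * n / 6 : ℕ) : ℝ) + 5 := by exact_mod_cast this
      linarith
    have h3 : (((Ioc n (7 * n / 6)).filter (fun x : ℕ => Nat.Coprime x m)).card : ℝ) ≤
        (((Ioc n (7 * n / 6)).filter (fun u : ℕ => Nat.Coprime u m ∧ Odd (u + m))).card : ℝ) := by
      norm_cast
      apply Finset.card_le_card
      intro u hu
      simp only [mem_filter] at hu ⊢
      refine ⟨hu.1, hu.2, ?_⟩
      have : Odd u := by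
        by_contra hc
        rw [Nat.not_odd_iff_even] at hc
        have h2 : 2 ∣ Nat.gcd u m := Nat.dvd_gcd hc.two_dvd he.two_dvd
        rw [hu.2] at h2
        omega
      exact this.add_even he
    have h4 : ((n : ℝ) / 6 - 1) * ((m.totient : ℝ) / m) ≤
        (((7 * n / 6 : ℕ) : ℝ) - n) * ((m.totient : ℝ) / m) :=
      mul_le_mul_of_nonneg_right (by linarith) hφ0
    have h5 : 0 ≤ (n : ℝ) / 12 * ((m.totient : ℝ) / m) := by positivity
    nlinarith
  · -- `m` odd
    have h1 := COP m (n / 2) (7 * n / 12) hm (by omega)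
    have h2 : ((7 * n / 12 : ℕ) : ℝ) - ((n / 2 : ℕ) : ℝ) ≥ (n : ℝ) / 12 - 1 := by
      have h7 : 7 * n ≤ 12 * (7 * n / 12) + 11 := by omega
      have h8 : 2 * (n / 2) ≤ n := by omega
      have h7' : (7 : ℝ) * n ≤ 12 * ((7 * n / 12 : ℕ) : ℝ) + 11 := by exact_mod_cast h7
      have h8' : (2 : ℝ) * ((n / 2 : ℕ) : ℝ) ≤ n := by exact_mod_cast h8
      linarith
    have h3 : (((Ioc (n / 2) (7 * n / 12)).filter (fun x : ℕ => Nat.Coprime x m)).card : ℝ) ≤
        (((Ioc n (7 * n / 6)).filter (fun u : ℕ => Nat.Coprime u m ∧ Odd (u + m))).card : ℝ) := by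
      norm_cast
      rw [← Finset.card_image_of_injective _
        (fun a b hab => by simpa using hab : Function.Injective (fun x : ℕ => 2 * x))]
      apply Finset.card_le_card
      intro u hu
      simp only [mem_filter, mem_image, mem_Ioc] at hu ⊢
      obtain ⟨v, ⟨⟨hv1, hv2⟩, hv3⟩, rfl⟩ := hu
      refine ⟨⟨by omega, by omega⟩, ?_, ?_⟩
      · exact Nat.Coprime.mul_left (Nat.coprime_two_left.2 ho) hv3
      · exact (even_two_mul v).add_odd ho
    have h4 : ((n : ℝ) / 12 - 1) * ((m.totient : ℝ) / m) ≤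
        (((7 * n / 12 : ℕ) : ℝ) - ((n / 2 : ℕ) : ℝ)) * ((m.totient : ℝ) / m) :=
      mul_le_mul_of_nonneg_right (by linarith) hφ0
    nlinarith

/-- The case where nearly all missing speeds are larger than `n`. -/
theorem EMPTY : ∃ lam : ℝ, 0 < lam ∧ ∃ n0 : ℕ, ∀ n : ℕ, n0 ≤ n → ∀ W : Finset ℕ, Sys n W →
    ((W.filter (fun x : ℕ => 3 * x ≤ 2 * n)).card : ℝ) ≤ lam * n → False := by
  obtain ⟨lam, hlam, n0, H⟩ := SEC
  refine ⟨lam, hlam, max n0 4, fun n hn W h hX => ?_⟩
  have hn4 : 4 ≤ n := le_trans (le_max_right _ _) hn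
  have hcard := empty_card h
  have hne : (W.filter (fun x : ℕ => 3 * x ≤ 2 * n)).Nonempty := by
    rw [← Finset.card_pos, ← hcard, Finset.card_pos]
    exact ⟨n + 1, empty_mem (by omega) (by omega) h.succ (fun y hy => by omega)⟩
  have := H n (le_trans (le_max_left _ _) hn) _ hne ?_ ?_
  · linarith
  · intro m hm
    rw [mem_filter] at hm
    exact ⟨h.pos m hm.1, h.le m hm.1⟩
  · intro m hm
    rw [mem_filter] at hm
    have h1 := empty_pairs h hm.1 hm.2
    have h2 := empty_lower n m (h.pos m hm.1)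
    have h3 : (((Ioc n (7 * n / 6)).filter
        (fun u : ℕ => Nat.Coprime u m ∧ Odd (u + m))).card : ℝ) ≤ 2 * ((emptyD n W).card : ℝ) := by
      exact_mod_cast h1
    rw [hcard] at h3
    have h4 : (1 : ℝ) ≤ 2 ^ m.primeFactors.card := one_le_pow₀ (by norm_num)
    linarith

end Pool.Agent.LR2
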