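import Mathlib

namespace Pool.Agent.LR2

/-- The periods of a set of integers. -/
def finPer (C : ℤ → Prop) : AddSubgroup ℤ where
  carrier := {d | ∀ c, C (c + d) ↔ C c}
  zero_mem' := fun c => by rw [add_zero]
  add_mem' := fun {a b} ha hb c => by
    rw [← add_assoc, hb, ha]
  neg_mem' := fun {a} ha c => by
    rw [← ha (c + -a), neg_add_cancel_right]

lemma mem_finPer {C : ℤ → Prop} {d : ℤ} : d ∈ finPer C ↔ ∀ c, C (c + d) ↔ C c := Iff.rfl

/-- A choice of `u` by the Chinese remainder theorem. -/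
lemma fin_crt (M : ℕ) (w : ℤ)
    (hU : ∀ p : ℕ, p.Prime → p ∣ M → ¬ (p : ℤ) ∣ w) (hM : M ≠ 0) (hw2 : Odd w) :
    ∃ u : ℤ, ∀ p : ℕ, p.Prime → p ∣ M → ¬ (p : ℤ) ∣ u ∧ ¬ (p : ℤ) ∣ w - 2 * u ∧
      ¬ (p : ℤ) ∣ u + 6 ∧ ¬ (p : ℤ) ∣ w - 2 * (u + 6) := by
  have loc : ∀ p : ℕ, ∃ a : ℕ, p.Prime → p ∣ M → ¬ (p : ℤ) ∣ (a : ℤ) ∧ ¬ (p : ℤ) ∣ w - 2 * a ∧
      ¬ (p : ℤ) ∣ (a : ℤ) + 6 ∧ ¬ (p : ℤ) ∣ w - 2 * ((a : ℤ) + 6) := by
    intro p
    by_cases hp : p.Prime
    swap
    · exact ⟨0, fun h => absurd h hp⟩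
    by_cases hpM : p ∣ M
    swap
    · exact ⟨0, fun _ h => absurd h hpM⟩
    have hw := hU p hp hpM
    by_cases h2 : p = 2
    · subst h2
      refine ⟨1, fun _ _ => ?_⟩
      obtain ⟨k, hk⟩ := hw2
      refine ⟨?_, ?_, ?_, ?_⟩ <;> rintro ⟨t, ht⟩ <;> push_cast at ht <;> omega
    by_cases h3 : p = 3
    · subst h3
      refine ⟨(w % 3).toNat, fun _ _ => ?_⟩
      have h0 : 0 ≤ w % 3 := Int.emod_nonneg _ (by norm_num)
      rw [Int.toNat_of_nonneg h0]
      push_cast at hw ⊢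
      refine ⟨?_, ?_, ?_, ?_⟩ <;> omega
    have h5 : 5 ≤ p := by
      have := hp.two_le
      by_contra hlt
      have h4 : p = 4 := by omega
      subst h4
      exact absurd hp (by norm_num)
    have : Fact p.Prime := ⟨hp⟩
    -- four forbidden classes
    have h20 : (2 : ZMod p) ≠ 0 := by
      intro h
      have h' : ((2 : ℕ) : ZMod p) = 0 := by exact_mod_cast h
      rw [ZMod.natCast_eq_zero_iff] at h'
      have := Nat.le_of_dvd (by norm_num) h'
      omega
    obtain ⟨a, ha⟩ : ∃ a : ZMod p, a ∉ ({0, -6, (w : ZMod p) / 2, (w : ZMod p) / 2 - 6} : Finset (ZMod p)) := by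
      by_contra hcon
      push Not at hcon
      have hsub : (Finset.univ : Finset (ZMod p)) ⊆
          ({0, -6, (w : ZMod p) / 2, (w : ZMod p) / 2 - 6} : Finset (ZMod p)) :=
        fun a _ => hcon a
      have hc := Finset.card_le_card hsub
      rw [Finset.card_univ, ZMod.card] at hc
      have : ({0, -6, (w : ZMod p) / 2, (w : ZMod p) / 2 - 6} : Finset (ZMod p)).card ≤ 4 :=
        Finset.card_le_four
      omega
    simp only [Finset.mem_insert, Finset.mem_singleton, not_or] at ha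
    obtain ⟨a1, a2, a3, a4⟩ := ha
    refine ⟨a.val, fun _ _ => ?_⟩
    have hval : ((a.val : ℕ) : ZMod p) = a := ZMod.natCast_zmod_val a
    refine ⟨?_, ?_, ?_, ?_⟩
    · intro h
      rw [← ZMod.intCast_zmod_eq_zero_iff_dvd _ p] at h
      push_cast at h
      rw [hval] at h
      exact a1 h
    · intro h
      rw [← ZMod.intCast_zmod_eq_zero_iff_dvd _ p] at h
      push_cast at h
      rw [hval] at h
      apply a3
      rw [eq_div_iff h20]
      linear_combination -h
    · intro h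
      rw [← ZMod.intCast_zmod_eq_zero_iff_dvd _ p] at h
      push_cast at h
      rw [hval] at h
      apply a2
      linear_combination h
    · intro h
      rw [← ZMod.intCast_zmod_eq_zero_iff_dvd _ p] at h
      push_cast at h
      rw [hval] at h
      apply a4
      have h' : a + 6 = (w : ZMod p) / 2 := by
        rw [eq_div_iff h20]
        linear_combination -h
      linear_combination h'
  choose a ha using loc
  obtain ⟨k, hk⟩ := Nat.chineseRemainderOfFinset a (fun p : ℕ => p) M.primeFactors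
    (fun p hp => (Nat.prime_of_mem_primeFactors hp).ne_zero)
    (fun p hp q hq hpq => (Nat.coprime_primes (Nat.prime_of_mem_primeFactors hp)
      (Nat.prime_of_mem_primeFactors hq)).2 hpq)
  refine ⟨(k : ℤ), fun p hp hpM => ?_⟩
  have hkp : k ≡ a p [MOD p] := hk p (Nat.mem_primeFactors.2 ⟨hp, hpM, hM⟩)
  have hkz : (k : ℤ) ≡ (a p : ℤ) [ZMOD p] := (Int.natCast_modEq_iff).2 hkp
  obtain ⟨t, ht⟩ := hkz.dvd
  obtain ⟨b1, b2, b3, b4⟩ := ha p hp hpM
  have hkt : (k : ℤ) = a p - p * t := by linarith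
  refine ⟨?_, ?_, ?_, ?_⟩
  · rintro ⟨s, hs⟩
    exact b1 ⟨s + t, by rw [mul_add, ← hs, hkt]; ring⟩
  · rintro ⟨s, hs⟩
    exact b2 ⟨s - 2 * t, by rw [mul_sub, ← hs, hkt]; ring⟩
  · rintro ⟨s, hs⟩
    exact b3 ⟨s + t, by rw [mul_add, ← hs, hkt]; ring⟩
  · rintro ⟨s, hs⟩
    exact b4 ⟨s - 2 * t, by rw [mul_sub, ← hs, hkt]; ring⟩

/-- The finite analysis of the set of classes modulo `M`. -/
theorem FIN (M : ℕ) (hM : 0 < M) (h6 : 6 ∣ M) (w : ℤ) (hw : IsCoprime w (M : ℤ)) (C : ℤ → Prop)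
    (hper : ∀ c d : ℤ, c ≡ d [ZMOD M] → (C c ↔ C d)) (R0 : ¬ C 0) (R1 : ∀ c, C c → ¬ C (2 * c))
    (R2 : ∀ c, C c → C (w - 2 * c))
    (R3 : ∀ c c', C c → ¬ C c' → (∀ p : ℕ, p.Prime → p ∣ M → (p : ℤ) ∣ c → ¬ (p : ℤ) ∣ w - c') →
      C (c' - c)) : (∀ c, ¬ C c) ∨ (∀ c, C c ↔ Odd c) := by
  have hU : ∀ p : ℕ, p.Prime → p ∣ M → ¬ (p : ℤ) ∣ w := by
    intro p hp hpM hpw
    have h1 : IsUnit (p : ℤ) := hw.isUnit_of_dvd' hpw (Int.natCast_dvd_natCast.2 hpM)
    exact hp.one_lt.ne' (by simpa using Int.isUnit_iff_natAbs_eq.1 h1)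
  have h2w : ¬ (2 : ℤ) ∣ w := by
    have := hU 2 Nat.prime_two ((by norm_num : (2 : ℕ) ∣ 6).trans h6)
    exact_mod_cast this
  have h3w : ¬ (3 : ℤ) ∣ w := by
    have := hU 3 Nat.prime_three ((by norm_num : (3 : ℕ) ∣ 6).trans h6)
    exact_mod_cast this
  have hwodd : Odd w := by
    rw [← Int.not_even_iff_odd, even_iff_two_dvd]
    exact h2w
  have neg : ∀ c, C c → C (-c) := by
    intro c hc
    have := R3 c 0 hc R0 (fun p hp hpM _ => by rw [sub_zero]; exact hU p hp hpM)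
    rwa [zero_sub] at this
  have sh : ∀ c', ¬ C c' → (∀ p : ℕ, p.Prime → p ∣ M → ¬ (p : ℤ) ∣ w - c') →
      ∀ c, C c → C (c - c') := by
    intro c' h1 h2 c hc
    have := neg _ (R3 c c' hc h1 (fun p hp hpM _ => h2 p hp hpM))
    rwa [neg_sub] at this
  have iter : ∀ d : ℤ, (∀ c, C c → C (c - d)) → ∀ k : ℕ, ∀ c, C c → C (c - k * d) := by
    intro d hd k
    induction k with
    | zero => intro c hc; simpa using hc
    | succ k ih =>
      intro c hc
      have := hd _ (ih c hc)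
      have h : c - (k : ℤ) * d - d = c - ((k + 1 : ℕ) : ℤ) * d := by push_cast; ring
      rwa [h] at this
  have perOf : ∀ d : ℤ, (∀ c, C c → C (c - d)) → d ∈ finPer C := by
    intro d hd
    rw [mem_finPer]
    intro c
    constructor
    · intro h
      have := hd _ h
      rwa [add_sub_cancel_right] at this
    · intro h
      have := iter d hd (M - 1) c h
      rw [hper (c - ((M - 1 : ℕ) : ℤ) * d) (c + d)] at this
      · exact this
      · rw [Int.modEq_iff_dvd]
        refine ⟨d, ?_⟩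
        rw [Nat.cast_sub hM]
        push_cast
        ring
  have star : ∀ c', ¬ C c' → (∀ p : ℕ, p.Prime → p ∣ M → ¬ (p : ℤ) ∣ w - c') → c' ∈ finPer C :=
    fun c' h1 h2 => perOf c' (sh c' h1 h2)
  have Mper : (M : ℤ) ∈ finPer C := by
    rw [mem_finPer]
    intro c
    exact hper _ _ (by rw [Int.modEq_iff_dvd]; exact ⟨-1, by ring⟩)
  -- the class of `w`
  have L : C w → ∀ c, C c ↔ Odd c := by
    intro hCw
    have h1 : ¬ C (2 * w) := R1 w hCw
    have h2 : 2 * w ∈ finPer C := by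
      apply star _ h1
      intro p hp hpM hd
      apply hU p hp hpM
      have : w - 2 * w = -w := by ring
      rw [this, dvd_neg] at hd
      exact hd
    obtain ⟨a, b, hab⟩ := hw
    have h3 : (2 : ℤ) ∈ finPer C := by
      have e : (2 : ℤ) = a • (2 * w) + (2 * b) • (M : ℤ) := by
        rw [smul_eq_mul, smul_eq_mul]
        linear_combination -2 * hab
      rw [e]
      exact add_mem (zsmul_mem h2 _) (zsmul_mem Mper _)
    intro c
    have even : ∀ k : ℤ, k * 2 ∈ finPer C := by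
      intro k
      have := zsmul_mem h3 k
      rwa [smul_eq_mul] at this
    constructor
    · intro hc
      rw [← Int.not_even_iff_odd]
      rintro ⟨k, hk⟩
      apply R0
      have := (mem_finPer.1 (even k)) 0
      rw [← this]
      rw [zero_add, show k * 2 = c by rw [hk]; ring]
      exact hc
    · rintro ⟨k, hk⟩
      obtain ⟨l, hl⟩ := hwodd
      have := (mem_finPer.1 (even (k - l))) w
      rw [show w + (k - l) * 2 = c by rw [hk, hl]; ring] at this
      exact this.2 hCw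
  by_cases hA : ∃ u : ℤ, (∀ p : ℕ, p.Prime → p ∣ M → ¬ (p : ℤ) ∣ u) ∧
      (∀ p : ℕ, p.Prime → p ∣ M → ¬ (p : ℤ) ∣ w - 2 * u) ∧ C (w - u)
  · obtain ⟨u, _, hu2, hu3⟩ := hA
    right
    apply L
    have h1 : ¬ C (2 * (w - u)) := R1 _ hu3
    have h2 : C (w - 2 * u) := by
      have := neg _ (R2 _ hu3)
      rwa [show -(w - 2 * (w - u)) = w - 2 * u by ring] at this
    have h3 := R3 (w - 2 * u) (2 * (w - u)) h2 h1 (fun p hp hpM hd => absurd hd (hu2 p hp hpM))
    rwa [show 2 * (w - u) - (w - 2 * u) = w by ring] at h3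
  · have hB : ∀ u : ℤ, (∀ p : ℕ, p.Prime → p ∣ M → ¬ (p : ℤ) ∣ u) →
        (∀ p : ℕ, p.Prime → p ∣ M → ¬ (p : ℤ) ∣ w - 2 * u) → w - u ∈ finPer C := by
      intro u h1 h2
      apply star
      · intro h3
        exact hA ⟨u, h1, h2, h3⟩
      · intro p hp hpM hd
        rw [sub_sub_cancel] at hd
        exact h1 p hp hpM hd
    obtain ⟨u, hu⟩ := fin_crt M w hU hM.ne' hwodd
    have p6 : (6 : ℤ) ∈ finPer C := by
      have a1 := hB u (fun p hp hpM => (hu p hp hpM).1) (fun p hp hpM => (hu p hp hpM).2.1)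
      have a2 := hB (u + 6) (fun p hp hpM => (hu p hp hpM).2.2.1)
        (fun p hp hpM => (hu p hp hpM).2.2.2)
      have := sub_mem a1 a2
      rwa [show w - u - (w - (u + 6)) = 6 by ring] at this
    have mod6 : ∀ c k : ℤ, C (c + k * 6) ↔ C c := by
      intro c k
      have := zsmul_mem p6 k
      rw [smul_eq_mul] at this
      exact mem_finPer.1 this c
    by_cases hCw : C w
    · exact Or.inr (L hCw)
    · left
      -- the classes `1` and `5`
      have h15 : ¬ C 1 ∧ ¬ C 5 := by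
        have hw6 : ∃ k : ℤ, w = 1 + k * 6 ∨ w = 5 + k * 6 := by
          refine ⟨w / 6, ?_⟩
          omega
        obtain ⟨k, hk | hk⟩ := hw6
        · rw [hk, mod6] at hCw
          refine ⟨hCw, fun h5 => hCw ?_⟩
          have := neg _ h5
          rwa [show (-5 : ℤ) = 1 + (-1) * 6 by norm_num, mod6] at this
        · rw [hk, mod6] at hCw
          refine ⟨fun h1 => hCw ?_, hCw⟩
          have := neg _ h1
          rwa [show (-1 : ℤ) = 5 + (-1) * 6 by norm_num, mod6] at this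
      have h2 : ¬ C 2 := by
        intro h
        have h4 := R1 2 h
        apply h4
        have := neg _ h
        rwa [show (-2 : ℤ) = 2 * 2 + (-1) * 6 by norm_num, mod6] at this
      have h4 : ¬ C 4 := by
        intro h
        apply h2
        have := neg _ h
        rwa [show (-4 : ℤ) = 2 + (-1) * 6 by norm_num, mod6] at this
      have h3 : ¬ C 3 := by
        intro h
        apply hCw
        have := R2 _ h
        rwa [show w - 2 * 3 = w + (-1) * 6 by ring, mod6] at this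
      intro c hc
      have hcases : ∃ k : ℤ, c = 0 + k * 6 ∨ c = 1 + k * 6 ∨ c = 2 + k * 6 ∨ c = 3 + k * 6 ∨
          c = 4 + k * 6 ∨ c = 5 + k * 6 := ⟨c / 6, by omega⟩
      obtain ⟨k, hk | hk | hk | hk | hk | hk⟩ := hcases
      · rw [hk, mod6] at hc; exact R0 hc
      · rw [hk, mod6] at hc; exact h15.1 hc
      · rw [hk, mod6] at hc; exact h2 hc
      · rw [hk, mod6] at hc; exact h3 hc
      · rw [hk, mod6] at hc; exact h4 hc
      · rw [hk, mod6] at hc; exact h15.2 hc

end Pool.Agent.LR2
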