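import Mathlib
import Pool.Agent.LR2.Defs
import Pool.Agent.LR2.Cls

namespace Pool.Agent.LR2

open Finset

/-- Sum of the inverse squares of integers larger than `q`. -/
private lemma GOOD_sq (q : ℕ) (hq : 0 < q) (N : ℕ) :
    ∑ k ∈ Ioc q (q + N), (1 : ℝ) / ((k : ℝ) * k) ≤ 1 / q - 1 / (q + N : ℕ) := by
  induction N with
  | zero => simp
  | succ N ih =>
    have hq' : (0 : ℝ) < q := by exact_mod_cast hq
    rw [← Nat.add_assoc, Finset.sum_Ioc_succ_top (by omega)]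
    have h1 : (1 : ℝ) / (((q + N + 1 : ℕ) : ℝ) * ((q + N + 1 : ℕ) : ℝ)) ≤
        1 / ((q + N : ℕ) : ℝ) - 1 / ((q + N + 1 : ℕ) : ℝ) := by
      push_cast
      have h2 : (0 : ℝ) < (q : ℝ) + N := by positivity
      rw [div_sub_div _ _ (by positivity) (by positivity), div_le_div_iff₀ (by positivity) (by positivity)]
      nlinarith
    linarith

private lemma GOOD_primes_sq (q : ℕ) (hq : 0 < q) (A : Finset ℕ) (hA : ∀ p ∈ A, q < p) :
    ∑ p ∈ A, (1 : ℝ) / ((p : ℝ) * p) ≤ 1 / q := by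
  have hsub : A ⊆ Ioc q (q + A.sup id) := by
    intro p hp
    rw [mem_Ioc]
    have : p ≤ A.sup id := Finset.le_sup (f := id) hp
    exact ⟨hA p hp, by omega⟩
  calc ∑ p ∈ A, (1 : ℝ) / ((p : ℝ) * p) ≤ ∑ p ∈ Ioc q (q + A.sup id), (1 : ℝ) / ((p : ℝ) * p) :=
        Finset.sum_le_sum_of_subset_of_nonneg hsub (fun i _ _ => by positivity)
    _ ≤ 1 / q - 1 / (q + A.sup id : ℕ) := GOOD_sq q hq _
    _ ≤ 1 / q := by
        have : (0 : ℝ) ≤ 1 / ((q + A.sup id : ℕ) : ℝ) := by positivity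
        linarith

private lemma GOOD_harm (N : ℕ) (A : Finset ℕ) (hA : ∀ p ∈ A, 1 ≤ p ∧ p ≤ N) :
    ∑ p ∈ A, (1 : ℝ) / p ≤ 1 + Real.log N := by
  have hsub : A ⊆ Icc 1 N := fun p hp => mem_Icc.2 (hA p hp)
  calc ∑ p ∈ A, (1 : ℝ) / p ≤ ∑ p ∈ Icc 1 N, (1 : ℝ) / p :=
        Finset.sum_le_sum_of_subset_of_nonneg hsub (fun i _ _ => by positivity)
    _ = ((harmonic N : ℚ) : ℝ) := by
        rw [harmonic_eq_sum_Icc]
        push_cast
        exact Finset.sum_congr rfl fun i _ => by rw [one_div]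
    _ ≤ 1 + Real.log N := harmonic_le_one_add_log N

/-- The numbers of a class modulo `M` which are congruent to `a` modulo a prime not dividing `M`. -/
private lemma GOOD_class (M l n : ℕ) (c a : ℤ) (hM : 0 < M) (hl : l.Prime) (hlM : ¬ l ∣ M)
    (S : Finset ℕ) (hS : ∀ r ∈ S, (1 ≤ r ∧ r ≤ n) ∧ (r : ℤ) ≡ c [ZMOD M] ∧ (r : ℤ) ≡ a [ZMOD l]) :
    (S.card : ℝ) ≤ n / (M * l) + 1 := by
  have hc : Nat.Coprime M l := ((Nat.Prime.coprime_iff_not_dvd hl).2 hlM).symm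
  have := CLS_congr n (M * l) (Nat.mul_pos hM hl.pos) S (fun x hx => (hS x hx).1) (by
    intro x hx y hy
    have h1 : (x : ℤ) ≡ y [ZMOD M] := (hS x hx).2.1.trans (hS y hy).2.1.symm
    have h2 : (x : ℤ) ≡ y [ZMOD l] := (hS x hx).2.2.trans (hS y hy).2.2.symm
    have h3 := (Int.modEq_and_modEq_iff_modEq_mul (a := (x : ℤ)) (b := y) (m := (M : ℤ)) (n := (l : ℤ))
      (by simpa using hc)).1 ⟨h1, h2⟩
    exact_mod_cast h3)
  simpa using this

/-- For most `r` in a class modulo `M`, the number `w - r` has few large prime factors. -/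
theorem GOOD (M q n w : ℕ) (c : ℤ) (hM : 0 < M) (hq : 0 < q) (hMq : ∀ p : ℕ, p.Prime → p ∣ M → p ≤ q)
    (hw : w ≤ 2 * n + 1) {δ : ℝ} (hδ : 0 < δ) :
    (((Icc 1 n).filter (fun r : ℕ => (r : ℤ) ≡ c [ZMOD M] ∧ r < w ∧ δ < rsum q (w - r))).card : ℝ) ≤
      (1 / δ) * ((n : ℝ) / (M * q) + Real.log (2 * n + 1) + 1) := by
  classical
  set S := (Icc 1 n).filter (fun r : ℕ => (r : ℤ) ≡ c [ZMOD M] ∧ r < w ∧ δ < rsum q (w - r)) with hSdef
  set P := (Icc 1 (2 * n + 1)).filter (fun p : ℕ => p.Prime ∧ q < p) with hPdef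
  have hM' : (0 : ℝ) < M := by exact_mod_cast hM
  have hmem : ∀ r ∈ S, (1 ≤ r ∧ r ≤ n) ∧ (r : ℤ) ≡ c [ZMOD M] ∧ r < w ∧ δ < rsum q (w - r) := by
    intro r hr
    have := (mem_filter.1 hr)
    exact ⟨mem_Icc.1 this.1, this.2⟩
  have h1 : δ * (S.card : ℝ) ≤ ∑ r ∈ S, rsum q (w - r) := by
    calc δ * (S.card : ℝ) = ∑ _r ∈ S, δ := by rw [Finset.sum_const, nsmul_eq_mul]; ring
      _ ≤ ∑ r ∈ S, rsum q (w - r) := Finset.sum_le_sum fun r hr => (hmem r hr).2.2.2.le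
  have h2 : ∑ r ∈ S, rsum q (w - r) ≤
      ∑ r ∈ S, ∑ p ∈ P, if p ∣ w - r then (1 : ℝ) / p else 0 := by
    refine Finset.sum_le_sum fun r hr => ?_
    rw [← Finset.sum_filter]
    unfold rsum
    refine Finset.sum_le_sum_of_subset_of_nonneg ?_ (fun i _ _ => by positivity)
    intro p hp
    obtain ⟨hp1, hp2⟩ := mem_filter.1 hp
    have hpp := Nat.prime_of_mem_primeFactors hp1
    have hpd := Nat.dvd_of_mem_primeFactors hp1
    have hwr : 0 < w - r := Nat.sub_pos_of_lt (hmem r hr).2.2.1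
    have hle : p ≤ w - r := Nat.le_of_dvd hwr hpd
    refine mem_filter.2 ⟨mem_filter.2 ⟨mem_Icc.2 ⟨hpp.one_le, by omega⟩, hpp, hp2⟩, hpd⟩
  have h3 : ∑ r ∈ S, (∑ p ∈ P, if p ∣ w - r then (1 : ℝ) / p else 0) =
      ∑ p ∈ P, (1 / (p : ℝ)) * ((S.filter (fun r => p ∣ w - r)).card : ℝ) := by
    rw [Finset.sum_comm]
    refine Finset.sum_congr rfl fun p _ => ?_
    rw [← Finset.sum_filter, Finset.sum_const, nsmul_eq_mul, mul_comm]
  have h4 : ∀ p ∈ P, (1 / (p : ℝ)) * ((S.filter (fun r => p ∣ w - r)).card : ℝ) ≤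
      (n / M) * (1 / ((p : ℝ) * p)) + 1 / p := by
    intro p hp
    obtain ⟨hp1, hpp, hqp⟩ := mem_filter.1 hp
    have hp0 : (0 : ℝ) < p := by exact_mod_cast hpp.pos
    have hlM : ¬ p ∣ M := fun hd => absurd (hMq p hpp hd) (by omega)
    have hcl := GOOD_class M p n c w hM hpp hlM (S.filter (fun r => p ∣ w - r)) (by
      intro r hr
      obtain ⟨hr1, hr2⟩ := mem_filter.1 hr
      refine ⟨(hmem r hr1).1, (hmem r hr1).2.1, ?_⟩
      have hlt := (hmem r hr1).2.2.1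
      have : ((p : ℕ) : ℤ) ∣ ((w - r : ℕ) : ℤ) := by exact_mod_cast hr2
      rw [Nat.cast_sub hlt.le] at this
      exact (Int.modEq_iff_dvd.2 this))
    calc (1 / (p : ℝ)) * ((S.filter (fun r => p ∣ w - r)).card : ℝ)
        ≤ (1 / (p : ℝ)) * (n / (M * p) + 1) := mul_le_mul_of_nonneg_left hcl (by positivity)
      _ = (n / M) * (1 / ((p : ℝ) * p)) + 1 / p := by
          field_simp
  have h5 : ∑ p ∈ P, ((n / M : ℝ) * (1 / ((p : ℝ) * p)) + 1 / p) ≤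
      (n : ℝ) / (M * q) + Real.log (2 * n + 1) + 1 := by
    rw [Finset.sum_add_distrib, ← Finset.mul_sum]
    have ha : ∑ p ∈ P, (1 : ℝ) / ((p : ℝ) * p) ≤ 1 / q :=
      GOOD_primes_sq q hq P fun p hp => (mem_filter.1 hp).2.2
    have hb : ∑ p ∈ P, (1 : ℝ) / p ≤ 1 + Real.log ((2 * n + 1 : ℕ) : ℝ) :=
      GOOD_harm (2 * n + 1) P fun p hp => mem_Icc.1 (mem_filter.1 hp).1
    push_cast at hb
    have hc : (n / M : ℝ) * ∑ p ∈ P, (1 : ℝ) / ((p : ℝ) * p) ≤ (n / M : ℝ) * (1 / q) :=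
      mul_le_mul_of_nonneg_left ha (by positivity)
    have hd : (n / M : ℝ) * (1 / q) = (n : ℝ) / (M * q) := by
      rw [div_mul_div_comm, mul_one]
    linarith
  have h6 : δ * (S.card : ℝ) ≤ (n : ℝ) / (M * q) + Real.log (2 * n + 1) + 1 := by
    calc δ * (S.card : ℝ) ≤ _ := h1
      _ ≤ _ := h2
      _ = _ := h3
      _ ≤ _ := Finset.sum_le_sum h4
      _ ≤ _ := h5
  rw [one_div, ← div_eq_inv_mul, le_div_iff₀ hδ, mul_comm]
  exact h6

/-- In a class modulo `M` few numbers have a common prime factor larger than `q` with `v`. -/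
theorem COPC (M q n v : ℕ) (c : ℤ) (hM : 0 < M) (hMq : ∀ p : ℕ, p.Prime → p ∣ M → p ≤ q)
    (hv : 0 < v) :
    (((Icc 1 n).filter (fun p : ℕ => (p : ℤ) ≡ c [ZMOD M] ∧
      ∃ l ∈ v.primeFactors, q < l ∧ l ∣ p)).card : ℝ) ≤
      rsum q v * (n / M) + Nat.log 2 v := by
  classical
  set L := v.primeFactors.filter (fun p : ℕ => q < p) with hL
  set S := (Icc 1 n).filter (fun p : ℕ => (p : ℤ) ≡ c [ZMOD M] ∧
      ∃ l ∈ v.primeFactors, q < l ∧ l ∣ p) with hS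
  have hM' : (0 : ℝ) < M := by exact_mod_cast hM
  have hsub : S ⊆ L.biUnion (fun l => (Icc 1 n).filter (fun p : ℕ => (p : ℤ) ≡ c [ZMOD M] ∧ l ∣ p)) := by
    intro p hp
    obtain ⟨hp1, hp2, l, hl, hql, hlp⟩ := mem_filter.1 hp
    exact mem_biUnion.2 ⟨l, mem_filter.2 ⟨hl, hql⟩, mem_filter.2 ⟨hp1, hp2, hlp⟩⟩
  have h1 : (S.card : ℝ) ≤ ∑ l ∈ L, (((Icc 1 n).filter (fun p : ℕ => (p : ℤ) ≡ c [ZMOD M] ∧ l ∣ p)).card : ℝ) := by
    have := (Finset.card_le_card hsub).trans Finset.card_biUnion_le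
    exact_mod_cast this
  have h2 : ∀ l ∈ L, (((Icc 1 n).filter (fun p : ℕ => (p : ℤ) ≡ c [ZMOD M] ∧ l ∣ p)).card : ℝ) ≤
      (1 / (l : ℝ)) * (n / M) + 1 := by
    intro l hl
    obtain ⟨hl1, hql⟩ := mem_filter.1 hl
    have hlp := Nat.prime_of_mem_primeFactors hl1
    have hl0 : (0 : ℝ) < l := by exact_mod_cast hlp.pos
    have hlM : ¬ l ∣ M := fun hd => absurd (hMq l hlp hd) (by omega)
    have := GOOD_class M l n c 0 hM hlp hlM
      ((Icc 1 n).filter (fun p : ℕ => (p : ℤ) ≡ c [ZMOD M] ∧ l ∣ p)) (by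
        intro r hr
        obtain ⟨hr1, hr2, hr3⟩ := mem_filter.1 hr
        refine ⟨mem_Icc.1 hr1, hr2, ?_⟩
        exact (Int.modEq_zero_iff_dvd.2 (by exact_mod_cast hr3)))
    calc (((Icc 1 n).filter (fun p : ℕ => (p : ℤ) ≡ c [ZMOD M] ∧ l ∣ p)).card : ℝ)
        ≤ n / (M * l) + 1 := this
      _ = (1 / (l : ℝ)) * (n / M) + 1 := by
          field_simp
  have h3 : ∑ l ∈ L, ((1 / (l : ℝ)) * (n / M) + 1) = rsum q v * (n / M) + (L.card : ℝ) := by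
    rw [Finset.sum_add_distrib, ← Finset.sum_mul, Finset.sum_const, nsmul_eq_mul, mul_one]
    rfl
  have h4 : L.card ≤ Nat.log 2 v := by
    refine Nat.le_log_of_pow_le (by norm_num) ?_
    calc 2 ^ L.card ≤ 2 ^ v.primeFactors.card :=
          Nat.pow_le_pow_right (by norm_num) (Finset.card_le_card (Finset.filter_subset _ _))
      _ ≤ ∏ p ∈ v.primeFactors, p := by
          rw [← Finset.prod_const]
          exact Finset.prod_le_prod' fun p hp => (Nat.prime_of_mem_primeFactors hp).two_le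
      _ ≤ v := Nat.le_of_dvd hv (Nat.prod_primeFactors_dvd v)
  have h4' : (L.card : ℝ) ≤ Nat.log 2 v := by exact_mod_cast h4
  calc (S.card : ℝ) ≤ _ := h1
    _ ≤ _ := Finset.sum_le_sum h2
    _ = _ := h3
    _ ≤ _ := by linarith

end Pool.Agent.LR2
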