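import Mathlib
import Pool.Agent.LR2.Defs
import Pool.Agent.LR2.Cls

namespace Pool.Agent.LR2

open Finset

lemma MAIN_log {κ : ℝ} (hκ : 0 < κ) : ∃ N : ℕ, ∀ n : ℕ, N ≤ n →
    (Nat.log 2 (2 * n + 1) : ℝ) ≤ κ * n ∧ Real.log (2 * n + 1) + 1 ≤ κ * n := by
  have h1 : Filter.Tendsto (fun x : ℝ => Real.log x / x) Filter.atTop (nhds 0) := by
    have := Real.tendsto_pow_log_div_mul_add_atTop 1 0 1 one_ne_zero
    simpa using this
  have h2 : ∀ᶠ x : ℝ in Filter.atTop, Real.log x / x < κ / 12 :=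
    (tendsto_order.1 h1).2 _ (by positivity)
  obtain ⟨X, hX⟩ := Filter.eventually_atTop.1 h2
  refine ⟨⌈X⌉₊ + ⌈2 / κ⌉₊ + 1, fun n hn => ?_⟩
  have hnX : X ≤ n := (Nat.le_ceil X).trans (by exact_mod_cast (by omega : ⌈X⌉₊ ≤ n))
  have hnκ : 2 / κ ≤ n := (Nat.le_ceil _).trans (by exact_mod_cast (by omega : ⌈2 / κ⌉₊ ≤ n))
  have hn1 : (1 : ℝ) ≤ n := by exact_mod_cast (by omega : 1 ≤ n)
  have hx : X ≤ 2 * (n : ℝ) + 1 := by linarith
  have h3 := hX _ hx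
  have hpos : (0 : ℝ) < 2 * n + 1 := by linarith
  rw [div_lt_iff₀ hpos] at h3
  have h4 : 2 ≤ κ * n := by
    rw [div_le_iff₀ hκ] at hnκ
    linarith
  have h5 : Real.log (2 * n + 1) ≤ κ / 4 * n := by nlinarith
  constructor
  · have hl2 : (1 / 2 : ℝ) ≤ Real.log 2 := by
      have := Real.log_two_gt_d9
      linarith
    have h6 : (Nat.log 2 (2 * n + 1) : ℝ) * Real.log 2 ≤ Real.log (2 * n + 1) := by
      have h7 : (2 : ℝ) ^ (Nat.log 2 (2 * n + 1)) ≤ 2 * n + 1 := by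
        exact_mod_cast Nat.pow_log_le_self 2 (by omega : 2 * n + 1 ≠ 0)
      have h8 := Real.log_le_log (by positivity) h7
      rwa [Real.log_pow] at h8
    have h9 : (0 : ℝ) ≤ Nat.log 2 (2 * n + 1) := by positivity
    nlinarith
  · nlinarith

/-- The constants of the proof. -/
structure Par (lam s β δ ε κ : ℝ) (j q M : ℕ) : Prop where
  s0 : 0 < s
  slam : s = lam / 1000
  s1 : s ≤ 1 / 1000
  β0 : 0 < β
  βlam : β = lam / 1000
  β1 : β ≤ 1 / 1000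
  je : Even j
  j840 : 840 ≤ j
  sj : 1 ≤ s * j
  δ0 : 0 < δ
  δβ : δ = β / 100
  δ1 : δ ≤ 1 / 100
  qj : 2 * (j : ℝ) / s ≤ q
  qs : 32 / (s * δ) ≤ q
  M0 : 0 < M
  Mdef : M = j * q.factorial
  Mq : ∀ p : ℕ, p.Prime → (p ∣ M ↔ p ≤ q)
  M6 : 6 ∣ M
  M2 : 2 ∣ M
  ε0 : 0 < ε
  ε100 : ε ≤ 1 / 100
  εs : ε < s
  εj : 2 * ε * j < s
  εq : ε * q < 1
  εM : ε * M ≤ s * β / 10000
  εMY : (1 + 24 * j / s) * (ε * M) = s * β / 10000
  κ0 : 0 < κ
  κdef : κ * M = s * β * δ / 100000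
  q0 : 0 < q

lemma MAIN_par {lam : ℝ} (hlam : 0 < lam) (hlam3 : lam ≤ 1) :
    ∃ (s β δ ε κ : ℝ) (j q M : ℕ), Par lam s β δ ε κ j q M := by
  obtain ⟨s, hs, hsl⟩ : ∃ s : ℝ, 0 < s ∧ s = lam / 1000 := ⟨lam / 1000, by positivity, rfl⟩
  have hs1 : s ≤ 1 / 1000 := by linarith
  obtain ⟨β, hβ, hβl⟩ : ∃ β : ℝ, 0 < β ∧ β = lam / 1000 := ⟨lam / 1000, by positivity, rfl⟩
  have hβ1 : β ≤ 1 / 1000 := by linarith
  obtain ⟨j, hje, hj840, hsj⟩ : ∃ j : ℕ, Even j ∧ 840 ≤ j ∧ 1 ≤ s * j := by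
    refine ⟨2 * (420 + ⌈1 / s⌉₊), even_two_mul _, by omega, ?_⟩
    have := Nat.le_ceil (1 / s)
    rw [div_le_iff₀ hs] at this
    push_cast
    nlinarith
  obtain ⟨δ, hδ, hδβ⟩ : ∃ δ : ℝ, 0 < δ ∧ δ = β / 100 := ⟨β / 100, by positivity, rfl⟩
  have hδ1 : δ ≤ 1 / 100 := by linarith
  obtain ⟨q, hqj, hqs⟩ : ∃ q : ℕ, 2 * (j : ℝ) / s ≤ q ∧ 32 / (s * δ) ≤ q := by
    refine ⟨⌈2 * (j : ℝ) / s⌉₊ + ⌈32 / (s * δ)⌉₊, ?_, ?_⟩
    · push_cast
      have := Nat.le_ceil (2 * (j : ℝ) / s)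
      have h2 : (0 : ℝ) ≤ ⌈32 / (s * δ)⌉₊ := by positivity
      linarith
    · push_cast
      have := Nat.le_ceil (32 / (s * δ))
      have h2 : (0 : ℝ) ≤ ⌈2 * (j : ℝ) / s⌉₊ := by positivity
      linarith
  have hj0 : (0 : ℝ) < j := by exact_mod_cast (by omega : 0 < j)
  have hjq : 2 * j ≤ q := by
    have h1 : 2 * (j : ℝ) ≤ 2 * j / s := by
      rw [le_div_iff₀ hs]
      nlinarith
    exact_mod_cast h1.trans hqj
  obtain ⟨M, hMdef⟩ : ∃ M : ℕ, M = j * q.factorial := ⟨_, rfl⟩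
  have hM0 : 0 < M := by
    rw [hMdef]
    exact Nat.mul_pos (by omega) (Nat.factorial_pos q)
  have hM1 : (1 : ℝ) ≤ M := by exact_mod_cast hM0
  have hMq : ∀ p : ℕ, p.Prime → (p ∣ M ↔ p ≤ q) := by
    intro p hp
    rw [hMdef, hp.dvd_mul, hp.dvd_factorial]
    constructor
    · rintro (h | h)
      · exact (Nat.le_of_dvd (by omega) h).trans (by omega)
      · exact h
    · exact fun h => Or.inr h
  have h6M : 6 ∣ M := by
    rw [hMdef]
    exact Dvd.dvd.mul_left (Nat.dvd_factorial (by norm_num) (by omega)) j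
  have h2M : 2 ∣ M := (by norm_num : 2 ∣ 6).trans h6M
  have hqM : (q : ℝ) ≤ M := by
    have : q ≤ M := by
      rw [hMdef]
      calc q ≤ q.factorial := Nat.self_le_factorial q
        _ ≤ j * q.factorial := Nat.le_mul_of_pos_left _ (by omega)
    exact_mod_cast this
  have hjM : (j : ℝ) ≤ M := by
    have : j ≤ M := by
      rw [hMdef]
      exact Nat.le_mul_of_pos_right _ (Nat.factorial_pos q)
    exact_mod_cast this
  obtain ⟨Y, hY⟩ : ∃ Y : ℝ, Y = 1 + 24 * j / s := ⟨_, rfl⟩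
  have hY1 : 1 ≤ Y := by
    rw [hY]
    have : 0 ≤ 24 * (j : ℝ) / s := by positivity
    linarith
  obtain ⟨ε, hε, hεdef⟩ : ∃ ε : ℝ, 0 < ε ∧ ε * (10000 * M * Y) = s * β :=
    ⟨s * β / (10000 * M * Y), by positivity, by field_simp⟩
  have hεMY : Y * (ε * M) = s * β / 10000 := by linarith
  have hεM : ε * M ≤ s * β / 10000 := by
    have h2 : 0 < ε * M := by positivity
    have h1 : ε * M ≤ Y * (ε * M) := by nlinarith only [h2, hY1]
    linarith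
  have hsβ : s * β ≤ 1 / 1000000 := by nlinarith only [hs1, hβ1, hs, hβ]
  have hsβs : s * β ≤ s / 1000 := by nlinarith only [hs1, hβ1, hs, hβ]
  have hεle : ε ≤ ε * M := by nlinarith only [hε, hM1]
  have hε100 : ε ≤ 1 / 100 := by linarith
  have hεs : ε < s := by linarith
  have hεj : 2 * ε * j < s := by
    have : ε * j ≤ ε * M := by gcongr
    linarith
  have hεq : ε * q < 1 := by
    have : ε * q ≤ ε * M := by gcongr
    linarith
  obtain ⟨κ, hκ, hκdef⟩ : ∃ κ : ℝ, 0 < κ ∧ κ * M = s * β * δ / 100000 :=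
    ⟨s * β * δ / (100000 * M), by positivity, by field_simp⟩
  exact ⟨s, β, δ, ε, κ, j, q, M, hs, hsl, hs1, hβ, hβl, hβ1, hje, hj840, hsj, hδ, hδβ, hδ1, hqj,
    hqs, hM0, hMdef, hMq, h6M, h2M, hε, hε100, hεs, hεj, hεq, hεM, by rw [← hY]; exact hεMY, hκ,
    hκdef, by omega⟩

/-- The dichotomy for a class, numerically. -/
lemma MAIN_dich_num {o z N TM D β B : ℝ} (hN : 1000 ≤ N) (hβ : 0 < β) (hβ1 : β ≤ 1 / 1000)
    (hB : B = β * N) (hsum : TM - 1 ≤ o + z) (hTM : 9 / 10 * N ≤ TM) (hTM2 : TM ≤ N)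
    (hD0 : 0 ≤ D) (hD : D ≤ β / 20 * N) (h5 : o * z ≤ TM * (4 * (2 * D))) :
    z ≤ B ∨ o ≤ B := by
  by_contra hc
  push Not at hc
  obtain ⟨hz, ho⟩ := hc
  have hN0 : 0 < N := by linarith
  have h6 : TM * (4 * (2 * D)) ≤ N * (4 * (2 * (β / 20 * N))) := by gcongr
  have h8 : 88 / 100 * N < o + z := by linarith
  have h9 : 0 < (o - B) * (z - B) := mul_pos (by linarith) (by linarith)
  have hB0 : 0 < B := by rw [hB]; positivity
  have h10 : B ≤ N / 1000 := by rw [hB]; nlinarith only [hβ1, hN0]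
  have h11 : B * (88 / 100 * N) ≤ B * (o + z) := by gcongr
  have h12 : B * B ≤ B * (N / 1000) := by gcongr
  have h7 : B * (8 / 10 * N) < o * z := by nlinarith only [h9, h11, h12, hB0, hN0]
  rw [hB] at h7
  have : 0 < β * N * N := by positivity
  nlinarith only [h7, h6, h5, this]

lemma MAIN_sum {n T M : ℕ} {W : Finset ℕ} (hM : 0 < M) (a : ℤ) :
    (T : ℝ) / M - 1 ≤ (ones T M W a).card + (zeros T M W a).card := by
  have h1 := CLS_lower 0 T M (Nat.zero_le _) hM a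
  have h2 : ((Ioc 0 T).filter (fun p : ℕ => (p : ℤ) ≡ a [ZMOD M])) =
      ones T M W a ∪ zeros T M W a := by
    ext p
    simp only [mem_filter, mem_union, mem_ones, mem_zeros, mem_Ioc]
    constructor
    · rintro ⟨⟨h1, h2⟩, h3⟩
      by_cases hp : p ∈ W
      · left; exact ⟨⟨h1, h2⟩, h3, hp⟩
      · right; exact ⟨⟨h1, h2⟩, h3, hp⟩
    · rintro (⟨⟨h1, h2⟩, h3, -⟩ | ⟨⟨h1, h2⟩, h3, -⟩)
      · exact ⟨⟨h1, h2⟩, h3⟩
      · exact ⟨⟨h1, h2⟩, h3⟩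
  rw [h2] at h1
  have h3 := Finset.card_union_le (ones T M W a) (zeros T M W a)
  have h4 : ((ones T M W a ∪ zeros T M W a).card : ℝ) ≤ (ones T M W a).card +
      (zeros T M W a).card := by exact_mod_cast h3
  simp only [Nat.cast_zero, sub_zero] at h1
  linarith

lemma MAIN_card3 (A B C : Finset ℕ) : ((A ∪ (B ∪ C)).card : ℝ) ≤ A.card + (B.card + C.card) := by
  have h1 := Finset.card_union_le A (B ∪ C)
  have h2 := Finset.card_union_le B C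
  have : (A ∪ (B ∪ C)).card ≤ A.card + (B.card + C.card) := by omega
  exact_mod_cast this

lemma MAIN_zeros_congr {T M : ℕ} {W : Finset ℕ} {c d : ℤ} (hcd : c ≡ d [ZMOD M]) :
    zeros T M W c = zeros T M W d := by
  ext p
  simp only [mem_zeros]
  constructor
  · rintro ⟨h1, h2, h3⟩; exact ⟨h1, h2.trans hcd, h3⟩
  · rintro ⟨h1, h2, h3⟩; exact ⟨h1, h2.trans hcd.symm, h3⟩

end Pool.Agent.LR2
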