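import Mathlib
import Pool.Agent.LR2.Defs

namespace Pool.Agent.LR2

open Finset

/-- Two coprime missing speeds do not add up to `w`, apart from the ends. -/
theorem NEAR_pair {ε : ℝ} {n w : ℕ} {W : Finset ℕ} (c : Ctx ε n w W) (x y : ℕ) (hxy : x + y = w)
    (hc : Nat.Coprime x y) (hx : 2 * n < w + x) (hy : 2 * n < w + y) (hn : 2 ≤ n) : x ∈ W → y ∉ W := by
  intro hxW hyW
  rcases c.mem with h | h
  · exact c.sys.refl x y (by omega) hc hxW hyW
  · have hw := c.sys.le w h
    rcases lt_trichotomy x y with hlt | heq | hgt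
    · refine c.sys.tri x y hlt hc (by omega) (by omega) ?_ hxW hyW (by rw [hxy]; exact h)
      by_cases hyn : y ≤ n
      · left; exact ⟨hyn, by omega⟩
      · right; exact ⟨by omega, Or.inl (by omega)⟩
    · subst heq
      have h1 : x = 1 := by simpa [Nat.Coprime] using hc
      subst h1
      exact c.sys.one hxW
    · refine c.sys.tri y x hgt hc.symm (by omega) (by omega) ?_ hyW hxW (by rw [add_comm, hxy]; exact h)
      by_cases hxn : x ≤ n
      · left; exact ⟨hxn, by omega⟩
      · right; exact ⟨by omega, Or.inl (by omega)⟩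

/-- The number of `x < w` which are not coprime to `w`. -/
lemma NEAR_noncop {w : ℕ} (hw : 0 < w) :
    (((Icc 1 (w - 1)).filter (fun x : ℕ => ¬ Nat.Coprime x w)).card : ℝ) ≤ rsum 0 w * w := by
  have hsub : (Icc 1 (w - 1)).filter (fun x : ℕ => ¬ Nat.Coprime x w) ⊆
      (w.primeFactors).biUnion (fun p => (Icc 1 w).filter (fun x => p ∣ x)) := by
    intro x hx
    rw [mem_filter, mem_Icc] at hx
    obtain ⟨⟨h1, h2⟩, h3⟩ := hx
    obtain ⟨p, hp, hpx, hpw⟩ := Nat.Prime.not_coprime_iff_dvd.1 h3
    rw [mem_biUnion]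
    refine ⟨p, Nat.mem_primeFactors.2 ⟨hp, hpw, hw.ne'⟩, ?_⟩
    rw [mem_filter, mem_Icc]
    exact ⟨⟨h1, by omega⟩, hpx⟩
  have hcard : ∀ p ∈ w.primeFactors, (((Icc 1 w).filter (fun x => p ∣ x)).card : ℝ) ≤ 1 / p * w := by
    intro p hp
    have hp0 : 0 < p := (Nat.prime_of_mem_primeFactors hp).pos
    have : ((Icc 1 w).filter (fun x => p ∣ x)).card = w / p := by
      have := Nat.Ioc_filter_dvd_card_eq_div w p
      rw [← this]
      congr 1
    rw [this]
    calc ((w / p : ℕ) : ℝ) ≤ (w : ℝ) / p := Nat.cast_div_le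
      _ = 1 / p * w := by ring
  calc (((Icc 1 (w - 1)).filter (fun x : ℕ => ¬ Nat.Coprime x w)).card : ℝ)
      ≤ (((w.primeFactors).biUnion (fun p => (Icc 1 w).filter (fun x => p ∣ x))).card : ℝ) := by
        exact_mod_cast card_le_card hsub
    _ ≤ ∑ p ∈ w.primeFactors, (((Icc 1 w).filter (fun x => p ∣ x)).card : ℝ) := by
        exact_mod_cast card_biUnion_le
    _ ≤ ∑ p ∈ w.primeFactors, (1 / (p : ℝ) * w) := sum_le_sum hcard
    _ = rsum 0 w * w := by
        rw [← sum_mul, rsum]
        congr 1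
        refine sum_congr ?_ (fun _ _ => rfl)
        ext p
        simp only [mem_filter, Nat.mem_primeFactors]
        constructor
        · rintro ⟨a, b, d⟩
          exact ⟨⟨a, b, d⟩, a.pos⟩
        · rintro ⟨h, _⟩
          exact h

/-- The exceptional set is small. -/
theorem NEAR {ε : ℝ} {n w : ℕ} {W : Finset ℕ} (c : Ctx ε n w W) (hε : 0 < ε) (hε1 : ε ≤ 1 / 10)
    (hn : 10 / ε ≤ n) : ((Ex n W w).card : ℝ) ≤ 12 * ε * n := by
  have hεn : 10 ≤ ε * n := by
    rw [div_le_iff₀ hε] at hn
    linarith [mul_comm (n : ℝ) ε]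
  have hn100 : (100 : ℝ) ≤ n := by
    have h0 : (0 : ℝ) ≤ n := Nat.cast_nonneg n
    nlinarith
  have hn100' : 100 ≤ n := by exact_mod_cast hn100
  have hlow := c.low
  have hwle := c.le
  have hwlow : (n : ℝ) < w := by nlinarith
  have hwn : n < w := by exact_mod_cast hwlow
  set A : Finset ℕ := (Icc 1 (w - 1)).filter (fun x => x ∈ W) with hA
  set B : Finset ℕ := (Icc 1 (w - 1)).filter (fun x => w - x ∈ W) with hB
  -- the two sets have the same size
  have hAB : A.card = B.card := by
    refine card_bij' (fun x _ => w - x) (fun x _ => w - x) ?_ ?_ ?_ ?_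
    · intro x hx
      rw [hA, mem_filter, mem_Icc] at hx
      rw [hB, mem_filter, mem_Icc]
      refine ⟨by omega, ?_⟩
      rw [show w - (w - x) = x by omega]
      exact hx.2
    · intro x hx
      rw [hB, mem_filter, mem_Icc] at hx
      rw [hA, mem_filter, mem_Icc]
      exact ⟨by omega, hx.2⟩
    · intro x hx
      rw [hA, mem_filter, mem_Icc] at hx
      omega
    · intro x hx
      rw [hB, mem_filter, mem_Icc] at hx
      omega
  -- lower bound for the size
  have hAlow : n ≤ A.card + (2 * n + 1 - w) := by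
    have hsub : W ⊆ A ∪ Icc w (2 * n) := by
      intro x hx
      have h1 := c.sys.pos x hx
      have h2 := c.sys.le x hx
      rw [mem_union, hA, mem_filter, mem_Icc, mem_Icc]
      by_cases h : x < w
      · left; exact ⟨by omega, hx⟩
      · right; omega
    have := (card_le_card hsub).trans (card_union_le _ _)
    rw [c.sys.card, Nat.card_Icc] at this
    exact this
  -- the common part is small
  have hinter : ((A ∩ B).card : ℝ) ≤ rsum 0 w * w + 2 * (2 * n - w : ℕ) := by
    have hsub : A ∩ B ⊆ (Icc 1 (w - 1)).filter (fun x : ℕ => ¬ Nat.Coprime x w) ∪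
        (Icc 1 (2 * n - w) ∪ (Icc 1 (2 * n - w)).image (fun x => w - x)) := by
      intro x hx
      rw [mem_inter, hA, hB, mem_filter, mem_filter, mem_Icc] at hx
      obtain ⟨⟨⟨h1, h2⟩, h3⟩, _, h4⟩ := hx
      rw [mem_union, mem_union, mem_filter, mem_Icc, mem_Icc, mem_image]
      by_contra hcon
      push Not at hcon
      obtain ⟨hc1, hc2, hc3⟩ := hcon
      have hcop : Nat.Coprime x w := hc1 ⟨h1, h2⟩
      have hcop' : Nat.Coprime x (w - x) := by
        rw [show w = (w - x) + x by omega] at hcop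
        simpa using hcop
      have hx1 : 2 * n < w + x := by
        have := hc2 h1
        omega
      have hy1 : 2 * n < w + (w - x) := by
        by_contra hh
        exact hc3 (w - x) (by rw [mem_Icc]; omega) (by omega)
      exact NEAR_pair c x (w - x) (by omega) hcop' hx1 hy1 (by omega) h3 h4
    have h1 := (card_le_card hsub).trans ((card_union_le _ _).trans
      (Nat.add_le_add_left (card_union_le _ _) _))
    have h2 : ((Icc 1 (2 * n - w)).image (fun x => w - x)).card ≤ 2 * n - w := by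
      refine card_image_le.trans ?_
      rw [Nat.card_Icc]
      omega
    have h3 : (Icc 1 (2 * n - w)).card = 2 * n - w := by
      rw [Nat.card_Icc]
      omega
    have h4 : (A ∩ B).card ≤ ((Icc 1 (w - 1)).filter (fun x : ℕ => ¬ Nat.Coprime x w)).card +
        2 * (2 * n - w) := by omega
    have h5 := NEAR_noncop (w := w) (by omega)
    have h6 : ((A ∩ B).card : ℝ) ≤
        (((Icc 1 (w - 1)).filter (fun x : ℕ => ¬ Nat.Coprime x w)).card : ℝ) +
        2 * ((2 * n - w : ℕ) : ℝ) := by exact_mod_cast h4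
    linarith
  -- the exceptional set
  have hEx : (Ex n W w).card ≤ ((w - 1) - (A ∪ B).card) + (A ∩ B).card + (2 * n + 1 - w) := by
    have hsub : Ex n W w ⊆ ((Icc 1 (w - 1)) \ (A ∪ B)) ∪ (A ∩ B) ∪ Icc w (2 * n) := by
      intro x hx
      rw [mem_Ex] at hx
      obtain ⟨⟨h1, h2⟩, h3⟩ := hx
      rw [mem_union, mem_union, mem_sdiff, mem_union, mem_inter, hA, hB, mem_filter, mem_filter,
        mem_Icc, mem_Icc]
      by_cases hxw : x < w
      · left
        have h4 : ¬ (x ∈ W ↔ w - x ∉ W) := fun hh => h3 ⟨hxw, hh⟩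
        have h5 : 1 ≤ x ∧ x ≤ w - 1 := by omega
        tauto
      · right; omega
    have hsubAB : A ∪ B ⊆ Icc 1 (w - 1) := union_subset (filter_subset _ _) (filter_subset _ _)
    have h1 := (card_le_card hsub).trans ((card_union_le _ _).trans
      (Nat.add_le_add_right (card_union_le _ _) _))
    rw [card_sdiff_of_subset hsubAB, Nat.card_Icc, Nat.card_Icc] at h1
    simpa using h1
  have hUI : (A ∪ B).card + (A ∩ B).card = A.card + B.card := card_union_add_card_inter A B
  have hUle : (A ∪ B).card ≤ w - 1 := by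
    have := card_le_card (union_subset (filter_subset _ _) (filter_subset _ _) : A ∪ B ⊆ Icc 1 (w - 1))
    simpa using this
  -- in integers
  have hfin : (Ex n W w).card ≤ 2 * (2 * n + 1 - w) + 2 * (A ∩ B).card := by omega
  have hG1 : ((2 * n + 1 - w : ℕ) : ℝ) ≤ ε * n + 1 := by
    rw [Nat.cast_sub hwle]
    push_cast
    nlinarith
  have hG : ((2 * n - w : ℕ) : ℝ) ≤ ε * n := by
    rcases le_or_gt w (2 * n) with h | h
    · rw [Nat.cast_sub h]
      push_cast
      nlinarith
    · rw [Nat.sub_eq_zero_of_le h.le]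
      push_cast
      linarith
  have hr : rsum 0 w * w ≤ ε * (2 * n + 1) := by
    have hw' : (w : ℝ) ≤ 2 * n + 1 := by exact_mod_cast hwle
    calc rsum 0 w * w ≤ ε * w := mul_le_mul_of_nonneg_right c.rough (Nat.cast_nonneg _)
      _ ≤ ε * (2 * n + 1) := mul_le_mul_of_nonneg_left hw' hε.le
  have hfin' : ((Ex n W w).card : ℝ) ≤ 2 * ((2 * n + 1 - w : ℕ) : ℝ) + 2 * ((A ∩ B).card : ℝ) := by
    exact_mod_cast hfin
  nlinarith

end Pool.Agent.LR2
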