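import Mathlib
import Pool.Agent.LR2.Defs
import Pool.Agent.LR2.Cop
import Pool.Agent.LR2.Sec

namespace Pool.Agent.LR2

open Finset

/-- If one of two injective images of each point of `S` is in `D`, then `|S| ≤ 2 |D|`. -/
theorem ODD_pairs {S D : Finset ℕ} (f g : ℕ → ℕ) (hf : Set.InjOn f S) (hg : Set.InjOn g S)
    (h : ∀ x ∈ S, f x ∈ D ∨ g x ∈ D) : S.card ≤ 2 * D.card := by
  have h1 : S ⊆ S.filter (fun x => f x ∈ D) ∪ S.filter (fun x => g x ∈ D) := by
    intro x hx
    rcases h x hx with h2 | h2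
    · exact mem_union_left _ (mem_filter.2 ⟨hx, h2⟩)
    · exact mem_union_right _ (mem_filter.2 ⟨hx, h2⟩)
  have h2 : (S.filter (fun x => f x ∈ D)).card ≤ D.card := by
    apply card_le_card_of_injOn f
    · intro x hx
      exact (mem_filter.1 hx).2
    · exact hf.mono (fun x hx => (mem_filter.1 hx).1)
  have h3 : (S.filter (fun x => g x ∈ D)).card ≤ D.card := by
    apply card_le_card_of_injOn g
    · intro x hx
      exact (mem_filter.1 hx).2
    · exact hg.mono (fun x hx => (mem_filter.1 hx).1)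
  have h4 := (card_le_card h1).trans (card_union_le _ _)
  omega

/-- The number of odd numbers in `[1, 2 n]`. -/
theorem ODD_card (n : ℕ) : ((Icc 1 (2 * n)).filter (fun x : ℕ => Odd x)).card = n := by
  have h : (Icc 1 (2 * n)).filter (fun x : ℕ => Odd x) = (range n).image (fun k => 2 * k + 1) := by
    ext x
    simp only [mem_filter, mem_Icc, mem_image, mem_range]
    constructor
    · rintro ⟨⟨_, h2⟩, k, rfl⟩
      exact ⟨k, by omega, rfl⟩
    · rintro ⟨k, hk, rfl⟩
      exact ⟨⟨by omega, by omega⟩, ⟨k, rfl⟩⟩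
  rw [h, card_image_of_injective, card_range]
  intro a b hab
  simp only at hab
  omega

/-- There are as many odd speeds as even missing speeds. -/
theorem ODD_eq {n : ℕ} {W : Finset ℕ} (hs : Sys n W) :
    (((Icc 1 (2 * n)).filter (fun x : ℕ => Odd x)).filter (fun x : ℕ => x ∉ W)).card
      = (W.filter (fun x : ℕ => Even x)).card := by
  have h1 := ODD_card n
  have h2 := card_filter_add_card_filter_not (s := (Icc 1 (2 * n)).filter (fun x : ℕ => Odd x))
    (fun x : ℕ => x ∈ W)
  have h3 := card_filter_add_card_filter_not (s := W) (fun x : ℕ => Even x)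
  have h4 : ((Icc 1 (2 * n)).filter (fun x : ℕ => Odd x)).filter (fun x : ℕ => x ∈ W)
      = W.filter (fun x : ℕ => ¬ Even x) := by
    ext x
    simp only [mem_filter, mem_Icc, Nat.not_even_iff_odd]
    constructor
    · rintro ⟨⟨_, h5⟩, h6⟩
      exact ⟨h6, h5⟩
    · rintro ⟨h5, h6⟩
      exact ⟨⟨⟨hs.pos x h5, hs.le x h5⟩, h6⟩, h5⟩
  rw [h4] at h2
  have h5 := hs.card
  omega

/-- The lower bound for the number of even missing speeds. -/
theorem ODD_bound {n : ℕ} {W : Finset ℕ} (hs : Sys n W) (e a b : ℕ) (he : e ∈ W) (hee : Even e)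
    (hab : a ≤ b) (hlen : n ≤ 12 * (b - a) + 12) (f g : ℕ → ℕ)
    (hf : ∀ x y, a < x → x ≤ b → a < y → y ≤ b → f x = f y → x = y)
    (hg : ∀ x y, a < x → x ≤ b → a < y → y ≤ b → g x = g y → x = y)
    (h : ∀ x, a < x → x ≤ b → Odd x → Nat.Coprime x e →
      (1 ≤ f x ∧ f x ≤ 2 * n ∧ Odd (f x)) ∧ (1 ≤ g x ∧ g x ≤ 2 * n ∧ Odd (g x)) ∧
        (f x ∉ W ∨ g x ∉ W)) :
    (n : ℝ) / 24 * ((e.totient : ℝ) / e) - 2 ^ e.primeFactors.card - 1 ≤
      ((W.filter (fun x : ℕ => Even x)).card : ℝ) := by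
  have he0 : 0 < e := hs.pos e he
  have h1 := COP e a b he0 hab
  set S := (Ioc a b).filter (fun x : ℕ => Nat.Coprime x e) with hS
  set D := ((Icc 1 (2 * n)).filter (fun x : ℕ => Odd x)).filter (fun x : ℕ => x ∉ W) with hD
  have hmem : ∀ x, x ∈ S → (a < x ∧ x ≤ b) ∧ Nat.Coprime x e := by
    intro x hx
    rw [hS, mem_filter, mem_Ioc] at hx
    exact hx
  have h2 : S.card ≤ 2 * D.card := by
    apply ODD_pairs f g
    · intro x hx y hy hxy
      exact hf x y (hmem x hx).1.1 (hmem x hx).1.2 (hmem y hy).1.1 (hmem y hy).1.2 hxy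
    · intro x hx y hy hxy
      exact hg x y (hmem x hx).1.1 (hmem x hx).1.2 (hmem y hy).1.1 (hmem y hy).1.2 hxy
    · intro x hx
      obtain ⟨⟨h3, h4⟩, h5⟩ := hmem x hx
      have h6 : Odd x := by
        rw [← Nat.not_even_iff_odd]
        intro h7
        have h8 : 2 ∣ Nat.gcd x e := Nat.dvd_gcd h7.two_dvd hee.two_dvd
        rw [h5] at h8
        omega
      obtain ⟨⟨h7, h8, h9⟩, ⟨h10, h11, h12⟩, h13⟩ := h x h3 h4 h6 h5
      rcases h13 with h13 | h13
      · left
        rw [hD, mem_filter, mem_filter, mem_Icc]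
        exact ⟨⟨⟨h7, h8⟩, h9⟩, h13⟩
      · right
        rw [hD, mem_filter, mem_filter, mem_Icc]
        exact ⟨⟨⟨h10, h11⟩, h12⟩, h13⟩
  rw [ODD_eq hs] at h2
  have h3 : (S.card : ℝ) ≤ 2 * ((W.filter (fun x : ℕ => Even x)).card : ℝ) := by exact_mod_cast h2
  have h4 : (n : ℝ) ≤ 12 * ((b : ℝ) - a) + 12 := by
    have h5 : (n : ℝ) ≤ ((12 * (b - a) + 12 : ℕ) : ℝ) := by exact_mod_cast hlen
    rw [Nat.cast_add, Nat.cast_mul, Nat.cast_sub hab] at h5
    exact_mod_cast h5
  have he0' : (0 : ℝ) < e := by exact_mod_cast he0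
  have h5 : 0 ≤ (e.totient : ℝ) / e := by positivity
  have h6 : (e.totient : ℝ) / e ≤ 1 := by
    rw [div_le_one he0']
    exact_mod_cast Nat.totient_le e
  have h7 : (0 : ℝ) ≤ 2 ^ e.primeFactors.card := by positivity
  have h8 : (n : ℝ) * ((e.totient : ℝ) / e) ≤ (12 * ((b : ℝ) - a) + 12) * ((e.totient : ℝ) / e) :=
    mul_le_mul_of_nonneg_right h4 h5
  nlinarith

/-- The case where nearly all missing speeds are odd. -/
theorem ODD : ∃ lam : ℝ, 0 < lam ∧ ∃ n0 : ℕ, ∀ n : ℕ, n0 ≤ n → ∀ W : Finset ℕ, Sys n W →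
    ((W.filter (fun x : ℕ => Even x)).card : ℝ) ≤ lam * n → False := by
  obtain ⟨lam, hlam, n0, hn0⟩ := SEC
  refine ⟨lam, hlam, max n0 1, fun n hn W hs hle => ?_⟩
  have hn1 : 1 ≤ n := (le_max_right _ _).trans hn
  have hn2 : n0 ≤ n := (le_max_left _ _).trans hn
  refine absurd hle (not_le.2 (hn0 n hn2 _ ?_ ?_ ?_))
  · rw [← card_pos, ← ODD_eq hs, card_pos]
    refine ⟨1, ?_⟩
    rw [mem_filter, mem_filter, mem_Icc]
    exact ⟨⟨⟨le_refl 1, by omega⟩, odd_one⟩, hs.one⟩
  · intro m hm
    rw [mem_filter] at hm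
    exact ⟨hs.pos m hm.1, hs.le m hm.1⟩
  · intro e he
    rw [mem_filter] at he
    obtain ⟨heW, hee⟩ := he
    have he0 := hs.pos e heW
    have he2 := hs.le e heW
    have hodd : ∀ x, Odd x → Odd (x + e) := fun x hx => hx.add_even hee
    by_cases h1 : 6 * e ≤ 5 * n
    · apply ODD_bound hs e n (n + n / 6) heW hee (by omega) (by omega) (fun x => x) (fun x => x + e)
      · intro x y _ _ _ _ h; exact h
      · intro x y _ _ _ _ h; omega
      · intro x hx1 hx2 hxo hxe
        refine ⟨⟨by omega, by omega, hxo⟩, ⟨by omega, by omega, hodd x hxo⟩, ?_⟩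
        by_contra hc
        push Not at hc
        have h2 := hs.tri e x (by omega) hxe.symm (by omega) (by omega)
          (Or.inr ⟨hx1, by omega⟩) heW hc.1
        rw [add_comm] at h2
        exact h2 hc.2
    by_cases h2 : e ≤ n
    · apply ODD_bound hs e (n / 2) (2 * n / 3) heW hee (by omega) (by omega) (fun x => x)
        (fun x => x + e)
      · intro x y _ _ _ _ h; exact h
      · intro x y _ _ _ _ h; omega
      · intro x hx1 hx2 hxo hxe
        refine ⟨⟨by omega, by omega, hxo⟩, ⟨by omega, by omega, hodd x hxo⟩, ?_⟩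
        by_contra hc
        push Not at hc
        exact hs.tri x e (by omega) hxe (by omega) (by omega)
          (Or.inl ⟨h2, by omega⟩) hc.1 heW hc.2
    by_cases h3 : 3 * e ≤ 5 * n
    · apply ODD_bound hs e (2 * n - e - n / 6) (2 * n - e) heW hee (by omega) (by omega)
        (fun x => x) (fun x => x + e)
      · intro x y _ _ _ _ h; exact h
      · intro x y _ _ _ _ h; omega
      · intro x hx1 hx2 hxo hxe
        refine ⟨⟨by omega, by omega, hxo⟩, ⟨by omega, by omega, hodd x hxo⟩, ?_⟩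
        by_contra hc
        push Not at hc
        exact hs.tri x e (by omega) hxe (by omega) (by omega)
          (Or.inr ⟨by omega, by omega⟩) hc.1 heW hc.2
    · apply ODD_bound hs e (n / 2) (2 * n / 3) heW hee (by omega) (by omega) (fun x => x)
        (fun x => e - x)
      · intro x y _ _ _ _ h; exact h
      · intro x y _ _ _ _ h; omega
      · intro x hx1 hx2 hxo hxe
        have h4 : Odd (e - x) := by
          obtain ⟨k, hk⟩ := hee
          obtain ⟨l, hl⟩ := hxo
          exact ⟨k - l - 1, by omega⟩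
        refine ⟨⟨by omega, by omega, hxo⟩, ⟨by omega, by omega, h4⟩, ?_⟩
        by_contra hc
        push Not at hc
        have h5 : Nat.Coprime x (e - x) := by
          rw [Nat.coprime_sub_self_right (by omega)]
          exact hxe
        have h6 := hs.tri x (e - x) (by omega) h5 (by omega) (by omega)
          (Or.inr ⟨by omega, by omega⟩) hc.1 hc.2
        rw [Nat.add_sub_cancel' (by omega)] at h6
        exact h6 heW

end Pool.Agent.LR2
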