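import Mathlib
import Pool.Agent.LR2.Defs

namespace Pool.Agent.LR2

open Finset

/-- Reflection in a speed `r`: if `p` is missing then `r - p` is missing. -/
theorem LEMS {ε : ℝ} {n w r p : ℕ} {W : Finset ℕ} (c : Ctx ε n w W) (hr : r ∉ W)
    (hrE : r ∉ Ex n W w) (hp : 0 < p) (hpr : p < r) (hrn : r ≤ n) (h4 : 4 * n ≤ 3 * r + w)
    (hc : n + r < w ∨ (4 * n < 2 * w + p ∧ 2 * n + p < w + r)) (hcop : Nat.Coprime p (w - r))
    (hE : r - p ∉ Ex n W w) (hpW : p ∈ W) : r - p ∈ W := by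
  have hw := c.le
  obtain ⟨hrw, hriff⟩ := notMem_Ex hrE (by omega) (by omega)
  have hv : w - r ∈ W := by
    by_contra h
    exact hr (hriff.2 h)
  obtain ⟨hrpw, hrpiff⟩ := notMem_Ex hE (by omega) (by omega)
  have key : p + (w - r) ∉ W := by
    refine c.sys.tri p (w - r) ?_ hcop ?_ ?_ ?_ hpW hv
    · omega
    · omega
    · omega
    · omega
  refine hrpiff.2 ?_
  have e : w - (r - p) = p + (w - r) := by omega
  rw [e]
  exact key

end Pool.Agent.LR2
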