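import Mathlib
import Pool.Agent.LR2.Defs
import Pool.Agent.LR2.LemS
import Pool.Agent.LR2.Good

namespace Pool.Agent.LR2

open Finset

/-- Reflection in a usable multiple `r` of `M`. -/
theorem REFLC {ε s δ : ℝ} {n w M q r : ℕ} {W : Finset ℕ} (c : Ctx ε n w W) (hε1 : ε ≤ 1 / 10)
    (hεs : ε < s) (hM : 0 < M) (hMq : ∀ p : ℕ, p.Prime → (p ∣ M ↔ p ≤ q))
    (hwM : Nat.Coprime w M) (hMr : M ∣ r) (hrW : r ∉ W) (hrE : r ∉ Ex n W w)
    (hr : rsum q (w - r) ≤ δ) (h7 : 7 / 10 * (n : ℝ) ≤ r) (hrs : (r : ℝ) ≤ (1 - s) * n)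
    (hn : 0 < n) (a : ℤ) :
    (((Ico 1 r).filter (fun p : ℕ => (p : ℤ) ≡ a [ZMOD M] ∧ ¬ (p ∈ W ↔ r - p ∈ W))).card : ℝ) ≤
      2 * (Ex n W w).card + 2 * (δ * (n / M) + Nat.log 2 (2 * n + 1)) := by
  classical
  have hnr : (0 : ℝ) < n := by exact_mod_cast hn
  have hε0 : 0 ≤ ε := (rsum_nonneg 0 w).trans c.rough
  have hlow := c.low
  have hwle := c.le
  have hrn : r ≤ n := by
    have h1 : (r : ℝ) ≤ n := by nlinarith
    exact_mod_cast h1
  have h4 : 4 * n ≤ 3 * r + w := by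
    have h1 : (4 : ℝ) * n ≤ 3 * r + w := by nlinarith
    exact_mod_cast h1
  have hnrw : n + r < w := by
    have h1 : (n : ℝ) + r < w := by nlinarith
    exact_mod_cast h1
  have hv0 : 0 < w - r := by omega
  set C : ℤ → Finset ℕ := fun b => (Icc 1 n).filter (fun p : ℕ => (p : ℤ) ≡ b [ZMOD M] ∧
      ∃ l ∈ (w - r).primeFactors, q < l ∧ l ∣ p) with hC
  have key : ∀ (b : ℤ) (p : ℕ), 0 < p → p < r → (p : ℤ) ≡ b [ZMOD M] → p ∈ W → r - p ∉ W →
      r - p ∈ Ex n W w ∨ p ∈ C b := by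
    intro b p hp0 hpr hpb hpW hrpW
    by_cases hE : r - p ∈ Ex n W w
    · exact Or.inl hE
    · right
      by_cases hcop : Nat.Coprime p (w - r)
      · exact absurd (LEMS c hrW hrE hp0 hpr hrn h4 (Or.inl hnrw) hcop hE hpW) hrpW
      · rw [Nat.Prime.not_coprime_iff_dvd] at hcop
        obtain ⟨l, hl, hlp, hlv⟩ := hcop
        rw [hC, mem_filter, mem_Icc]
        refine ⟨⟨hp0, by omega⟩, hpb, l, ?_, ?_, hlp⟩
        · rw [Nat.mem_primeFactors]
          exact ⟨hl, hlv, hv0.ne'⟩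
        · by_contra hlq
          push Not at hlq
          have h1 : l ∣ M := (hMq l hl).2 hlq
          have h2 : l ∣ r := h1.trans hMr
          have h3 : l ∣ w := by
            have h5 : w = (w - r) + r := by omega
            rw [h5]
            exact dvd_add hlv h2
          have h6 : l ∣ Nat.gcd w M := Nat.dvd_gcd h3 h1
          rw [hwM] at h6
          exact hl.one_lt.ne' (Nat.dvd_one.1 h6)
  have hCc : ∀ b : ℤ, ((C b).card : ℝ) ≤ δ * (n / M) + Nat.log 2 (2 * n + 1) := by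
    intro b
    have h1 := COPC M q n (w - r) b hM (fun p hp hpM => (hMq p hp).1 hpM) hv0
    have h2 : rsum q (w - r) * ((n : ℝ) / M) ≤ δ * (n / M) :=
      mul_le_mul_of_nonneg_right hr (by positivity)
    have h3 : (Nat.log 2 (w - r) : ℝ) ≤ Nat.log 2 (2 * n + 1) := by
      exact_mod_cast Nat.log_mono_right (by omega)
    rw [hC]
    linarith
  have hsub : (Ico 1 r).filter (fun p : ℕ => (p : ℤ) ≡ a [ZMOD M] ∧ ¬ (p ∈ W ↔ r - p ∈ W)) ⊆
      ((Ex n W w).image (fun x : ℕ => r - x) ∪ C a) ∪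
      (Ex n W w ∪ (C (-a)).image (fun x : ℕ => r - x)) := by
    intro p hp
    rw [mem_filter, mem_Ico] at hp
    obtain ⟨⟨hp0, hpr⟩, hpa, hpW⟩ := hp
    rw [mem_union]
    by_cases h1 : p ∈ W
    · left
      have h2 : r - p ∉ W := fun h => hpW ⟨fun _ => h, fun _ => h1⟩
      rw [mem_union]
      rcases key a p hp0 hpr hpa h1 h2 with h3 | h3
      · left
        rw [mem_image]
        exact ⟨r - p, h3, by omega⟩
      · exact Or.inr h3
    · right
      have h2 : r - p ∈ W := by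
        by_contra h
        exact hpW ⟨fun h5 => absurd h5 h1, fun h5 => absurd h5 h⟩
      have h3 : r - (r - p) = p := by omega
      have h4 : ((r - p : ℕ) : ℤ) ≡ -a [ZMOD M] := by
        rw [Nat.cast_sub hpr.le]
        have h5 : (r : ℤ) ≡ 0 [ZMOD M] := by
          rw [Int.modEq_zero_iff_dvd]
          exact_mod_cast hMr
        have h6 := h5.sub hpa
        rwa [zero_sub] at h6
      rw [mem_union]
      rcases key (-a) (r - p) (by omega) (by omega) h4 h2 (by rw [h3]; exact h1) with h5 | h5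
      · left
        rwa [h3] at h5
      · right
        rw [mem_image]
        exact ⟨r - p, h5, h3⟩
  have e1 := (card_le_card hsub).trans (card_union_le _ _)
  have e2 := card_union_le ((Ex n W w).image (fun x : ℕ => r - x)) (C a)
  have e3 := card_union_le (Ex n W w) ((C (-a)).image (fun x : ℕ => r - x))
  have e4 : ((Ex n W w).image (fun x : ℕ => r - x)).card ≤ (Ex n W w).card := card_image_le
  have e5 : ((C (-a)).image (fun x : ℕ => r - x)).card ≤ (C (-a)).card := card_image_le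
  have e6 := hCc a
  have e7 := hCc (-a)
  have e8 : ((Ico 1 r).filter (fun p : ℕ => (p : ℤ) ≡ a [ZMOD M] ∧
      ¬ (p ∈ W ↔ r - p ∈ W))).card ≤ 2 * (Ex n W w).card + ((C a).card + (C (-a)).card) := by
    omega
  have e9 : (((Ico 1 r).filter (fun p : ℕ => (p : ℤ) ≡ a [ZMOD M] ∧
      ¬ (p ∈ W ↔ r - p ∈ W))).card : ℝ) ≤ 2 * (Ex n W w).card + ((C a).card + (C (-a)).card) := by
    exact_mod_cast e8
  linarith

end Pool.Agent.LR2
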