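import Mathlib
import Pool.Agent.LR2.Defs
import Pool.Agent.LR2.LemS
import Pool.Agent.LR2.Good

namespace Pool.Agent.LR2

open Finset

/-- Removing small sets from a class in an interval and mapping it injectively into a target. -/
private lemma REL_count (M a b : ℕ) (c : ℤ) (hM : 0 < M) (hab : a ≤ b) (Z : Finset ℕ) (z : ℝ)
    (hZ : (Z.card : ℝ) ≤ z) (Tt : Finset ℕ) (f : ℕ → ℕ)
    (hf : ∀ x, a < x → x ≤ b → (x : ℤ) ≡ c [ZMOD M] → x ∉ Z → f x ∈ Tt)
    (hinj : ∀ x y, a < x → x ≤ b → x ∉ Z → a < y → y ≤ b → y ∉ Z → f x = f y → x = y) :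
    ((b : ℝ) - a) / M - 1 - z ≤ (Tt.card : ℝ) := by
  classical
  have h1 := CLS_lower a b M hab hM c
  set S := (Ioc a b).filter (fun p : ℕ => (p : ℤ) ≡ c [ZMOD M]) with hS
  have h2 : (S \ Z).card ≤ Tt.card := by
    refine Finset.card_le_card_of_injOn f ?_ ?_
    · intro x hx
      have hx' := Finset.mem_sdiff.1 (Finset.mem_coe.1 hx)
      obtain ⟨hx1, hx2⟩ := mem_filter.1 hx'.1
      exact Finset.mem_coe.2 (hf x (mem_Ioc.1 hx1).1 (mem_Ioc.1 hx1).2 hx2 hx'.2)
    · intro x hx y hy hxy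
      have hx0 := Finset.mem_sdiff.1 (Finset.mem_coe.1 hx)
      have hy0 := Finset.mem_sdiff.1 (Finset.mem_coe.1 hy)
      have hx1 := mem_Ioc.1 (mem_filter.1 hx0.1).1
      have hy1 := mem_Ioc.1 (mem_filter.1 hy0.1).1
      exact hinj x y hx1.1 hx1.2 hx0.2 hy1.1 hy1.2 hy0.2 hxy
  have h3 : S.card - Z.card ≤ (S \ Z).card := Finset.le_card_sdiff Z S
  have h3'' : S.card ≤ (S \ Z).card + Z.card := by omega
  have h2' : ((S \ Z).card : ℝ) ≤ (Tt.card : ℝ) := by exact_mod_cast h2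
  have h3' : (S.card : ℝ) ≤ ((S \ Z).card : ℝ) + (Z.card : ℝ) := by exact_mod_cast h3''
  linarith

/-- The class of `0` has many speeds. -/
theorem REL0 {s B : ℝ} {n M T : ℕ} {W : Finset ℕ} (hM : 0 < M) (hs : 0 < s) (hs1 : s ≤ 1 / 1000)
    (hT : 96 / 100 * (n : ℝ) ≤ T) (hTn : (T : ℝ) ≤ (1 - s) * n) (hnM : 1000 * M ≤ n)
    (hB : B ≤ n / (100 * M))
    (hz : (((Icc 1 n).filter (fun z : ℕ => M ∣ z ∧ s * n ≤ z ∧ (z : ℝ) ≤ (1 - s) * n ∧
      z ∈ W)).card : ℝ) ≤ n / (100 * M)) : B < (zeros T M W 0).card := by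
  classical
  have hM' : (0 : ℝ) < M := by exact_mod_cast hM
  have hM1 : (1 : ℝ) ≤ M := by exact_mod_cast hM
  have hnM' : (1000 : ℝ) * M ≤ n := by exact_mod_cast hnM
  have hn : (0 : ℝ) < n := by linarith
  have hsn : s * n ≤ n / 1000 := by nlinarith
  have hfl : ((⌊s * n⌋₊ : ℕ) : ℝ) ≤ s * n := Nat.floor_le (by positivity)
  have hab : ⌊s * n⌋₊ ≤ T := by
    have : ((⌊s * n⌋₊ : ℕ) : ℝ) ≤ (T : ℝ) := by linarith
    exact_mod_cast this
  have hTn' : (T : ℝ) ≤ n := by nlinarith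
  have hTn2 : T ≤ n := by exact_mod_cast hTn'
  have key := REL_count M ⌊s * n⌋₊ T 0 hM hab
    ((Icc 1 n).filter (fun z : ℕ => M ∣ z ∧ s * n ≤ z ∧ (z : ℝ) ≤ (1 - s) * n ∧ z ∈ W))
    (n / (100 * M)) hz (zeros T M W 0) id (by
      intro x hx1 hx2 hx3 hx4
      refine mem_zeros.2 ⟨⟨by simp only [id]; omega, hx2⟩, hx3, ?_⟩
      intro hxW
      apply hx4
      have hdx : (M : ℤ) ∣ (x : ℤ) := Int.modEq_zero_iff_dvd.1 hx3
      refine mem_filter.2 ⟨mem_Icc.2 ⟨by omega, by omega⟩, by exact_mod_cast hdx,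
        ((Nat.floor_lt (by positivity)).1 hx1).le, ?_, hxW⟩
      have : (x : ℝ) ≤ T := by exact_mod_cast hx2
      linarith) (by intro x y _ _ _ _ _ _ h; exact h)
  have hu : (n : ℝ) / (100 * M) = (n / M) / 100 := by field_simp
  have hv : (1000 : ℝ) ≤ n / M := by rw [le_div_iff₀ hM']; exact hnM'
  have hw : (959 / 1000 : ℝ) * (n / M) ≤ ((T : ℝ) - (⌊s * n⌋₊ : ℕ)) / M := by
    rw [mul_div_assoc']
    apply div_le_div_of_nonneg_right _ hM'.le
    linarith
  rw [hu] at hB key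
  linarith

/-- Doubling of a class. -/
theorem REL1 {n M T : ℕ} {B : ℝ} {W : Finset ℕ} (h : Sys n W) (hM : 0 < M)
    (hT : 9 / 10 * (n : ℝ) ≤ T) (hTn : T ≤ n) (hB : B ≤ n / (100 * M)) (hnM : 100 * M ≤ n) (c : ℤ)
    (hc : ((zeros T M W c).card : ℝ) ≤ B) : B < (zeros T M W (2 * c)).card := by
  classical
  have hM' : (0 : ℝ) < M := by exact_mod_cast hM
  have hM1 : (1 : ℝ) ≤ M := by exact_mod_cast hM
  have hnM' : (100 : ℝ) * M ≤ n := by exact_mod_cast hnM
  have hn : (0 : ℝ) < n := by linarith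
  have hT3 : 2 * (n / 3) ≤ T := by
    have h3 : ((2 * (n / 3) : ℕ) : ℝ) ≤ T := by
      have : ((n / 3 : ℕ) : ℝ) ≤ (n : ℝ) / 3 := Nat.cast_div_le
      push_cast
      linarith
    exact_mod_cast h3
  have key := REL_count M 0 (n / 3) c hM (Nat.zero_le _) (zeros T M W c) B hc
    (zeros T M W (2 * c)) (fun q => 2 * q) (by
      intro q hq1 hq2 hq3 hq4
      have hqW : q ∈ W := by
        by_contra hqW
        exact hq4 (mem_zeros.2 ⟨⟨by omega, by omega⟩, hq3, hqW⟩)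
      refine mem_zeros.2 ⟨⟨by omega, by omega⟩, ?_, ?_⟩
      · push_cast
        exact hq3.mul_left 2
      · -- a number `z ≡ 1` modulo `q` in the required interval
        have hdiv := Nat.div_add_mod (2 * n) q
        have hmod := Nat.mod_lt (2 * n) hq1
        refine h.dbl q (q * (2 * n / q + 1) + 1) hq1 ?_ ?_ ?_ hqW
        · have : Nat.Coprime (1 + q * (2 * n / q + 1)) q := by
            rw [Nat.coprime_add_mul_left_left]
            exact Nat.coprime_one_left q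
          rw [Nat.add_comm]
          exact this
        · rw [Nat.mul_add]
          omega
        · rw [Nat.mul_add]
          omega)
    (by intro x y _ _ _ _ _ _ hxy; omega)
  have hu : (n : ℝ) / (100 * M) = (n / M) / 100 := by field_simp
  have hv : (100 : ℝ) ≤ n / M := by rw [le_div_iff₀ hM']; exact hnM'
  have hfl : (n : ℝ) / 3 - 1 ≤ ((n / 3 : ℕ) : ℝ) := by
    have h1 : n ≤ 3 * (n / 3) + 2 := by omega
    have h2 : (n : ℝ) ≤ 3 * ((n / 3 : ℕ) : ℝ) + 2 := by exact_mod_cast h1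
    linarith
  have hw : (1 / 3 : ℝ) * (n / M) - 1 ≤ (((n / 3 : ℕ) : ℝ) - (0 : ℕ)) / M := by
    rw [le_div_iff₀ hM', sub_mul, mul_assoc, div_mul_cancel₀ _ hM'.ne']
    push_cast
    linarith
  rw [hu] at hB
  linarith

/-- The class of `w - 2 c`. -/
theorem REL2 {ε B : ℝ} {n w M T : ℕ} {W : Finset ℕ} (h : Ctx ε n w W) (hM : 0 < M)
    (hT : 9 / 10 * (n : ℝ) ≤ T) (hTn : T ≤ n) (hB : B ≤ n / (100 * M)) (hnM : 100 * M ≤ n)
    (hE : ((Ex n W w).card : ℝ) ≤ n / (100 * M)) (c : ℤ)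
    (hc : ((zeros T M W c).card : ℝ) ≤ B) : B < (ones T M W ((w : ℤ) - 2 * c)).card := by
  classical
  have hM' : (0 : ℝ) < M := by exact_mod_cast hM
  have hM1 : (1 : ℝ) ≤ M := by exact_mod_cast hM
  have hnM' : (100 : ℝ) * M ≤ n := by exact_mod_cast hnM
  have hn : (0 : ℝ) < n := by linarith
  have hn100 : 100 ≤ n := by
    have : (100 : ℝ) ≤ n := by linarith
    exact_mod_cast this
  have hT9 : 9 * n ≤ 10 * T := by
    have : (9 : ℝ) * n ≤ 10 * T := by linarith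
    exact_mod_cast this
  set E' : Finset ℕ := ((Ioc 0 n).filter (fun q => 2 * q ∈ Ex n W w)) with hE'
  have hE'c : E'.card ≤ (Ex n W w).card := by
    refine Finset.card_le_card_of_injOn (fun q => 2 * q) ?_ ?_
    · intro x hx
      exact Finset.mem_coe.2 (mem_filter.1 (Finset.mem_coe.1 hx)).2
    · intro x _ y _ hxy
      simp only at hxy
      omega
  have hE'r : (E'.card : ℝ) ≤ n / (100 * M) := by
    have : (E'.card : ℝ) ≤ ((Ex n W w).card : ℝ) := by exact_mod_cast hE'c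
    linarith
  have hZ : ((zeros T M W c ∪ E').card : ℝ) ≤ B + n / (100 * M) := by
    have := Finset.card_union_le (zeros T M W c) E'
    have h2 : ((zeros T M W c ∪ E').card : ℝ) ≤ ((zeros T M W c).card : ℝ) + (E'.card : ℝ) := by
      exact_mod_cast this
    linarith
  have hwle := h.le
  have hrefl : ∀ q, 2 * n / 3 < q → q ≤ T → q ∉ zeros T M W c ∪ E' →
      2 * q < w ∧ (2 * q ∈ W ↔ w - 2 * q ∉ W) := by
    intro q hq1 hq2 hq4
    rw [mem_union, not_or] at hq4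
    have hnE : 2 * q ∉ Ex n W w := by
      intro hx
      exact hq4.2 (mem_filter.2 ⟨mem_Ioc.2 ⟨by omega, by omega⟩, hx⟩)
    exact notMem_Ex hnE (by omega) (by omega)
  have key := REL_count M (2 * n / 3) T c hM (by omega) (zeros T M W c ∪ E')
    (B + n / (100 * M)) hZ (ones T M W ((w : ℤ) - 2 * c)) (fun q => w - 2 * q) (by
      intro q hq1 hq2 hq3 hq4
      have hr := hrefl q hq1 hq2 hq4
      rw [mem_union, not_or] at hq4
      have hqW : q ∈ W := by
        by_contra hqW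
        exact hq4.1 (mem_zeros.2 ⟨⟨by omega, by omega⟩, hq3, hqW⟩)
      have h2q : 2 * q ∉ W := h.sys.dblHigh q (by omega) (by omega) hqW
      have hin : w - 2 * q ∈ W := by
        by_contra hx
        exact h2q (hr.2.2 hx)
      refine mem_ones.2 ⟨⟨by have := hr.1; omega, by omega⟩, ?_, hin⟩
      rw [Nat.cast_sub hr.1.le]
      push_cast
      exact (Int.ModEq.refl (w : ℤ)).sub (hq3.mul_left 2)) (by
      intro x y hx1 hx2 hx3 hy1 hy2 hy3 hxy
      have ha := (hrefl x hx1 hx2 hx3).1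
      have hb := (hrefl y hy1 hy2 hy3).1
      omega)
  have hu : (n : ℝ) / (100 * M) = (n / M) / 100 := by field_simp
  have hv : (100 : ℝ) ≤ n / M := by rw [le_div_iff₀ hM']; exact hnM'
  have hfl : ((2 * n / 3 : ℕ) : ℝ) ≤ 2 * n / 3 := by
    have : ((2 * n / 3 : ℕ) : ℝ) ≤ ((2 * n : ℕ) : ℝ) / (3 : ℕ) := Nat.cast_div_le
    push_cast at this
    exact this
  have hw : (23 / 100 : ℝ) * (n / M) ≤ ((T : ℝ) - (2 * n / 3 : ℕ)) / M := by
    rw [mul_div_assoc']
    apply div_le_div_of_nonneg_right _ hM'.le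
    linarith
  rw [hu] at hB key
  linarith

/-- The class of `c' - c`. -/
theorem REL3 {ε B δ : ℝ} {n w M q T : ℕ} {W : Finset ℕ} (h : Ctx ε n w W) (hε1 : ε ≤ 1 / 100)
    (hM : 0 < M) (hq : 0 < q) (hMq : ∀ p : ℕ, p.Prime → (p ∣ M ↔ p ≤ q))
    (hT : 96 / 100 * (n : ℝ) ≤ T) (hTn : T ≤ n) (hB : B ≤ n / (100 * M)) (hnM : 1000 * M ≤ n)
    (hE : ((Ex n W w).card : ℝ) ≤ n / (100 * M)) (hδ : 0 < δ) (hδ1 : δ ≤ 1 / 100)
    (hgood : (1 / δ) * ((n : ℝ) / (M * q) + Real.log (2 * n + 1) + 1) ≤ n / (100 * M))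
    (hlog : (Nat.log 2 (2 * n + 1) : ℝ) ≤ n / (100 * M)) (c c' : ℤ)
    (hc : ((zeros T M W c).card : ℝ) ≤ B) (hc' : ((ones T M W c').card : ℝ) ≤ B)
    (hcop : ∀ p : ℕ, p.Prime → p ∣ M → (p : ℤ) ∣ c → ¬ (p : ℤ) ∣ (w : ℤ) - c') :
    B < (ones T M W (c' - c)).card := by
  classical
  have hM' : (0 : ℝ) < M := by exact_mod_cast hM
  have hM1 : (1 : ℝ) ≤ M := by exact_mod_cast hM
  have hnM' : (1000 : ℝ) * M ≤ n := by exact_mod_cast hnM
  have hn : (0 : ℝ) < n := by linarith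
  have hn1000 : 1000 ≤ n := by
    have : (1000 : ℝ) ≤ n := by linarith
    exact_mod_cast this
  have hT96 : 96 * n ≤ 100 * T := by
    have : (96 : ℝ) * n ≤ 100 * T := by linarith
    exact_mod_cast this
  have hwle := h.le
  have hwlow : 199 * n ≤ 100 * w := by
    have h1 := h.low
    have h2 : (199 : ℝ) * n ≤ 100 * w := by nlinarith
    exact_mod_cast h2
  have hu : (n : ℝ) / (100 * M) = (n / M) / 100 := by field_simp
  have hv : (1000 : ℝ) ≤ n / M := by rw [le_div_iff₀ hM']; exact hnM'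
  -- the choice of `r`
  obtain ⟨r, hr1, hr2, hrc, hrW, hrE, hrR⟩ : ∃ r : ℕ, 9 * n / 10 < r ∧ r ≤ 19 * n / 20 ∧
      (r : ℤ) ≡ c' [ZMOD M] ∧ r ∉ W ∧ r ∉ Ex n W w ∧ rsum q (w - r) ≤ δ := by
    by_contra hcon
    push Not at hcon
    set G := (Icc 1 n).filter (fun r : ℕ => (r : ℤ) ≡ c' [ZMOD M] ∧ r < w ∧ δ < rsum q (w - r))
      with hG
    have hGc := GOOD M q n w c' hM hq (fun p hp hd => (hMq p hp).1 hd) hwle hδ
    rw [← hG] at hGc
    have hZ : ((ones T M W c' ∪ (Ex n W w ∪ G)).card : ℝ) ≤ B + (n / (100 * M) + n / (100 * M)) := by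
      have h1 := Finset.card_union_le (ones T M W c') (Ex n W w ∪ G)
      have h2 := Finset.card_union_le (Ex n W w) G
      have h3 : ((ones T M W c' ∪ (Ex n W w ∪ G)).card : ℝ) ≤
          ((ones T M W c').card : ℝ) + (((Ex n W w).card : ℝ) + (G.card : ℝ)) := by
        have : (ones T M W c' ∪ (Ex n W w ∪ G)).card ≤
          (ones T M W c').card + ((Ex n W w).card + G.card) := by omega
        exact_mod_cast this
      linarith
    have key := REL_count M (9 * n / 10) (19 * n / 20) c' hM (by omega)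
      (ones T M W c' ∪ (Ex n W w ∪ G)) _ hZ ∅ id (by
        intro x hx1 hx2 hx3 hx4
        exfalso
        rw [mem_union, mem_union, not_or, not_or] at hx4
        obtain ⟨h4, h5, h6⟩ := hx4
        have hxW : x ∉ W := by
          intro hxW
          exact h4 (mem_ones.2 ⟨⟨by omega, by omega⟩, hx3, hxW⟩)
        have h7 := hcon x hx1 hx2 hx3 hxW h5
        exact h6 (mem_filter.2 ⟨mem_Icc.2 ⟨by omega, by omega⟩, hx3, by omega, h7⟩))
      (by intro x y _ _ _ _ _ _ hxy; exact hxy)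
    have hfa : ((9 * n / 10 : ℕ) : ℝ) ≤ 9 * n / 10 := by
      have : ((9 * n / 10 : ℕ) : ℝ) ≤ ((9 * n : ℕ) : ℝ) / (10 : ℕ) := Nat.cast_div_le
      push_cast at this
      exact this
    have hfb : (19 * n : ℝ) / 20 - 1 ≤ ((19 * n / 20 : ℕ) : ℝ) := by
      have h1 : 19 * n ≤ 20 * (19 * n / 20) + 19 := by omega
      have h2 : (19 * n : ℝ) ≤ 20 * ((19 * n / 20 : ℕ) : ℝ) + 19 := by exact_mod_cast h1
      linarith
    have hn1000' : (1000 : ℝ) ≤ n := by exact_mod_cast hn1000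
    have hw : (49 / 1000 : ℝ) * (n / M) ≤ (((19 * n / 20 : ℕ) : ℝ) - (9 * n / 10 : ℕ)) / M := by
      rw [mul_div_assoc']
      apply div_le_div_of_nonneg_right _ hM'.le
      linarith
    rw [Finset.card_empty, Nat.cast_zero] at key
    rw [hu] at hB key
    linarith
  have hrw : r < w := by omega
  -- the bad set for `p`
  set Cb := (Icc 1 n).filter (fun p : ℕ => (p : ℤ) ≡ c [ZMOD M] ∧
      ∃ l ∈ (w - r).primeFactors, q < l ∧ l ∣ p) with hCb
  have hCbc := COPC M q n (w - r) c hM (fun p hp hd => (hMq p hp).1 hd) (Nat.sub_pos_of_lt hrw)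
  rw [← hCb] at hCbc
  have hlog2 : (Nat.log 2 (w - r) : ℝ) ≤ n / (100 * M) := by
    have : Nat.log 2 (w - r) ≤ Nat.log 2 (2 * n + 1) := Nat.log_mono_right (by omega)
    have h2 : (Nat.log 2 (w - r) : ℝ) ≤ (Nat.log 2 (2 * n + 1) : ℝ) := by exact_mod_cast this
    linarith
  have hCbr : (Cb.card : ℝ) ≤ n / (100 * M) + n / (100 * M) := by
    have h1 : rsum q (w - r) * (n / M) ≤ (1 / 100) * (n / M) :=
      mul_le_mul_of_nonneg_right (hrR.trans hδ1) (by positivity)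
    rw [hu] at hlog2 ⊢
    linarith
  set E' : Finset ℕ := (Ioo 0 r).filter (fun p => r - p ∈ Ex n W w) with hE'
  have hE'c : E'.card ≤ (Ex n W w).card := by
    refine Finset.card_le_card_of_injOn (fun p => r - p) ?_ ?_
    · intro x hx
      exact Finset.mem_coe.2 (mem_filter.1 (Finset.mem_coe.1 hx)).2
    · intro x hx y hy hxy
      have h1 := mem_Ioo.1 (mem_filter.1 (Finset.mem_coe.1 hx)).1
      have h2 := mem_Ioo.1 (mem_filter.1 (Finset.mem_coe.1 hy)).1
      simp only at hxy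
      omega
  have hE'r : (E'.card : ℝ) ≤ n / (100 * M) := by
    have : (E'.card : ℝ) ≤ ((Ex n W w).card : ℝ) := by exact_mod_cast hE'c
    linarith
  have hZ : ((zeros T M W c ∪ (E' ∪ Cb)).card : ℝ) ≤
      B + (n / (100 * M) + (n / (100 * M) + n / (100 * M))) := by
    have h1 := Finset.card_union_le (zeros T M W c) (E' ∪ Cb)
    have h2 := Finset.card_union_le E' Cb
    have h3 : ((zeros T M W c ∪ (E' ∪ Cb)).card : ℝ) ≤
        ((zeros T M W c).card : ℝ) + ((E'.card : ℝ) + (Cb.card : ℝ)) := by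
      have : (zeros T M W c ∪ (E' ∪ Cb)).card ≤
        (zeros T M W c).card + (E'.card + Cb.card) := by omega
      exact_mod_cast this
    linarith
  have key := REL_count M 0 (r - 1) c hM (Nat.zero_le _) (zeros T M W c ∪ (E' ∪ Cb)) _ hZ
    (ones T M W (c' - c)) (fun p => r - p) (by
      intro p hp1 hp2 hp3 hp4
      rw [mem_union, mem_union, not_or, not_or] at hp4
      obtain ⟨h4, h5, h6⟩ := hp4
      have hpr : p < r := by omega
      have hpW : p ∈ W := by
        by_contra hpW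
        exact h4 (mem_zeros.2 ⟨⟨by omega, by omega⟩, hp3, hpW⟩)
      have hpE : r - p ∉ Ex n W w := fun hx => h5 (mem_filter.2 ⟨mem_Ioo.2 ⟨hp1, hpr⟩, hx⟩)
      have hcp : Nat.Coprime p (w - r) := by
        rw [Nat.coprime_iff_gcd_eq_one]
        by_contra hg
        obtain ⟨l, hl, hlg⟩ := Nat.exists_prime_and_dvd hg
        have hl1 : l ∣ p := hlg.trans (Nat.gcd_dvd_left _ _)
        have hl2 : l ∣ w - r := hlg.trans (Nat.gcd_dvd_right _ _)
        by_cases hlq : l ≤ q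
        · have hlM : l ∣ M := (hMq l hl).2 hlq
          refine hcop l hl hlM ?_ ?_
          · have h7 : (l : ℤ) ∣ c - p := (Int.natCast_dvd_natCast.2 hlM).trans hp3.dvd
            have h8 : (l : ℤ) ∣ (p : ℤ) := Int.natCast_dvd_natCast.2 hl1
            have := dvd_add h7 h8
            simpa using this
          · have h7 : (l : ℤ) ∣ c' - r := (Int.natCast_dvd_natCast.2 hlM).trans hrc.dvd
            have h8 : (l : ℤ) ∣ ((w - r : ℕ) : ℤ) := Int.natCast_dvd_natCast.2 hl2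
            rw [Nat.cast_sub hrw.le] at h8
            have := dvd_sub h8 h7
            have h9 : (w : ℤ) - r - (c' - r) = w - c' := by ring
            rwa [h9] at this
        · exact h6 (mem_filter.2 ⟨mem_Icc.2 ⟨by omega, by omega⟩, hp3, l,
            Nat.mem_primeFactors.2 ⟨hl, hl2, (Nat.sub_pos_of_lt hrw).ne'⟩, by omega, hl1⟩)
      have hin := LEMS h hrW hrE hp1 hpr (by omega) (by omega) (Or.inl (by omega)) hcp hpE hpW
      refine mem_ones.2 ⟨⟨by omega, by omega⟩, ?_, hin⟩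
      rw [Nat.cast_sub hpr.le]
      exact hrc.sub hp3) (by
      intro x y hx1 hx2 hx3 hy1 hy2 hy3 hxy
      omega)
  have hw : (89 / 100 : ℝ) * (n / M) ≤ (((r - 1 : ℕ) : ℝ) - (0 : ℕ)) / M := by
    rw [mul_div_assoc']
    apply div_le_div_of_nonneg_right _ hM'.le
    have h1 : 89 * n ≤ 100 * (r - 1) := by omega
    have h2 : (89 : ℝ) * n ≤ 100 * ((r - 1 : ℕ) : ℝ) := by exact_mod_cast h1
    push_cast at h2 ⊢
    linarith
  rw [hu] at hB key
  linarith

end Pool.Agent.LR2
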