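import Mathlib
import Pool.Agent.LR2.Defs
import Pool.Agent.LR2.Cls

namespace Pool.Agent.LR2

open Finset

lemma SHIFT_dvd_modEq {M r : ℕ} : (r : ℤ) ≡ 0 [ZMOD M] ↔ M ∣ r := by
  rw [Int.modEq_zero_iff_dvd]
  exact Int.natCast_dvd_natCast

lemma SHIFT_sub_modEq {M p τ : ℕ} {a : ℤ} (hτ : M ∣ τ) (hle : τ ≤ p) (h : (p : ℤ) ≡ a [ZMOD M]) :
    ((p - τ : ℕ) : ℤ) ≡ a [ZMOD M] := by
  rw [Nat.cast_sub hle]
  have h1 : ((τ : ℕ) : ℤ) ≡ 0 [ZMOD M] := SHIFT_dvd_modEq.2 hτ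
  have h2 := h.sub h1
  rwa [sub_zero] at h2

/-- the points moved by a translation -/
def SHIFT_set (T M : ℕ) (W : Finset ℕ) (τ : ℕ) (a : ℤ) : Finset ℕ :=
  (Ioc τ T).filter (fun p : ℕ => (p : ℤ) ≡ a [ZMOD M] ∧ ¬ (p ∈ W ↔ p - τ ∈ W))

lemma SHIFT_mem {T M τ p : ℕ} {W : Finset ℕ} {a : ℤ} :
    p ∈ SHIFT_set T M W τ a ↔
      (τ < p ∧ p ≤ T) ∧ (p : ℤ) ≡ a [ZMOD M] ∧ ¬ (p ∈ W ↔ p - τ ∈ W) := by
  simp [SHIFT_set]

lemma SHIFT_add {T M σ τ : ℕ} {W : Finset ℕ} {D1 D2 : ℝ} (hσ : M ∣ σ)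
    (h1 : ∀ a : ℤ, ((SHIFT_set T M W σ a).card : ℝ) ≤ D1)
    (h2 : ∀ a : ℤ, ((SHIFT_set T M W τ a).card : ℝ) ≤ D2) (a : ℤ) :
    ((SHIFT_set T M W (σ + τ) a).card : ℝ) ≤ D1 + D2 := by
  have hsub : SHIFT_set T M W (σ + τ) a ⊆ SHIFT_set T M W σ a ∪
      (SHIFT_set T M W τ a).image (fun x => x + σ) := by
    intro p hp
    obtain ⟨⟨hp1, hp2⟩, hp3, hp4⟩ := SHIFT_mem.1 hp
    rw [mem_union]
    by_cases h : (p ∈ W ↔ p - σ ∈ W)
    · right
      rw [mem_image]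
      refine ⟨p - σ, SHIFT_mem.2 ⟨⟨by omega, by omega⟩, SHIFT_sub_modEq hσ (by omega) hp3, ?_⟩,
        by omega⟩
      intro h'
      apply hp4
      rw [h, h']
      rw [show p - σ - τ = p - (σ + τ) by omega]
    · left
      exact SHIFT_mem.2 ⟨⟨by omega, hp2⟩, hp3, h⟩
  have hc : (SHIFT_set T M W (σ + τ) a).card ≤ (SHIFT_set T M W σ a).card +
      (SHIFT_set T M W τ a).card :=
    (card_le_card hsub).trans ((card_union_le _ _).trans (Nat.add_le_add_left card_image_le _))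
  have hc' : ((SHIFT_set T M W (σ + τ) a).card : ℝ) ≤ (SHIFT_set T M W σ a).card +
      (SHIFT_set T M W τ a).card := by exact_mod_cast hc
  linarith [h1 a, h2 a]

/-- From reflections to translations. `U` is the set of usable multiples of `M`. -/
theorem SHIFT {s D : ℝ} {n M : ℕ} {W : Finset ℕ} (hs : 0 < s) (hs1 : s ≤ 1 / 1000) (hM : 0 < M)
    (hn : 100 * M ≤ s * n) (U : ℕ → Prop)
    (hU : ∀ r, U r → M ∣ r ∧ ∀ a : ℤ,
      (((Ico 1 r).filter (fun p : ℕ => (p : ℤ) ≡ a [ZMOD M] ∧ ¬ (p ∈ W ↔ r - p ∈ W))).card : ℝ) ≤ D)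
    [DecidablePred U]
    (hfew : (((Icc 1 n).filter (fun r : ℕ => M ∣ r ∧ 7 / 10 * (n : ℝ) ≤ r ∧ (r : ℝ) ≤ (1 - s) * n ∧
      ¬ U r)).card : ℝ) ≤ s / 8 * (n / M)) (T : ℕ) (hT : (T : ℝ) ≤ (1 - 2 * s) * n)
    (τ : ℕ) (hτ : M ∣ τ) (hτn : (τ : ℝ) ≤ 29 / 100 * n) (a : ℤ) :
    (((Ioc τ T).filter (fun p : ℕ => (p : ℤ) ≡ a [ZMOD M] ∧ ¬ (p ∈ W ↔ p - τ ∈ W))).card : ℝ) ≤
      2 * D := by
  have hMR : (0 : ℝ) < M := by exact_mod_cast hM
  have hM1 : (1 : ℝ) ≤ M := by exact_mod_cast hM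
  have hn0 : (0 : ℝ) < n := by
    by_contra hc
    have h0 : (n : ℝ) = 0 := le_antisymm (not_lt.1 hc) (Nat.cast_nonneg n)
    rw [h0] at hn
    nlinarith
  -- a usable multiple
  obtain ⟨r, hr1, hr2, hr3, hr4, hr5⟩ : ∃ r : ℕ, M ∣ r ∧ (1 - 2 * s) * (n : ℝ) < r ∧
      (r : ℝ) ≤ (1 - s) * n ∧ U r ∧ U (r - τ) := by
    by_contra hcon
    push Not at hcon
    set A : ℕ := ⌊(1 - 2 * s) * (n : ℝ)⌋₊ with hA
    set B : ℕ := ⌊(1 - s) * (n : ℝ)⌋₊ with hB
    have hA0 : (0 : ℝ) ≤ (1 - 2 * s) * n := mul_nonneg (by linarith) hn0.le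
    have hB0 : (0 : ℝ) ≤ (1 - s) * n := mul_nonneg (by linarith) hn0.le
    have hA1 : (A : ℝ) ≤ (1 - 2 * s) * n := Nat.floor_le hA0
    have hA2 : (1 - 2 * s) * (n : ℝ) < A + 1 := Nat.lt_floor_add_one _
    have hB1 : (B : ℝ) ≤ (1 - s) * n := Nat.floor_le hB0
    have hB2 : (1 - s) * (n : ℝ) < B + 1 := Nat.lt_floor_add_one _
    have hAB : A ≤ B := Nat.floor_mono (by nlinarith)
    have hlow := CLS_lower A B M hAB hM 0
    set R := (Ioc A B).filter (fun p : ℕ => (p : ℤ) ≡ 0 [ZMOD M]) with hR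
    set F := (Icc 1 n).filter (fun r : ℕ => M ∣ r ∧ 7 / 10 * (n : ℝ) ≤ r ∧
      (r : ℝ) ≤ (1 - s) * n ∧ ¬ U r) with hF
    have hRmem : ∀ r ∈ R, M ∣ r ∧ (1 - 2 * s) * (n : ℝ) < r ∧ (r : ℝ) ≤ (1 - s) * n := by
      intro r hr
      rw [hR, mem_filter, mem_Ioc] at hr
      refine ⟨SHIFT_dvd_modEq.1 hr.2, ?_, ?_⟩
      · have : (A : ℝ) + 1 ≤ r := by exact_mod_cast hr.1.1
        linarith
      · have : (r : ℝ) ≤ B := by exact_mod_cast hr.1.2
        linarith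
    have hsub : R ⊆ F ∪ F.image (fun x => x + τ) := by
      intro r hr
      obtain ⟨h1, h2, h3⟩ := hRmem r hr
      have hrn : (r : ℝ) ≤ n := by nlinarith
      have hrn' : r ≤ n := by exact_mod_cast hrn
      rw [mem_union]
      by_cases hUr : U r
      · right
        have hUt := hcon r h1 h2 h3 hUr
        have hτr : (τ : ℝ) ≤ r := by nlinarith
        have hτr' : τ ≤ r := by exact_mod_cast hτr
        rw [mem_image]
        refine ⟨r - τ, ?_, by omega⟩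
        have hcast : ((r - τ : ℕ) : ℝ) = r - τ := by rw [Nat.cast_sub hτr']
        have h7 : 7 / 10 * (n : ℝ) ≤ ((r - τ : ℕ) : ℝ) := by
          rw [hcast]; nlinarith
        rw [hF, mem_filter, mem_Icc]
        refine ⟨⟨?_, by omega⟩, Nat.dvd_sub h1 hτ, h7, ?_, hUt⟩
        · have : (0 : ℝ) < ((r - τ : ℕ) : ℝ) := by nlinarith
          have : 0 < r - τ := by exact_mod_cast this
          omega
        · rw [hcast]
          have : (0 : ℝ) ≤ τ := Nat.cast_nonneg τ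
          linarith
      · left
        rw [hF, mem_filter, mem_Icc]
        refine ⟨⟨?_, hrn'⟩, h1, by nlinarith, h3, hUr⟩
        have : (0 : ℝ) < r := by nlinarith
        have : 0 < r := by exact_mod_cast this
        omega
    have hcard : R.card ≤ F.card + F.card :=
      (card_le_card hsub).trans ((card_union_le _ _).trans (Nat.add_le_add_left card_image_le _))
    have hcard' : (R.card : ℝ) ≤ F.card + F.card := by exact_mod_cast hcard
    have h5 : ((B : ℝ) - A) / M - 1 ≤ s / 4 * (n / M) := by linarith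
    have h6 : (s * n - 1) / M ≤ ((B : ℝ) - A) / M := by
      apply div_le_div_of_nonneg_right _ hMR.le
      linarith
    have h7 : (s * n - 1) / M - 1 ≤ s / 4 * (n / M) := by linarith
    have h8 : s / 4 * (n / M) = (s / 4 * n) / M := by ring
    rw [h8] at h7
    have h9 : (s * n - 1) / M - 1 = (s * n - 1 - M) / M := by
      field_simp
    rw [h9, div_le_div_iff_of_pos_right hMR] at h7
    nlinarith
  -- the two reflections
  have hτr : (τ : ℝ) ≤ r := by nlinarith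
  have hτr' : τ ≤ r := by exact_mod_cast hτr
  have hTr : (T : ℝ) < r := by linarith
  have hTr' : T < r := by exact_mod_cast hTr
  obtain ⟨_, e1⟩ := hU r hr4
  obtain ⟨_, e2⟩ := hU (r - τ) hr5
  have hsub : (Ioc τ T).filter (fun p : ℕ => (p : ℤ) ≡ a [ZMOD M] ∧ ¬ (p ∈ W ↔ p - τ ∈ W)) ⊆
      (Ico 1 r).filter (fun p : ℕ => (p : ℤ) ≡ a [ZMOD M] ∧ ¬ (p ∈ W ↔ r - p ∈ W)) ∪
      ((Ico 1 (r - τ)).filter (fun p : ℕ => (p : ℤ) ≡ a [ZMOD M] ∧
        ¬ (p ∈ W ↔ (r - τ) - p ∈ W))).image (fun x => x + τ) := by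
    intro p hp
    rw [mem_filter, mem_Ioc] at hp
    obtain ⟨⟨hp1, hp2⟩, hp3, hp4⟩ := hp
    rw [mem_union]
    by_cases h : (p ∈ W ↔ r - p ∈ W)
    · right
      rw [mem_image]
      refine ⟨p - τ, ?_, by omega⟩
      rw [mem_filter, mem_Ico]
      refine ⟨⟨by omega, by omega⟩, SHIFT_sub_modEq hτ (by omega) hp3, ?_⟩
      intro h'
      apply hp4
      rw [h, h']
      rw [show r - τ - (p - τ) = r - p by omega]
    · left
      rw [mem_filter, mem_Ico]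
      exact ⟨⟨by omega, by omega⟩, hp3, h⟩
  have hc := (card_le_card hsub).trans ((card_union_le _ _).trans
    (Nat.add_le_add_left card_image_le _))
  have hc' : (((Ioc τ T).filter (fun p : ℕ => (p : ℤ) ≡ a [ZMOD M] ∧
      ¬ (p ∈ W ↔ p - τ ∈ W))).card : ℝ) ≤
      (((Ico 1 r).filter (fun p : ℕ => (p : ℤ) ≡ a [ZMOD M] ∧ ¬ (p ∈ W ↔ r - p ∈ W))).card : ℝ) +
      (((Ico 1 (r - τ)).filter (fun p : ℕ => (p : ℤ) ≡ a [ZMOD M] ∧
        ¬ (p ∈ W ↔ (r - τ) - p ∈ W))).card : ℝ) := by exact_mod_cast hc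
  linarith [e1 a, e2 a]

/-- All translations. -/
theorem CHAIN {D L : ℝ} {M T : ℕ} {W : Finset ℕ} (hM : 0 < M) (hL : (T : ℝ) / 4 + M ≤ L)
    (h : ∀ τ : ℕ, M ∣ τ → (τ : ℝ) ≤ L → ∀ a : ℤ,
      (((Ioc τ T).filter (fun p : ℕ => (p : ℤ) ≡ a [ZMOD M] ∧ ¬ (p ∈ W ↔ p - τ ∈ W))).card : ℝ) ≤ D)
    (τ : ℕ) (hτ : M ∣ τ) (hτT : τ ≤ T) (a : ℤ) :
    (((Ioc τ T).filter (fun p : ℕ => (p : ℤ) ≡ a [ZMOD M] ∧ ¬ (p ∈ W ↔ p - τ ∈ W))).card : ℝ) ≤
      4 * D := by
  obtain ⟨t, rfl⟩ := hτ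
  have hMR : (0 : ℝ) < M := by exact_mod_cast hM
  have hgood : ∀ u : ℕ, 4 * u ≤ t + 3 → ∀ a : ℤ,
      ((SHIFT_set T M W (M * u) a).card : ℝ) ≤ D := by
    intro u hu
    apply h (M * u) (dvd_mul_right M u)
    refine le_trans ?_ hL
    have h1 : (4 : ℝ) * u ≤ t + 3 := by exact_mod_cast hu
    have h2 : ((M * t : ℕ) : ℝ) ≤ T := by exact_mod_cast hτT
    push_cast at h2 ⊢
    nlinarith
  have h1 := hgood (t / 4) (by omega)
  have h2 := hgood ((t + 1) / 4) (by omega)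
  have h3 := hgood ((t + 2) / 4) (by omega)
  have h4 := hgood ((t + 3) / 4) (by omega)
  have k1 := SHIFT_add (dvd_mul_right M (t / 4)) h1 h2
  have k2 := SHIFT_add (dvd_mul_right M ((t + 2) / 4)) h3 h4
  have k3 := SHIFT_add (Dvd.dvd.add (dvd_mul_right M (t / 4)) (dvd_mul_right M ((t + 1) / 4)))
    k1 k2 a
  have e : M * (t / 4) + M * ((t + 1) / 4) + (M * ((t + 2) / 4) + M * ((t + 3) / 4)) = M * t := by
    rw [← mul_add, ← mul_add, ← mul_add]
    congr 1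
    omega
  rw [e] at k3
  have k4 : ((SHIFT_set T M W (M * t) a).card : ℝ) ≤ 4 * D := by linarith
  exact k4

/-- Every class is nearly constant. -/
theorem CONST {D : ℝ} {M T : ℕ} {W : Finset ℕ} (hM : 0 < M) (a : ℤ)
    (h : ∀ τ : ℕ, M ∣ τ → τ ≤ T →
      (((Ioc τ T).filter (fun p : ℕ => (p : ℤ) ≡ a [ZMOD M] ∧ ¬ (p ∈ W ↔ p - τ ∈ W))).card : ℝ) ≤ D) :
    ((ones T M W a).card : ℝ) * (zeros T M W a).card ≤ (T / M) * D := by
  have hMR : (0 : ℝ) < M := by exact_mod_cast hM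
  have hD : 0 ≤ D := le_trans (Nat.cast_nonneg _) (h 0 (dvd_zero M) (Nat.zero_le T))
  set Θ : Finset ℕ := (Icc 1 (T / M)).image (fun u => M * u) with hΘ
  have hmod : ∀ p q : ℕ, (p : ℤ) ≡ a [ZMOD M] → (q : ℤ) ≡ a [ZMOD M] → p ≤ q → M ∣ q - p := by
    intro p q hp hq hpq
    have h1 := (hp.trans hq.symm).dvd
    have h2 : ((M : ℕ) : ℤ) ∣ ((q - p : ℕ) : ℤ) := by rw [Nat.cast_sub hpq]; exact h1
    exact Int.natCast_dvd_natCast.1 h2
  have hmemΘ : ∀ d, 0 < d → d ≤ T → M ∣ d → d ∈ Θ := by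
    rintro d h0 h1 ⟨u, rfl⟩
    rw [hΘ, mem_image]
    refine ⟨u, mem_Icc.2 ⟨Nat.pos_of_mul_pos_left h0, ?_⟩, rfl⟩
    rw [Nat.le_div_iff_mul_le hM, mul_comm]
    exact h1
  have hle : (ones T M W a ×ˢ zeros T M W a).card ≤
      (Θ.sigma fun τ => SHIFT_set T M W τ a).card := by
    refine card_le_card_of_injOn (fun x => ⟨max x.1 x.2 - min x.1 x.2, max x.1 x.2⟩) ?_ ?_
    · rintro ⟨p, q⟩ hpq
      rw [mem_coe, mem_product] at hpq
      obtain ⟨hp, hq⟩ := hpq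
      obtain ⟨⟨p1, p2⟩, p3, p4⟩ := mem_ones.1 hp
      obtain ⟨⟨q1, q2⟩, q3, q4⟩ := mem_zeros.1 hq
      have hne : p ≠ q := by
        rintro rfl
        exact q4 p4
      rw [mem_coe, mem_sigma]
      rcases lt_or_gt_of_ne hne with hlt | hgt
      · have m1 : max p q = q := max_eq_right hlt.le
        have m2 : min p q = p := min_eq_left hlt.le
        simp only [m1, m2]
        refine ⟨hmemΘ _ (by omega) (by omega) (hmod p q p3 q3 hlt.le),
          SHIFT_mem.2 ⟨⟨by omega, q2⟩, q3, ?_⟩⟩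
        rw [show q - (q - p) = p by omega]
        tauto
      · have m1 : max p q = p := max_eq_left hgt.le
        have m2 : min p q = q := min_eq_right hgt.le
        simp only [m1, m2]
        refine ⟨hmemΘ _ (by omega) (by omega) (hmod q p q3 p3 hgt.le),
          SHIFT_mem.2 ⟨⟨by omega, p2⟩, p3, ?_⟩⟩
        rw [show p - (p - q) = q by omega]
        tauto
    · rintro ⟨p, q⟩ hpq ⟨p', q'⟩ hpq' heq
      rw [mem_coe, mem_product] at hpq hpq'
      obtain ⟨⟨p1, p2⟩, p3, p4⟩ := mem_ones.1 hpq.1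
      obtain ⟨⟨q1, q2⟩, q3, q4⟩ := mem_zeros.1 hpq.2
      obtain ⟨⟨p1', p2'⟩, p3', p4'⟩ := mem_ones.1 hpq'.1
      obtain ⟨⟨q1', q2'⟩, q3', q4'⟩ := mem_zeros.1 hpq'.2
      simp only at p4 q4 p4' q4'
      have h1 : max p q - min p q = max p' q' - min p' q' := congrArg Sigma.fst heq
      have h2 : max p q = max p' q' := by
        have := heq
        simp only [Sigma.mk.injEq] at this
        exact eq_of_heq this.2
      rcases le_total p q with hle | hle <;> rcases le_total p' q' with hle' | hle'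
      · rw [max_eq_right hle, max_eq_right hle', min_eq_left hle, min_eq_left hle'] at h1
        rw [max_eq_right hle, max_eq_right hle'] at h2
        have : p = p' := by omega
        rw [this, h2]
      · exfalso
        rw [max_eq_right hle, max_eq_left hle'] at h2
        rw [h2] at q4
        exact q4 p4'
      · exfalso
        rw [max_eq_left hle, max_eq_right hle'] at h2
        rw [h2] at p4
        exact q4' p4
      · rw [max_eq_left hle, max_eq_left hle', min_eq_right hle, min_eq_right hle'] at h1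
        rw [max_eq_left hle, max_eq_left hle'] at h2
        have : q = q' := by omega
        rw [this, h2]
  rw [card_product, card_sigma] at hle
  have hle' : ((ones T M W a).card : ℝ) * (zeros T M W a).card ≤
      ∑ τ ∈ Θ, ((SHIFT_set T M W τ a).card : ℝ) := by exact_mod_cast hle
  have hsum : ∑ τ ∈ Θ, ((SHIFT_set T M W τ a).card : ℝ) ≤ ∑ _τ ∈ Θ, D := by
    refine sum_le_sum fun τ hτ => ?_
    rw [hΘ, mem_image] at hτ
    obtain ⟨u, hu, rfl⟩ := hτ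
    rw [mem_Icc] at hu
    refine h _ (dvd_mul_right M u) ?_
    calc M * u ≤ M * (T / M) := Nat.mul_le_mul_left M hu.2
      _ ≤ T := Nat.mul_div_le T M
  rw [sum_const, nsmul_eq_mul] at hsum
  have hΘc : (Θ.card : ℝ) ≤ T / M := by
    have h1 : Θ.card ≤ T / M := by
      refine card_image_le.trans ?_
      simp
    calc (Θ.card : ℝ) ≤ ((T / M : ℕ) : ℝ) := by exact_mod_cast h1
      _ ≤ T / M := Nat.cast_div_le
  exact (hle'.trans hsum).trans (mul_le_mul_of_nonneg_right hΘc hD)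

end Pool.Agent.LR2
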