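import Mathlib
import Pool.Agent.LR2.Defs

namespace Pool.Agent.LR2

open Finset

lemma TOT_mod (M x : ℕ) : (x : ℤ) ≡ ((x % M : ℕ) : ℤ) [ZMOD M] := by
  rw [Int.natCast_mod]
  exact (Int.mod_modEq _ _).symm

/-- If every class modulo `M` has few missing speeds then there are few missing speeds up to `T`. -/
theorem TOT_empty {n M T : ℕ} {B : ℝ} {W : Finset ℕ} (hM : 0 < M) (hT : 9 / 10 * (n : ℝ) ≤ T)
    (hW : ∀ x ∈ W, 0 < x) (h : ∀ c : ℤ, ((ones T M W c).card : ℝ) ≤ B) :
    ((W.filter (fun x : ℕ => 3 * x ≤ 2 * n)).card : ℝ) ≤ M * B := by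
  have hsub : W.filter (fun x : ℕ => 3 * x ≤ 2 * n) ⊆
      (range M).biUnion (fun c : ℕ => ones T M W (c : ℤ)) := by
    intro x hx
    rw [mem_filter] at hx
    rw [mem_biUnion]
    refine ⟨x % M, mem_range.2 (Nat.mod_lt _ hM), ?_⟩
    rw [mem_ones]
    refine ⟨⟨hW x hx.1, ?_⟩, TOT_mod M x, hx.1⟩
    have h1 : (3 : ℝ) * x ≤ 2 * n := by exact_mod_cast hx.2
    have h2 : (x : ℝ) ≤ T := by
      have h3 : (0 : ℝ) ≤ n := Nat.cast_nonneg n
      linarith
    exact_mod_cast h2
  have h1 : (W.filter (fun x : ℕ => 3 * x ≤ 2 * n)).card ≤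
      ∑ c ∈ range M, (ones T M W (c : ℤ)).card :=
    (card_le_card hsub).trans card_biUnion_le
  have h2 : ((W.filter (fun x : ℕ => 3 * x ≤ 2 * n)).card : ℝ) ≤
      ∑ c ∈ range M, ((ones T M W (c : ℤ)).card : ℝ) := by
    exact_mod_cast h1
  have h3 : ∑ c ∈ range M, ((ones T M W (c : ℤ)).card : ℝ) ≤ ∑ _c ∈ range M, B :=
    sum_le_sum (fun c _ => h (c : ℤ))
  refine h2.trans (h3.trans ?_)
  simp

/-- If the even classes have few missing speeds and the odd classes few speeds, then there are few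
even missing speeds. -/
theorem TOT_odd {ε B : ℝ} {n w M T : ℕ} {W : Finset ℕ} (h : Ctx ε n w W) (hM : 0 < M)
    (hw : Odd w) (hTw : T < w) (hTn : T ≤ n) (he : ∀ c : ℤ, Even c → ((ones T M W c).card : ℝ) ≤ B)
    (h2 : 2 ∣ M) (ho : ∀ c : ℤ, Odd c → ((zeros T M W c).card : ℝ) ≤ B) :
    ((W.filter (fun x : ℕ => Even x)).card : ℝ) ≤
      M * B + (Ex n W w).card + (2 * n + 1 - 2 * T) := by
  classical
  have hwn := h.le
  set S1 : Finset ℕ := ((range M).filter (fun c : ℕ => Even c)).biUnion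
    (fun c : ℕ => ones T M W (c : ℤ)) with hS1
  set S2 : Finset ℕ := ((range M).filter (fun c : ℕ => ¬ Even c)).biUnion
    (fun c : ℕ => zeros T M W (c : ℤ)) with hS2
  have hsub : W.filter (fun x : ℕ => Even x) ⊆
      ((S1 ∪ S2.image (fun y : ℕ => w - y)) ∪ Ex n W w) ∪ Ioo T (w - T) := by
    intro x hx
    rw [mem_filter] at hx
    have hx0 := h.sys.pos x hx.1
    have hxn := h.sys.le x hx.1
    rw [mem_union, mem_union, mem_union]
    by_cases hxE : x ∈ Ex n W w
    · exact Or.inl (Or.inr hxE)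
    · obtain ⟨hxw, hxi⟩ := notMem_Ex hxE hx0 hxn
      by_cases hxT : x ≤ T
      · refine Or.inl (Or.inl (Or.inl ?_))
        rw [hS1, mem_biUnion]
        refine ⟨x % M, ?_, ?_⟩
        · rw [mem_filter]
          refine ⟨mem_range.2 (Nat.mod_lt _ hM), ?_⟩
          rw [Nat.even_iff, Nat.mod_mod_of_dvd _ h2]
          exact Nat.even_iff.1 hx.2
        · rw [mem_ones]
          exact ⟨⟨hx0, hxT⟩, TOT_mod M x, hx.1⟩
      · push Not at hxT
        by_cases hxw2 : w - x ≤ T
        · refine Or.inl (Or.inl (Or.inr ?_))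
          rw [mem_image]
          refine ⟨w - x, ?_, by omega⟩
          rw [hS2, mem_biUnion]
          refine ⟨(w - x) % M, ?_, ?_⟩
          · rw [mem_filter]
            refine ⟨mem_range.2 (Nat.mod_lt _ hM), ?_⟩
            rw [Nat.even_iff, Nat.mod_mod_of_dvd _ h2]
            have h3 := Nat.even_iff.1 hx.2
            have h4 := Nat.odd_iff.1 hw
            omega
          · rw [mem_zeros]
            exact ⟨⟨by omega, hxw2⟩, TOT_mod M _, hxi.1 hx.1⟩
        · refine Or.inr ?_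
          rw [mem_Ioo]
          omega
  have hcard := card_le_card hsub
  have hc1 := card_union_le ((S1 ∪ S2.image (fun y : ℕ => w - y)) ∪ Ex n W w) (Ioo T (w - T))
  have hc2 := card_union_le (S1 ∪ S2.image (fun y : ℕ => w - y)) (Ex n W w)
  have hc3 := card_union_le S1 (S2.image (fun y : ℕ => w - y))
  have hc4 : (S2.image (fun y : ℕ => w - y)).card ≤ S2.card := card_image_le
  have hc5 : (Ioo T (w - T)).card = w - T - T - 1 := Nat.card_Ioo _ _
  have hs1 : (S1.card : ℝ) ≤ ∑ c ∈ (range M).filter (fun c : ℕ => Even c), B := by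
    have h3 : S1.card ≤ ∑ c ∈ (range M).filter (fun c : ℕ => Even c), (ones T M W (c : ℤ)).card :=
      card_biUnion_le
    have h4 : (S1.card : ℝ) ≤ ∑ c ∈ (range M).filter (fun c : ℕ => Even c),
        ((ones T M W (c : ℤ)).card : ℝ) := by exact_mod_cast h3
    refine h4.trans (sum_le_sum ?_)
    intro c hc
    rw [mem_filter] at hc
    exact he (c : ℤ) (by exact_mod_cast hc.2)
  have hs2 : (S2.card : ℝ) ≤ ∑ c ∈ (range M).filter (fun c : ℕ => ¬ Even c), B := by
    have h3 : S2.card ≤ ∑ c ∈ (range M).filter (fun c : ℕ => ¬ Even c),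
        (zeros T M W (c : ℤ)).card := card_biUnion_le
    have h4 : (S2.card : ℝ) ≤ ∑ c ∈ (range M).filter (fun c : ℕ => ¬ Even c),
        ((zeros T M W (c : ℤ)).card : ℝ) := by exact_mod_cast h3
    refine h4.trans (sum_le_sum ?_)
    intro c hc
    rw [mem_filter, Nat.not_even_iff_odd] at hc
    exact ho (c : ℤ) (by exact_mod_cast hc.2)
  have hs : (S1.card : ℝ) + S2.card ≤ M * B := by
    have h3 := sum_filter_add_sum_filter_not (range M) (fun c : ℕ => Even c) (fun _ : ℕ => B)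
    rw [sum_const (s := range M), card_range, nsmul_eq_mul] at h3
    linarith
  have hT1 : ((w - T - T - 1 : ℕ) : ℝ) ≤ 2 * n + 1 - 2 * T := by
    have h3 : (w - T - T - 1) + 2 * T ≤ 2 * n + 1 := by omega
    have h4 : ((w - T - T - 1 : ℕ) : ℝ) + 2 * T ≤ 2 * n + 1 := by exact_mod_cast h3
    linarith
  have hfin : ((W.filter (fun x : ℕ => Even x)).card : ℝ) ≤
      S1.card + S2.card + (Ex n W w).card + ((w - T - T - 1 : ℕ) : ℝ) := by
    have h3 : (W.filter (fun x : ℕ => Even x)).card ≤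
      S1.card + S2.card + (Ex n W w).card + (w - T - T - 1) := by omega
    exact_mod_cast h3
  linarith

end Pool.Agent.LR2
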