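import Mathlib

namespace Pool.Agent.LR2

private lemma struct_greatest (P : ℕ → Prop) (K x : ℕ) (hx : x ≤ K) (hP : P x) :
    ∃ m, m ≤ K ∧ x ≤ m ∧ P m ∧ ∀ j, m < j → j ≤ K → ¬ P j := by
  classical
  exact ⟨Nat.findGreatest P K, Nat.findGreatest_le K, Nat.le_findGreatest hx hP,
    Nat.findGreatest_spec hx hP, fun j h1 h2 => Nat.findGreatest_is_greatest h1 h2⟩

private lemma struct_two (K : ℕ) (hK : 840 ≤ K) (E : ℕ → Prop)
    (hD : ∀ j, 0 < j → 33 * j ≤ 16 * K → E j → ¬ E (2 * j))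
    (hAP : ∀ i' i, 2 * K + 3 ≤ 3 * i' → i' < i → i ≤ K → E i' → E i → E (2 * i' - i)) :
    ∃ x y, x < y ∧ y ≤ K ∧ 2 * K + 3 ≤ 3 * x ∧ ¬ E x ∧ ¬ E y := by
  obtain ⟨k, hk⟩ : ∃ k, k = K / 60 := ⟨_, rfl⟩
  have hk1 : 14 ≤ k := by omega
  have hk2 : 60 * k ≤ K := by omega
  have hk3 : K ≤ 60 * k + 59 := by omega
  have key : ∀ u i' i, 0 < u → 33 * u ≤ 16 * K → 2 * K + 3 ≤ 3 * i' → i' < i → i ≤ K →
      2 * i' - i = u → ¬ (E (2 * u) ∧ E i' ∧ E i) := by
    intro u i' i h1 h2 h3 h4 h5 h6 ⟨a, b, c⟩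
    have := hAP i' i h3 h4 h5 b c
    rw [h6] at this
    exact hD u h1 h2 this a
  have h1 := key (28 * k) (44 * k) (60 * k) (by omega) (by omega) (by omega) (by omega) (by omega)
    (by omega)
  have h2 := key (28 * k) (43 * k) (58 * k) (by omega) (by omega) (by omega) (by omega) (by omega)
    (by omega)
  have h3 := key (27 * k) (43 * k) (59 * k) (by omega) (by omega) (by omega) (by omega) (by omega)
    (by omega)
  have two : ∀ x y, x < y → y ≤ K → 2 * K + 3 ≤ 3 * x → ¬ E x → ¬ E y →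
      ∃ x y, x < y ∧ y ≤ K ∧ 2 * K + 3 ≤ 3 * x ∧ ¬ E x ∧ ¬ E y :=
    fun x y a b c d e => ⟨x, y, a, b, c, d, e⟩
  rw [show 2 * (28 * k) = 56 * k by ring] at h1 h2
  rw [show 2 * (27 * k) = 54 * k by ring] at h3
  by_cases e56 : E (56 * k)
  · have a1 : ¬ E (44 * k) ∨ ¬ E (60 * k) := by tauto
    have a2 : ¬ E (43 * k) ∨ ¬ E (58 * k) := by tauto
    rcases a1 with a1 | a1 <;> rcases a2 with a2 | a2
    · exact two (43 * k) (44 * k) (by omega) (by omega) (by omega) a2 a1
    · exact two (44 * k) (58 * k) (by omega) (by omega) (by omega) a1 a2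
    · exact two (43 * k) (60 * k) (by omega) (by omega) (by omega) a2 a1
    · exact two (58 * k) (60 * k) (by omega) (by omega) (by omega) a2 a1
  · have a3 : ¬ E (54 * k) ∨ ¬ E (43 * k) ∨ ¬ E (59 * k) := by tauto
    rcases a3 with a3 | a3 | a3
    · exact two (54 * k) (56 * k) (by omega) (by omega) (by omega) a3 e56
    · exact two (43 * k) (56 * k) (by omega) (by omega) (by omega) a3 e56
    · exact two (56 * k) (59 * k) (by omega) (by omega) (by omega) e56 a3

/-- The finite structure lemma. -/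
theorem STRUCT (K : ℕ) (hK : 840 ≤ K) (E : ℕ → Prop)
    (hS : ∀ i j, 2 * K + 3 ≤ 3 * i → i ≤ K → ¬ E i → 0 < j → j < i → E j → E (i - j))
    (hD : ∀ j, 0 < j → 33 * j ≤ 16 * K → E j → ¬ E (2 * j))
    (hAP : ∀ i' i, 2 * K + 3 ≤ 3 * i' → i' < i → i ≤ K → E i' → E i → E (2 * i' - i)) :
    ∀ j, 0 < j → Even j → j + 1 ≤ K → ¬ E j := by
  obtain ⟨x, y, hxy, hyK, hx3, hEx, hEy⟩ := struct_two K hK E hD hAP
  obtain ⟨z', hz'K, hyz', hEz', hz'max⟩ :=
    struct_greatest (fun i => ¬ E i) K y hyK hEy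
  obtain ⟨z, hzK, hxz, ⟨hEz, hzz'⟩, hzmax⟩ :=
    struct_greatest (fun i => ¬ E i ∧ i < z') K x (by omega) ⟨hEx, by omega⟩
  have hz3 : 2 * K + 3 ≤ 3 * z := by omega
  have hz'3 : 2 * K + 3 ≤ 3 * z' := by omega
  have hrefl : ∀ i, 2 * K + 3 ≤ 3 * i → i ≤ K → ¬ E i → ∀ j, 0 < j → j < i →
      (E j ↔ E (i - j)) := by
    intro i h1 h2 h3 j h4 h5
    refine ⟨fun h => hS i j h1 h2 h3 h4 h5 h, fun h => ?_⟩
    have := hS i (i - j) h1 h2 h3 (by omega) (by omega) h
    rwa [show i - (i - j) = j by omega] at this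
  obtain ⟨d, hd⟩ : ∃ d, z' = z + d := ⟨z' - z, by omega⟩
  have hd0 : 0 < d := by omega
  have hper : ∀ j, 0 < j → j < z → (E j ↔ E (j + d)) := by
    intro j h1 h2
    rw [hrefl z hz3 hzK hEz j h1 h2, hrefl z' hz'3 hz'K hEz' (z - j) (by omega) (by omega)]
    rw [show z' - (z - j) = j + d by omega]
  have hEd : ¬ E d := by
    by_cases hdz : d < z'
    · rw [hrefl z' hz'3 hz'K hEz' d hd0 hdz, show z' - d = z by omega]
      exact hEz
    · omega
  have hclass : ∀ m j, z' - j ≤ m → 0 < j → j < z' → (¬ E j ↔ j % d = z % d) := by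
    intro m
    induction m with
    | zero => intro j h1 h2 h3; omega
    | succ m ih =>
      intro j h1 h2 h3
      rcases lt_trichotomy j z with h | h | h
      · rw [hper j h2 h, ih (j + d) (by omega) (by omega) (by omega), Nat.add_mod_right]
      · subst h
        exact ⟨fun _ => rfl, fun _ => hEz⟩
      · have hE : E j := by
          by_contra hc
          exact hzmax j h (by omega) ⟨hc, h3⟩
        refine ⟨fun hc => absurd hE hc, fun hc => ?_⟩
        exfalso
        have hmod : (j - z) % d = 0 := (Nat.sub_mod_eq_zero_of_mod_eq hc)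
        have hlt : j - z < d := by omega
        rw [Nat.mod_eq_of_lt hlt] at hmod
        omega
  have hzd : z % d = 0 := by
    have := (hclass (z' - d) d le_rfl hd0 (by omega)).1 hEd
    rw [Nat.mod_self] at this
    exact this.symm
  have hd2 : d ≤ 2 := by
    by_contra hc
    have h1 : E 1 := by
      by_contra h
      have := (hclass (z' - 1) 1 le_rfl (by omega) (by omega)).1 h
      rw [hzd, Nat.mod_eq_of_lt (by omega)] at this
      omega
    have h2 : E 2 := by
      by_contra h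
      have := (hclass (z' - 2) 2 le_rfl (by omega) (by omega)).1 h
      rw [hzd, Nat.mod_eq_of_lt (by omega)] at this
      omega
    exact hD 1 (by omega) (by omega) h1 h2
  have hz'big : K ≤ z' + 1 := by
    by_contra hc
    have e1 : E (z' + 1) := by
      by_contra h
      exact hz'max (z' + 1) (by omega) (by omega) h
    have e2 : E (z' + 2) := by
      by_contra h
      exact hz'max (z' + 2) (by omega) (by omega) h
    have := hAP (z' + 1) (z' + 2) (by omega) (by omega) (by omega) e1 e2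
    rw [show 2 * (z' + 1) - (z' + 2) = z' by omega] at this
    exact hEz' this
  intro j hj hjev hjK
  rcases Nat.lt_or_ge j z' with h | h
  · rw [hclass (z' - j) j le_rfl hj h, hzd]
    obtain ⟨t, ht⟩ := hjev
    interval_cases d
    · exact Nat.mod_one j
    · omega
  · rw [show j = z' by omega]
    exact hEz'

end Pool.Agent.LR2
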