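import Mathlib
import Pool.Agent.LR2.Defs
import Pool.Agent.LR2.LemS
import Pool.Agent.LR2.Struct

namespace Pool.Agent.LR2

open Finset

/-- Multiples of `A` have only the prime factors of `A`. -/
lemma LATT_cop {w A K : ℕ} (hpr : ∀ p : ℕ, p.Prime → p ≤ K → p ∣ A)
    (hcop : Nat.Coprime A w) (i j : ℕ) (hj : 0 < j) (hjK : j ≤ K) (hi : A * i < w) :
    Nat.Coprime (A * j) (w - A * i) := by
  rw [Nat.coprime_iff_gcd_eq_one]
  by_contra hne
  obtain ⟨p, hp, hpd⟩ := Nat.exists_prime_and_dvd hne
  have h1 : p ∣ A * j := hpd.trans (Nat.gcd_dvd_left _ _)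
  have h2 : p ∣ w - A * i := hpd.trans (Nat.gcd_dvd_right _ _)
  have hA : p ∣ A := by
    rcases (Nat.Prime.dvd_mul hp).1 h1 with h | h
    · exact h
    · exact hpr p hp ((Nat.le_of_dvd hj h).trans hjK)
  have h3 : p ∣ w := by
    have h4 : p ∣ (w - A * i) + A * i := dvd_add h2 (hA.mul_right i)
    rwa [Nat.sub_add_cancel hi.le] at h4
  have h5 : p ∣ Nat.gcd A w := Nat.dvd_gcd hA h3
  rw [Nat.coprime_iff_gcd_eq_one.1 hcop] at h5
  exact hp.one_lt.ne' (Nat.dvd_one.1 h5)

/-- The even multiples of a typical number `A` are not missing. -/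
theorem LATT {ε : ℝ} {n w A : ℕ} {W : Finset ℕ} (c : Ctx ε n w W) (hA : 0 < A)
    (hK : 840 ≤ n / A) (h32 : 32 ∣ A) (hpr : ∀ p : ℕ, p.Prime → p ≤ n / A → p ∣ A)
    (hcop : Nat.Coprime A w) (hG : 4 * n < 2 * w + A)
    (hEx : ∀ i, 0 < i → i < 2 * (n / A) → A * i ∉ Ex n W w) :
    ∀ j, 0 < j → Even j → j + 1 ≤ n / A → A * j ∉ W := by
  obtain ⟨K, hKd⟩ : ∃ K, K = n / A := ⟨_, rfl⟩
  rw [← hKd] at hK hpr hEx ⊢
  have hK1 : A * K ≤ n := by rw [hKd]; exact Nat.mul_div_le n A
  have hK2 : n < A * (K + 1) := by rw [hKd]; exact Nat.lt_mul_div_succ n hA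
  have hK2' : A * (K + 1) = A * K + A := by ring
  have hwle : w ≤ 2 * n + 1 := c.le
  -- basic facts on non exceptional multiples
  have hne : ∀ i, 0 < i → i < 2 * K → A * i < w ∧ (A * i ∈ W ↔ w - A * i ∉ W) := by
    intro i h0 h1
    refine notMem_Ex (hEx i h0 h1) (Nat.mul_pos hA h0) ?_
    have h2 : A * (i + 1) ≤ A * (2 * K) := Nat.mul_le_mul_left A (by omega)
    have h3 : A * (2 * K) = 2 * (A * K) := by ring
    have h4 : A * (i + 1) = A * i + A := by ring
    omega
  have hbig : ∀ i, 2 * K + 3 ≤ 3 * i → 2 * n + A < 3 * (A * i) := by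
    intro i hi
    have h2 : A * (2 * K + 3) ≤ A * (3 * i) := Nat.mul_le_mul_left A hi
    have h3 : A * (2 * K + 3) = 2 * (A * K) + 3 * A := by ring
    have h4 : A * (3 * i) = 3 * (A * i) := by ring
    omega
  have hle : ∀ i, i ≤ K → A * i ≤ n := fun i hi => (Nat.mul_le_mul_left A hi).trans hK1
  have key := STRUCT K hK (fun i => A * i ∈ W) ?_ ?_ ?_
  · exact key
  · -- reflections
    intro i j h1 h2 h3 h4 h5 h6
    have e1 : A * (i - j) = A * i - A * j := Nat.mul_sub A i j
    have e2 : A * (j + 1) ≤ A * i := Nat.mul_le_mul_left A h5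
    have e3 : A * (j + 1) = A * j + A := by ring
    have e4 : A * 1 ≤ A * j := Nat.mul_le_mul_left A h4
    have e5 := hbig i h1
    have e6 := hle i h2
    have e7 := hne i (by omega) (by omega)
    show A * (i - j) ∈ W
    rw [e1]
    have hEx' : A * i - A * j ∉ Ex n W w := by
      rw [← e1]
      exact hEx (i - j) (by omega) (by omega)
    exact LEMS c h3 (hEx i (by omega) (by omega)) (by omega) (by omega) e6 (by omega)
      (Or.inr ⟨by omega, by omega⟩) (LATT_cop hpr hcop i j h4 (by omega) e7.1) hEx' h6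
  · -- doubling
    intro j h1 h2 h3
    obtain ⟨B, hB⟩ := h32
    set h : ℕ := 2 * B * j with hh
    have eq1 : A * j = 16 * h := by rw [hB, hh]; ring
    have hBpos : 0 < B := by
      rcases Nat.eq_zero_or_pos B with h0 | h0
      · rw [h0] at hB; omega
      · exact h0
    have hpos : 0 < h := by rw [hh]; positivity
    have h2A : 33 * (A * j) ≤ 16 * n := by
      have f1 : A * (33 * j) ≤ A * (16 * K) := Nat.mul_le_mul_left A h2
      have f2 : A * (33 * j) = 33 * (A * j) := by ring
      have f3 : A * (16 * K) = 16 * (A * K) := by ring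
      omega
    have h33 : 33 * h ≤ n := by omega
    set m : ℕ := 2 * n / h + 1 with hm
    have hm1 : 2 * n < m * h := by
      have := Nat.lt_mul_div_succ (2 * n) hpos
      rw [hm, mul_comm (2 * n / h + 1) h]
      exact this
    have hm2 : m * h ≤ 2 * n + h := by
      have := Nat.div_mul_le_self (2 * n) h
      rw [hm, add_mul, one_mul]
      omega
    have hcopz : Nat.Coprime (m * h + 1) (A * j) := by
      rw [Nat.coprime_iff_gcd_eq_one]
      by_contra hne'
      obtain ⟨p, hp, hpd⟩ := Nat.exists_prime_and_dvd hne'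
      have g1 : p ∣ m * h + 1 := hpd.trans (Nat.gcd_dvd_left _ _)
      have g2 : p ∣ A * j := hpd.trans (Nat.gcd_dvd_right _ _)
      have g3 : p ∣ h := by
        rw [eq1] at g2
        rcases (Nat.Prime.dvd_mul hp).1 g2 with g | g
        · have g4 : p ∣ 2 := by
            have : p ∣ 2 ^ 4 := by simpa using g
            exact hp.dvd_of_dvd_pow this
          exact g4.trans ⟨B * j, by rw [hh]; ring⟩
        · exact g
      have g5 : p ∣ 1 := (Nat.dvd_add_right (g3.mul_left m)).1 g1
      exact hp.one_lt.ne' (Nat.dvd_one.1 g5)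
    have := c.sys.dbl (A * j) (m * h + 1) (Nat.mul_pos hA h1) hcopz (by omega) (by omega) h3
    intro hcon
    apply this
    have e : 2 * (A * j) = A * (2 * j) := by ring
    rw [e]
    exact hcon
  · -- progressions
    intro i' i h1 h2 h3 h4 h5
    have e0 := hbig i' h1
    have e1 := hle i h3
    have e2 := hle i' (by omega)
    have h4' : A * i' ∈ W := h4
    have h5' : A * i ∈ W := h5
    have e3 : 2 * (A * i') ∉ W := c.sys.dblHigh (A * i') (by omega) e2 h4'
    have e4 : A * (2 * i') = 2 * (A * i') := by ring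
    have e5 := hne (2 * i') (by omega) (by omega)
    rw [e4] at e5
    have e6 : w - 2 * (A * i') ∈ W := by
      by_contra hc
      exact e3 (e5.2.2 hc)
    have e7 : A * (i' + 1) ≤ A * i := Nat.mul_le_mul_left A h2
    have e8 : A * (i' + 1) = A * i' + A := by ring
    have hcp := LATT_cop hpr hcop (2 * i') i (by omega) h3 (by rw [e4]; exact e5.1)
    rw [e4] at hcp
    -- the number `A (2 i' - i)`
    have f1 : A * (2 * i' - i) = 2 * (A * i') - A * i := by
      rw [Nat.mul_sub, e4]
    have f2 : A * (i + 1) ≤ A * (2 * i') := Nat.mul_le_mul_left A (by omega)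
    have f3 : A * (i + 1) = A * i + A := by ring
    have f4 : A * (2 * i' - i + 2) ≤ A * K := Nat.mul_le_mul_left A (by omega)
    have f5 : A * (2 * i' - i + 2) = A * (2 * i' - i) + 2 * A := by ring
    have e9 := hne (2 * i' - i) (by omega) (by omega)
    rw [f1] at e9
    have htri := c.sys.tri (w - 2 * (A * i')) (A * i) (by omega) hcp.symm (by omega) (by omega)
      (Or.inl ⟨e1, by omega⟩) e6 h5'
    show A * (2 * i' - i) ∈ W
    rw [f1]
    apply e9.2.2
    have : w - (2 * (A * i') - A * i) = w - 2 * (A * i') + A * i := by omega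
    rw [this]
    exact htri

end Pool.Agent.LR2
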