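import Mathlib
import Pool.Agent.LR2.Defs
import Pool.Agent.LR2.Near
import Pool.Agent.LR2.Latt

namespace Pool.Agent.LR2

open Finset

/-- A prime divisor of `w` is large. -/
theorem ZERO_rough {ε : ℝ} {n w q p : ℕ} {W : Finset ℕ} (c : Ctx ε n w W) (hw : 0 < w)
    (hεq : ε * q < 1) (hp : p.Prime) (hpw : p ∣ w) : q < p := by
  by_contra hc
  push Not at hc
  have hmem : p ∈ w.primeFactors.filter (fun p : ℕ => 0 < p) := by
    rw [mem_filter, Nat.mem_primeFactors]
    exact ⟨⟨hp, hpw, hw.ne'⟩, hp.pos⟩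
  have h1 : (1 : ℝ) / p ≤ rsum 0 w := by
    have := single_le_sum (f := fun p : ℕ => (1 : ℝ) / p) (fun i _ => by positivity) hmem
    exact this
  have h2 := h1.trans c.rough
  have hp0 : (0 : ℝ) < p := by exact_mod_cast hp.pos
  rw [div_le_iff₀ hp0] at h2
  have hε : 0 < ε := by
    by_contra h3
    push Not at h3
    have : ε * p ≤ 0 := mul_nonpos_of_nonpos_of_nonneg h3 hp0.le
    linarith
  have h4 : (p : ℝ) ≤ q := by exact_mod_cast hc
  have h5 : ε * p ≤ ε * q := mul_le_mul_of_nonneg_left h4 hε.le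
  linarith

lemma ZERO_div {w n : ℕ} {ε : ℝ} (hr : rsum 0 w ≤ ε) :
    ((w.primeFactors.biUnion (fun l : ℕ => (Ioc 0 n).filter (fun z : ℕ => l ∣ z))).card : ℝ) ≤
      ε * n := by
  have h1 : (w.primeFactors.biUnion (fun l : ℕ => (Ioc 0 n).filter (fun z : ℕ => l ∣ z))).card ≤
      ∑ l ∈ w.primeFactors, ((Ioc 0 n).filter (fun z : ℕ => l ∣ z)).card := card_biUnion_le
  have h2 : ((w.primeFactors.biUnion (fun l : ℕ => (Ioc 0 n).filter (fun z : ℕ => l ∣ z))).card : ℝ)
      ≤ ∑ l ∈ w.primeFactors, (((Ioc 0 n).filter (fun z : ℕ => l ∣ z)).card : ℝ) := by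
    exact_mod_cast h1
  refine h2.trans ?_
  have h3 : ∑ l ∈ w.primeFactors, (((Ioc 0 n).filter (fun z : ℕ => l ∣ z)).card : ℝ) ≤
      ∑ l ∈ w.primeFactors, (1 : ℝ) / l * n := by
    refine sum_le_sum ?_
    intro l hl
    rw [Nat.Ioc_filter_dvd_card_eq_div]
    have h4 : ((n / l : ℕ) : ℝ) ≤ (n : ℝ) / l := Nat.cast_div_le
    rw [one_div, inv_mul_eq_div]
    exact h4
  refine h3.trans ?_
  rw [← sum_mul]
  have h4 : ∑ l ∈ w.primeFactors, (1 : ℝ) / l = rsum 0 w := by
    rw [rsum]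
    congr 1
    rw [filter_true_of_mem]
    intro p hp
    exact (Nat.prime_of_mem_primeFactors hp).pos
  rw [h4]
  exact mul_le_mul_of_nonneg_right hr (Nat.cast_nonneg n)

/-- Nearly all multiples of `M = j q!` in `[s n, (1 - s) n]` are not missing. -/
theorem ZERO {ε s : ℝ} {n w j q : ℕ} {W : Finset ℕ} (c : Ctx ε n w W) (hε : 0 < ε)
    (hε1 : ε ≤ 1 / 10) (hn : 10 / ε ≤ n) (hs : 0 < s) (hs1 : s ≤ 1 / 10) (hj : Even j)
    (hj1 : 840 ≤ j) (hsj : 1 ≤ s * j) (hq : 2 * j / s ≤ q) (hεj : 2 * ε * j < s)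
    (hεq : ε * q < 1) :
    (((Icc 1 n).filter (fun z : ℕ => j * q.factorial ∣ z ∧ s * n ≤ z ∧ (z : ℝ) ≤ (1 - s) * n ∧
      z ∈ W)).card : ℝ) ≤ (1 + 24 * j / s) * ε * n := by
  classical
  have hnpos : (0 : ℝ) < n := lt_of_lt_of_le (by positivity) hn
  have hn0 : 0 < n := by exact_mod_cast hnpos
  have hw0 : 0 < w := by
    have h1 := c.low
    have h2 : (0 : ℝ) < w := lt_of_lt_of_le (by nlinarith) h1
    exact_mod_cast h2
  have hj0 : 0 < j := by omega
  have hjr : (0 : ℝ) < j := by exact_mod_cast hj0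
  have hjs : (0 : ℝ) ≤ 2 * j / s := by positivity
  set I : Finset ℕ := Icc 1 ⌊2 * (j : ℝ) / s⌋₊ with hI
  have hsub : (Icc 1 n).filter (fun z : ℕ => j * q.factorial ∣ z ∧ s * n ≤ z ∧
      (z : ℝ) ≤ (1 - s) * n ∧ z ∈ W) ⊆
      (w.primeFactors.biUnion (fun l : ℕ => (Ioc 0 n).filter (fun z : ℕ => l ∣ z))) ∪
      I.biUnion (fun i : ℕ => (Ex n W w).image (fun e : ℕ => e / i * j)) := by
    intro z hz
    rw [mem_filter, mem_Icc] at hz
    obtain ⟨⟨hz1, hzn⟩, ⟨B, hB⟩, hzl, hzu, hzW⟩ := hz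
    set A : ℕ := q.factorial * B with hA
    have hzA : z = A * j := by rw [hB, hA]; ring
    have hA0 : 0 < A := by
      rcases Nat.eq_zero_or_pos A with h | h
      · rw [h, zero_mul] at hzA; omega
      · exact h
    have hAr : (0 : ℝ) < A := by exact_mod_cast hA0
    have hzr : (z : ℝ) = A * j := by rw [hzA]; push_cast; ring
    rw [hzr] at hzl hzu
    have hqA : q.factorial ∣ A := ⟨B, hA⟩
    have hfloor : ((n / A : ℕ) : ℝ) * s ≤ j := by
      have h1 : (n / A) * A ≤ n := Nat.div_mul_le_self n A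
      have h2 : ((n / A : ℕ) : ℝ) * A ≤ n := by exact_mod_cast h1
      have h3 : ((n / A : ℕ) : ℝ) * A * j ≤ n * j := mul_le_mul_of_nonneg_right h2 hjr.le
      have h4 : (0 : ℝ) ≤ ((n / A : ℕ) : ℝ) := Nat.cast_nonneg _
      have h5 : ((n / A : ℕ) : ℝ) * (s * n) ≤ ((n / A : ℕ) : ℝ) * (A * j) :=
        mul_le_mul_of_nonneg_left hzl h4
      have h6 : (((n / A : ℕ) : ℝ) * s) * n ≤ j * n := by nlinarith
      exact le_of_mul_le_mul_right h6 hnpos
    have hfloor2 : ((n / A : ℕ) : ℝ) ≤ j / s := by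
      rw [le_div_iff₀ hs]; exact hfloor
    have hK : j + 1 ≤ n / A := by
      rw [Nat.le_div_iff_mul_le hA0]
      have h1 : ((j : ℝ) + 1) * A ≤ n := by
        have h2 : (A : ℝ) ≤ s * (A * j) := by nlinarith
        have h3 : s * (A * j) ≤ s * ((1 - s) * n) := mul_le_mul_of_nonneg_left hzu hs.le
        nlinarith [mul_pos (mul_pos hs hs) hnpos]
      exact_mod_cast h1
    have hqj : (2 : ℝ) * j ≤ q := by
      refine le_trans ?_ hq
      rw [le_div_iff₀ hs]
      nlinarith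
    have hqj' : 2 * j ≤ q := by exact_mod_cast hqj
    have h32 : 32 ∣ A := dvd_trans (Nat.dvd_factorial (by norm_num) (by omega)) hqA
    have hpr : ∀ p : ℕ, p.Prime → p ≤ n / A → p ∣ A := by
      intro p hp hpn
      refine dvd_trans (Nat.dvd_factorial hp.pos ?_) hqA
      have h1 : (p : ℝ) ≤ j / s := le_trans (by exact_mod_cast hpn) hfloor2
      have h2 : (j : ℝ) / s ≤ 2 * j / s := by
        rw [div_le_div_iff_of_pos_right hs]; linarith
      have h3 : (p : ℝ) ≤ q := h1.trans (h2.trans hq)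
      exact_mod_cast h3
    have hG : 4 * n < 2 * w + A := by
      have h1 := c.low
      have h2 : 2 * ε * n < A := by
        have h3 : 2 * ε * n * j < A * j := by nlinarith
        exact lt_of_mul_lt_mul_right h3 hjr.le
      have h3 : (4 : ℝ) * n < 2 * w + A := by linarith
      exact_mod_cast h3
    rw [mem_union]
    by_cases hcop : Nat.Coprime A w
    · right
      by_contra hcon
      have hEx : ∀ i, 0 < i → i < 2 * (n / A) → A * i ∉ Ex n W w := by
        intro i hi hi2 hmem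
        apply hcon
        rw [mem_biUnion]
        refine ⟨i, ?_, ?_⟩
        · rw [hI, mem_Icc]
          refine ⟨hi, ?_⟩
          apply Nat.le_floor
          have h1 : (i : ℝ) ≤ 2 * ((n / A : ℕ) : ℝ) := by exact_mod_cast hi2.le
          have h2 : 2 * (j : ℝ) / s = 2 * (j / s) := by ring
          rw [h2]
          linarith
        · rw [mem_image]
          refine ⟨A * i, hmem, ?_⟩
          rw [Nat.mul_div_cancel _ hi, hzA]
      have := LATT c hA0 (by omega) h32 hpr hcop hG hEx j hj0 hj hK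
      rw [← hzA] at this
      exact this hzW
    · left
      rw [Nat.Prime.not_coprime_iff_dvd] at hcop
      obtain ⟨l, hl, hlA, hlw⟩ := hcop
      rw [mem_biUnion]
      refine ⟨l, ?_, ?_⟩
      · rw [Nat.mem_primeFactors]
        exact ⟨hl, hlw, hw0.ne'⟩
      · rw [mem_filter, mem_Ioc]
        refine ⟨⟨hz1, hzn⟩, ?_⟩
        rw [hzA]
        exact dvd_mul_of_dvd_left hlA j
  have hc1 := (card_le_card hsub).trans (card_union_le _ _)
  have hc2 : (I.biUnion (fun i : ℕ => (Ex n W w).image (fun e : ℕ => e / i * j))).card ≤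
      I.card * (Ex n W w).card :=
    card_biUnion_le_card_mul _ _ _ (fun i _ => card_image_le)
  have hc3 := ZERO_div (n := n) c.rough
  have hIc : (I.card : ℝ) ≤ 2 * j / s := by
    rw [hI, Nat.card_Icc, Nat.add_sub_cancel]
    exact Nat.floor_le hjs
  have hEx := NEAR c hε hε1 hn
  have hc4 : ((I.biUnion (fun i : ℕ => (Ex n W w).image (fun e : ℕ => e / i * j))).card : ℝ) ≤
      24 * j / s * ε * n := by
    have h1 : ((I.biUnion (fun i : ℕ => (Ex n W w).image (fun e : ℕ => e / i * j))).card : ℝ) ≤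
      (I.card : ℝ) * (Ex n W w).card := by exact_mod_cast hc2
    refine h1.trans ((mul_le_mul hIc hEx (Nat.cast_nonneg _) hjs).trans (le_of_eq ?_))
    ring
  have hc5 : (((Icc 1 n).filter (fun z : ℕ => j * q.factorial ∣ z ∧ s * n ≤ z ∧
      (z : ℝ) ≤ (1 - s) * n ∧ z ∈ W)).card : ℝ) ≤
      ((w.primeFactors.biUnion (fun l : ℕ => (Ioc 0 n).filter (fun z : ℕ => l ∣ z))).card : ℝ) +
      ((I.biUnion (fun i : ℕ => (Ex n W w).image (fun e : ℕ => e / i * j))).card : ℝ) := by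
    exact_mod_cast hc1
  have h6 : (1 + 24 * (j : ℝ) / s) * ε * n = ε * n + 24 * j / s * ε * n := by ring
  rw [h6]
  linarith

end Pool.Agent.LR2
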