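import Mathlib
import Pool.Agent.LR2.Defs
import Pool.Agent.LR2.Near
import Pool.Agent.LR2.Zero
import Pool.Agent.LR2.Good
import Pool.Agent.LR2.Reflc
import Pool.Agent.LR2.Shift
import Pool.Agent.LR2.Rel
import Pool.Agent.LR2.Fin
import Pool.Agent.LR2.Empty
import Pool.Agent.LR2.Odd
import Pool.Agent.LR2.Total
import Pool.Agent.LR2.MainAux

namespace Pool.Agent.LR2

open Finset

/-- `n` is large in terms of the parameters. -/
structure Big (lam s ε κ N : ℝ) (M n : ℕ) : Prop where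
  n0 : 0 < n
  nε : 10 / ε ≤ n
  nMs : 100 * (M : ℝ) ≤ s * n
  nM : 1000 * (M : ℝ) ≤ n
  nlam : 10000 ≤ n * lam
  NM : N * M = n
  Ndef : N = n / M
  N0 : 0 < N
  N1000 : 1000 ≤ N
  sN : 100 ≤ s * N
  log1 : (Nat.log 2 (2 * n + 1) : ℝ) ≤ κ * n
  log2 : Real.log (2 * n + 1) + 1 ≤ κ * n

lemma MAIN_big {lam s β δ ε κ : ℝ} {j q M : ℕ} (hlam : 0 < lam) (P : Par lam s β δ ε κ j q M) :
    ∃ n0 : ℕ, ∀ n : ℕ, n0 ≤ n → Big lam s ε κ (n / M) M n := by
  obtain ⟨N3, hN3⟩ := MAIN_log P.κ0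
  have hs := P.s0
  have hM0' : (0 : ℝ) < M := by exact_mod_cast P.M0
  refine ⟨N3 + ⌈10 / ε⌉₊ + ⌈100 * M / s⌉₊ + ⌈1000 * (M : ℝ)⌉₊ + ⌈10000 / lam⌉₊ + 2, ?_⟩
  intro n hn
  have hn3 : N3 ≤ n := by omega
  have hnε : 10 / ε ≤ n := (Nat.le_ceil _).trans (by exact_mod_cast (by omega : ⌈10 / ε⌉₊ ≤ n))
  have hnMs : 100 * (M : ℝ) / s ≤ n :=
    (Nat.le_ceil _).trans (by exact_mod_cast (by omega : ⌈100 * (M : ℝ) / s⌉₊ ≤ n))
  have hnM : 1000 * (M : ℝ) ≤ n :=
    (Nat.le_ceil _).trans (by exact_mod_cast (by omega : ⌈1000 * (M : ℝ)⌉₊ ≤ n))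
  have hnlam : 10000 / lam ≤ n :=
    (Nat.le_ceil _).trans (by exact_mod_cast (by omega : ⌈10000 / lam⌉₊ ≤ n))
  have hnpos : 0 < n := by omega
  have hn0 : (0 : ℝ) < n := by exact_mod_cast hnpos
  rw [div_le_iff₀ hs] at hnMs
  rw [div_le_iff₀ hlam] at hnlam
  obtain ⟨hlog1, hlog2⟩ := hN3 n hn3
  have hNM : (n : ℝ) / M * M = n := by field_simp
  have hN0 : 0 < (n : ℝ) / M := by positivity
  refine ⟨hnpos, hnε, by linarith, hnM, hnlam, hNM, rfl, hN0, ?_, ?_, hlog1, hlog2⟩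
  · rw [le_div_iff₀ hM0']
    linarith
  · have h1 : s * ((n : ℝ) / M) = s * n / M := by ring
    rw [h1, le_div_iff₀ hM0']
    linarith

section

variable {lam s β δ ε κ N : ℝ} {j q M n w : ℕ} {W : Finset ℕ}

lemma MAIN_κn (P : Par lam s β δ ε κ j q M) (G : Big lam s ε κ N M n) :
    κ * n = s * β * δ / 100000 * N := by
  have : κ * n = κ * M * N := by rw [← G.NM]; ring
  rw [this, P.κdef]

lemma MAIN_Ex (P : Par lam s β δ ε κ j q M) (G : Big lam s ε κ N M n) (hC : Ctx ε n w W) :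
    ((Ex n W w).card : ℝ) ≤ 12 * (ε * M) * N := by
  have hE := NEAR hC P.ε0 (by linarith [P.ε100]) G.nε
  have hεn : ε * n = ε * M * N := by rw [← G.NM]; ring
  calc ((Ex n W w).card : ℝ) ≤ 12 * ε * n := hE
    _ = 12 * (ε * n) := by ring
    _ = 12 * (ε * M) * N := by rw [hεn]; ring

lemma MAIN_100M (P : Par lam s β δ ε κ j q M) (G : Big lam s ε κ N M n) :
    (n : ℝ) / (100 * M) = N / 100 := by
  have hM0' : (0 : ℝ) < M := by exact_mod_cast P.M0
  rw [← G.NM]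
  field_simp

lemma MAIN_sβ (P : Par lam s β δ ε κ j q M) : s * β ≤ s / 1000 ∧ s * β ≤ β / 1000 := by
  have h1 := P.s0
  have h2 := P.β0
  have h3 := P.s1
  have h4 := P.β1
  constructor
  · nlinarith only [h1, h4]
  · nlinarith only [h2, h3]

lemma MAIN_Ex2 (P : Par lam s β δ ε κ j q M) (G : Big lam s ε κ N M n) (hC : Ctx ε n w W) :
    ((Ex n W w).card : ℝ) ≤ n / (100 * M) := by
  rw [MAIN_100M P G]
  refine (MAIN_Ex P G hC).trans ?_
  have h1 := P.εM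
  obtain ⟨h2, h3⟩ := MAIN_sβ P
  have h4 := P.s1
  have h5 : 12 * (ε * M) ≤ 1 / 100 := by linarith
  have h6 := G.N0
  calc 12 * (ε * M) * N ≤ 1 / 100 * N := by gcongr
    _ = N / 100 := by ring

lemma MAIN_good (P : Par lam s β δ ε κ j q M) (G : Big lam s ε κ N M n) :
    (1 / δ) * ((n : ℝ) / (M * q) + Real.log (2 * n + 1) + 1) ≤ s / 20 * N := by
  have hδ := P.δ0
  have hs := P.s0
  have hN0 := G.N0
  have hM0' : (0 : ℝ) < M := by exact_mod_cast P.M0
  have hq0 : (0 : ℝ) < q := by exact_mod_cast P.q0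
  have h1 : (n : ℝ) / (M * q) ≤ s * δ / 32 * N := by
    have h2 : (n : ℝ) / (M * q) = N / q := by rw [G.Ndef]; field_simp
    rw [h2, div_le_iff₀ hq0]
    have h3 : 32 / (s * δ) * (s * δ) ≤ q * (s * δ) := by
      have := P.qs
      gcongr
    rw [div_mul_cancel₀ _ (by positivity)] at h3
    have h4 : 32 * N ≤ q * (s * δ) * N := by gcongr
    linarith
  have h5 : s * β * δ / 100000 * N ≤ s * δ / 100 * N := by
    have h6 : s * β * δ / 100000 ≤ s * δ / 100 := by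
      have h7 : s * β * δ ≤ s * 1 * δ := by
        have := P.β1
        gcongr
        linarith
      have h8 : 0 < s * δ := by positivity
      linarith
    gcongr
  have h6 := G.log2
  rw [MAIN_κn P G] at h6
  have h7 : 0 < s * δ * N := by positivity
  have h4 : (n : ℝ) / (M * q) + Real.log (2 * n + 1) + 1 ≤ s * δ / 20 * N := by linarith
  calc (1 / δ) * ((n : ℝ) / (M * q) + Real.log (2 * n + 1) + 1)
      ≤ (1 / δ) * (s * δ / 20 * N) := by gcongr
    _ = s / 20 * N := by field_simp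

lemma MAIN_zero (P : Par lam s β δ ε κ j q M) (G : Big lam s ε κ N M n) (hC : Ctx ε n w W) :
    (((Icc 1 n).filter (fun z : ℕ => M ∣ z ∧ s * n ≤ z ∧ (z : ℝ) ≤ (1 - s) * n ∧
      z ∈ W)).card : ℝ) ≤ s * β / 10000 * N := by
  have hZ := ZERO hC P.ε0 (by linarith [P.ε100]) G.nε P.s0 (by linarith [P.s1]) P.je P.j840 P.sj
    P.qj P.εj P.εq
  rw [← P.Mdef] at hZ
  refine hZ.trans (le_of_eq ?_)
  rw [← P.εMY, ← G.NM]
  ring

lemma MAIN_wlow (P : Par lam s β δ ε κ j q M) (G : Big lam s ε κ N M n) (hC : Ctx ε n w W) :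
    199 / 100 * (n : ℝ) ≤ w := by
  have h1 := hC.low
  have h2 := P.ε100
  have h3 : (0 : ℝ) < n := by exact_mod_cast G.n0
  nlinarith only [h1, h2, h3]

lemma MAIN_nw (P : Par lam s β δ ε κ j q M) (G : Big lam s ε κ N M n) (hC : Ctx ε n w W) :
    n < w := by
  have h1 := MAIN_wlow P G hC
  have h3 : (0 : ℝ) < n := by exact_mod_cast G.n0
  have : (n : ℝ) < w := by linarith
  exact_mod_cast this

lemma MAIN_wM (P : Par lam s β δ ε κ j q M) (G : Big lam s ε κ N M n) (hC : Ctx ε n w W) :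
    Nat.Coprime w M := by
  rw [Nat.coprime_iff_gcd_eq_one]
  by_contra hg
  obtain ⟨p, hp, hpg⟩ := Nat.exists_prime_and_dvd hg
  have h1 := (P.Mq p hp).1 (hpg.trans (Nat.gcd_dvd_right _ _))
  have hw0 : 0 < w := lt_of_le_of_lt (Nat.zero_le _) (MAIN_nw P G hC)
  have h2 := ZERO_rough hC hw0 P.εq hp (hpg.trans (Nat.gcd_dvd_left _ _))
  omega

lemma MAIN_few (P : Par lam s β δ ε κ j q M) (G : Big lam s ε κ N M n) (hC : Ctx ε n w W)
    (U : ℕ → Prop) [DecidablePred U] (hUdef : U = fun r => M ∣ r ∧ r ∉ W ∧ r ∉ Ex n W w ∧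
      rsum q (w - r) ≤ δ ∧ 7 / 10 * (n : ℝ) ≤ r ∧ (r : ℝ) ≤ (1 - s) * n) :
    (((Icc 1 n).filter (fun r : ℕ => M ∣ r ∧ 7 / 10 * (n : ℝ) ≤ r ∧
      (r : ℝ) ≤ (1 - s) * n ∧ ¬ U r)).card : ℝ) ≤ s / 8 * (n / M) := by
  classical
  have hs := P.s0
  have hN0 := G.N0
  have hnw := MAIN_nw P G hC
  have hn0 : (0 : ℝ) < n := by exact_mod_cast G.n0
  have hsub : (Icc 1 n).filter (fun r : ℕ => M ∣ r ∧ 7 / 10 * (n : ℝ) ≤ r ∧
      (r : ℝ) ≤ (1 - s) * n ∧ ¬ U r) ⊆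
      ((Icc 1 n).filter (fun z : ℕ => M ∣ z ∧ s * n ≤ z ∧ (z : ℝ) ≤ (1 - s) * n ∧ z ∈ W)) ∪
      (Ex n W w ∪ ((Icc 1 n).filter (fun r : ℕ => (r : ℤ) ≡ 0 [ZMOD M] ∧ r < w ∧
        δ < rsum q (w - r)))) := by
    intro r hr
    simp only [mem_filter, mem_union] at hr ⊢
    obtain ⟨h1, h2, h3, h4, h5⟩ := hr
    by_cases hrW : r ∈ W
    · left
      refine ⟨h1, h2, ?_, h4, hrW⟩
      have h6 : s * n ≤ 7 / 10 * n := by
        have := P.s1
        gcongr
        linarith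
      linarith
    · right
      by_cases hrE : r ∈ Ex n W w
      · left; exact hrE
      · right
        refine ⟨h1, ?_, ?_, ?_⟩
        · exact (Int.modEq_zero_iff_dvd).2 (by exact_mod_cast h2)
        · have := (mem_Icc.1 h1).2
          omega
        · by_contra h6
          push Not at h6
          exact h5 (by rw [hUdef]; exact ⟨h2, hrW, hrE, h6, h3, h4⟩)
  have hcard := Finset.card_le_card hsub
  have hg := (GOOD M q n w 0 P.M0 P.q0 (fun p hp h => (P.Mq p hp).1 h) hC.le P.δ0).trans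
    (MAIN_good P G)
  have hz := MAIN_zero P G hC
  have he := MAIN_Ex P G hC
  have h2 : (((Icc 1 n).filter (fun r : ℕ => M ∣ r ∧ 7 / 10 * (n : ℝ) ≤ r ∧
      (r : ℝ) ≤ (1 - s) * n ∧ ¬ U r)).card : ℝ) ≤ s * β / 10000 * N + (12 * (ε * M) * N +
        s / 20 * N) := by
    exact le_trans (by exact_mod_cast hcard)
      ((MAIN_card3 _ _ _).trans (add_le_add hz (add_le_add he hg)))
  rw [← G.Ndef]
  refine h2.trans ?_
  obtain ⟨h5, h6⟩ := MAIN_sβ P
  have h3 : s * β / 10000 * N ≤ s / 100 * N :=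
    mul_le_mul_of_nonneg_right (by linarith) hN0.le
  have h4 : 12 * (ε * M) * N ≤ s / 100 * N := by
    gcongr
    linarith [P.εM]
  have : 0 < s * N := by positivity
  linarith

lemma MAIN_D (P : Par lam s β δ ε κ j q M) (G : Big lam s ε κ N M n) (hC : Ctx ε n w W) :
    2 * ((Ex n W w).card : ℝ) + 2 * (δ * (n / M) + Nat.log 2 (2 * n + 1)) ≤ β / 20 * N := by
  have hN0 := G.N0
  have hβ := P.β0
  have h0 := P.s0
  have h1 : (Nat.log 2 (2 * n + 1) : ℝ) ≤ β / 1000 * N := by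
    refine G.log1.trans ?_
    rw [MAIN_κn P G]
    have h2 : s * β * δ / 100000 ≤ β / 1000 := by
      have h4 := P.δ1
      have h5 := P.δ0
      have h6 := P.s1
      have : s * β * δ ≤ 1 * β * 1 := by
        gcongr
        · linarith
        · linarith
      linarith
    gcongr
  obtain ⟨h5, h6⟩ := MAIN_sβ P
  have h3 : 12 * (ε * M) * N ≤ β / 1000 * N := by
    gcongr
    linarith [P.εM]
  have he := MAIN_Ex P G hC
  rw [← G.Ndef, P.δβ]
  linarith

lemma MAIN_T (P : Par lam s β δ ε κ j q M) (G : Big lam s ε κ N M n) :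
    ∃ T : ℕ, (T : ℝ) ≤ (1 - 2 * s) * n ∧ (1 - 2 * s) * (n : ℝ) - 1 < T ∧
      99 / 100 * (n : ℝ) ≤ T ∧ T ≤ n ∧ (T : ℝ) ≤ (1 - s) * n := by
  have hs := P.s0
  have hs1 := P.s1
  have hn0 : (0 : ℝ) < n := by exact_mod_cast G.n0
  have hM1 : (1 : ℝ) ≤ M := by exact_mod_cast P.M0
  have hn1000 : (1000 : ℝ) ≤ n := by linarith [G.nM]
  have hTpos : 0 ≤ (1 - 2 * s) * (n : ℝ) := by
    have : 0 ≤ 1 - 2 * s := by linarith
    positivity
  have hT1 := Nat.floor_le hTpos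
  have hT2 := Nat.sub_one_lt_floor ((1 - 2 * s) * (n : ℝ))
  have h3 : s * n ≤ 1 / 1000 * n := by gcongr
  have h4 : 0 < s * n := by positivity
  refine ⟨⌊(1 - 2 * s) * (n : ℝ)⌋₊, hT1, hT2, by linarith, ?_, by linarith⟩
  have : (⌊(1 - 2 * s) * (n : ℝ)⌋₊ : ℝ) ≤ n := by linarith
  exact_mod_cast this

lemma MAIN_const (P : Par lam s β δ ε κ j q M) (G : Big lam s ε κ N M n) (hC : Ctx ε n w W)
    {T : ℕ} (hT1 : (T : ℝ) ≤ (1 - 2 * s) * n) (hT3 : 99 / 100 * (n : ℝ) ≤ T) (hTn : T ≤ n) (a : ℤ) :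
    ((zeros T M W a).card : ℝ) ≤ β * N ∨ ((ones T M W a).card : ℝ) ≤ β * N := by
  classical
  have hM0 := P.M0
  have hM0' : (0 : ℝ) < M := by exact_mod_cast P.M0
  have hn0 : (0 : ℝ) < n := by exact_mod_cast G.n0
  have hN0 := G.N0
  obtain ⟨U, hUdef⟩ : ∃ U : ℕ → Prop, U = fun r => M ∣ r ∧ r ∉ W ∧ r ∉ Ex n W w ∧
    rsum q (w - r) ≤ δ ∧ 7 / 10 * (n : ℝ) ≤ r ∧ (r : ℝ) ≤ (1 - s) * n := ⟨_, rfl⟩
  obtain ⟨D, hD⟩ : ∃ D : ℝ, D = 2 * (Ex n W w).card + 2 * (δ * (n / M) + Nat.log 2 (2 * n + 1)) :=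
    ⟨_, rfl⟩
  have hU : ∀ r, U r → M ∣ r ∧ ∀ a : ℤ,
      (((Ico 1 r).filter (fun p : ℕ => (p : ℤ) ≡ a [ZMOD M] ∧ ¬ (p ∈ W ↔ r - p ∈ W))).card : ℝ) ≤
        D := by
    intro r hr
    rw [hUdef] at hr
    obtain ⟨h1, h2, h3, h4, h5, h6⟩ := hr
    refine ⟨h1, fun a => ?_⟩
    rw [hD]
    exact REFLC hC (by linarith [P.ε100]) P.εs P.M0 P.Mq (MAIN_wM P G hC) h1 h2 h3 h4 h5 h6 G.n0 a
  have hfew := MAIN_few P G hC U hUdef
  have hshift := fun (τ : ℕ) (hτ : M ∣ τ) (hτn : (τ : ℝ) ≤ 29 / 100 * n) =>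
    SHIFT (W := W) P.s0 P.s1 hM0 G.nMs U hU hfew T hT1 τ hτ hτn
  have hTn' : (T : ℝ) ≤ n := by exact_mod_cast hTn
  have hchain := fun (τ : ℕ) (hτ : M ∣ τ) (hτT : τ ≤ T) =>
    CHAIN (W := W) (D := 2 * D) (L := 29 / 100 * n) hM0 (by linarith [G.nM]) hshift τ hτ hτT
  have hconst : ((ones T M W a).card : ℝ) * (zeros T M W a).card ≤
      (T / M) * (4 * (2 * D)) := CONST hM0 a (fun τ hτ hτT => hchain τ hτ hτT a)
  have hD0 : 0 ≤ D := by
    rw [hD]
    have := P.δ0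
    positivity
  have hDle : D ≤ β / 20 * N := by
    rw [hD]
    exact MAIN_D P G hC
  refine MAIN_dich_num G.N1000 P.β0 P.β1 rfl (MAIN_sum (n := n) hM0 a) ?_ ?_ hD0 hDle hconst
  · rw [le_div_iff₀ hM0']
    have := G.NM
    linarith
  · rw [div_le_iff₀ hM0', G.NM]
    exact hTn'

end

/-- The contradiction for large `n`. -/
theorem MAIN : ∃ ε : ℝ, 0 < ε ∧ ∃ n0 : ℕ, ∀ n : ℕ, n0 ≤ n → ∀ (w : ℕ) (W : Finset ℕ),
    Ctx ε n w W → False := by
  classical
  obtain ⟨l1, hl1, n1, H1⟩ := EMPTY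
  obtain ⟨l2, hl2, n2, H2⟩ := ODD
  -- constants
  obtain ⟨lam, hlam, hlam1, hlam2, hlam3⟩ : ∃ lam : ℝ, 0 < lam ∧ lam ≤ l1 ∧ lam ≤ l2 ∧ lam ≤ 1 :=
    ⟨min l1 (min l2 1), by positivity, min_le_left _ _, (min_le_right _ _).trans (min_le_left _ _),
      (min_le_right _ _).trans (min_le_right _ _)⟩
  obtain ⟨s, β, δ, ε, κ, j, q, M, P⟩ := MAIN_par hlam hlam3
  obtain ⟨n3, H3⟩ := MAIN_big hlam P
  refine ⟨ε, P.ε0, n1 + n2 + n3, ?_⟩
  intro n hn w W hC
  have hn1 : n1 ≤ n := by omega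
  have hn2 : n2 ≤ n := by omega
  have G := H3 n (by omega)
  obtain ⟨N, hN⟩ : ∃ N : ℝ, N = n / M := ⟨_, rfl⟩
  rw [← hN] at G
  obtain ⟨T, hT1, hT2, hT3, hTn, hTs⟩ := MAIN_T P G
  have hdich := MAIN_const P G hC hT1 hT3 hTn
  have hn0 : (0 : ℝ) < n := by exact_mod_cast G.n0
  have hM0' : (0 : ℝ) < M := by exact_mod_cast P.M0
  have h100M := MAIN_100M P G
  have hE3 := MAIN_Ex2 P G hC
  have hwM := MAIN_wM P G hC
  have hnw := MAIN_nw P G hC
  have hwodd : Odd w := by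
    rw [← Nat.not_even_iff_odd]
    intro he
    have h1 : 2 ∣ Nat.gcd w M := Nat.dvd_gcd he.two_dvd P.M2
    rw [hwM] at h1
    omega
  have hNM := G.NM
  have hN0 := G.N0
  have hs0 := P.s0
  have hβ0 := P.β0
  have hs1 := P.s1
  have hβ1 := P.β1
  obtain ⟨hsβ1, hsβ2⟩ := MAIN_sβ P
  have hMB : (M : ℝ) * (β * N) = β * n := by rw [← hNM]; ring
  have hBle : β * N ≤ n / (100 * M) := by
    rw [h100M]
    have : β * N ≤ 1 / 1000 * N := by gcongr
    linarith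
  have hlogn : (Nat.log 2 (2 * n + 1) : ℝ) ≤ n / (100 * M) := by
    have h1 := MAIN_D P G hC
    have h2 : 0 ≤ δ * (n / M) := by
      have := P.δ0
      positivity
    have h3 : (0 : ℝ) ≤ (Ex n W w).card := by positivity
    linarith
  have hMn1000 : 1000 * M ≤ n := by exact_mod_cast G.nM
  have hMn100 : 100 * M ≤ n := by omega
  have hgood2 : (1 / δ) * ((n : ℝ) / (M * q) + Real.log (2 * n + 1) + 1) ≤ n / (100 * M) := by
    rw [h100M]
    refine (MAIN_good P G).trans ?_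
    have : s * N ≤ 1 / 1000 * N := by gcongr
    linarith
  have hfin := FIN M P.M0 P.M6 (w : ℤ) (by exact_mod_cast (Nat.isCoprime_iff_coprime.2 hwM))
    (fun c => ((zeros T M W c).card : ℝ) ≤ β * N)
    (fun c d hcd => by simp only [MAIN_zeros_congr hcd]) ?_ ?_ ?_ ?_
  · rcases hfin with hfin | hfin
    · -- the case of no class
      have h1 : ∀ c : ℤ, ((ones T M W c).card : ℝ) ≤ β * N := fun c =>
        (hdich c).resolve_left (hfin c)
      have h2 := TOT_empty (n := n) P.M0 (by linarith) hC.sys.pos h1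
      refine H1 n hn1 W hC.sys (h2.trans ?_)
      rw [hMB]
      have h3 : β ≤ l1 := by linarith [P.βlam]
      gcongr
    · -- the case of the odd classes
      have ho : ∀ c : ℤ, Odd c → ((zeros T M W c).card : ℝ) ≤ β * N := fun c hc => (hfin c).2 hc
      have he : ∀ c : ℤ, Even c → ((ones T M W c).card : ℝ) ≤ β * N := by
        intro c hc
        refine (hdich c).resolve_left (fun h => ?_)
        have := (hfin c).1 h
        exact (Int.not_odd_iff_even.2 hc) this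
      have h2 := TOT_odd hC P.M0 hwodd (by omega) hTn he P.M2 ho
      refine H2 n hn2 W hC.sys (h2.trans ?_)
      rw [hMB]
      have h5 : lam * n ≤ l2 * n := by gcongr
      have h6 : β * n = lam * n / 1000 := by rw [P.βlam]; ring
      have h7 : s * n = lam * n / 1000 := by rw [P.slam]; ring
      have h8 := G.nlam
      have h9 : ((Ex n W w).card : ℝ) ≤ lam * n / 1000 := by
        refine (MAIN_Ex P G hC).trans ?_
        have h10 : 12 * (ε * M) * N ≤ 12 * (s * β / 10000) * n := by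
          have h11 := P.εM
          have h12 : N ≤ n := by
            have : (1 : ℝ) ≤ M := by exact_mod_cast P.M0
            nlinarith only [hNM, hN0, this]
          gcongr
        have h13 : 12 * (s * β / 10000) * n ≤ β * n := by
          gcongr
          linarith
        linarith
      have h14 : 0 < lam * n := by positivity
      linarith
  · -- R0
    have h0 := REL0 (W := W) (B := β * N) P.M0 hs0 hs1 (by linarith) hTs hMn1000 hBle (by
      refine (MAIN_zero P G hC).trans ?_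
      rw [h100M]
      have : s * β / 10000 * N ≤ 1 / 100 * N :=
        mul_le_mul_of_nonneg_right (by linarith) hN0.le
      linarith)
    exact not_le.2 h0
  · intro c hc
    exact not_le.2 (REL1 hC.sys P.M0 (by linarith) hTn hBle hMn100 c hc)
  · intro c hc
    have h1 := REL2 hC P.M0 (by linarith) hTn hBle hMn100 hE3 c hc
    exact (hdich _).resolve_right (not_le.2 h1)
  · intro c c' hc hc' hcop
    have h1 := REL3 hC P.ε100 P.M0 P.q0 P.Mq (by linarith) hTn hBle hMn1000 hE3 P.δ0 P.δ1 hgood2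
      hlogn c c' hc ((hdich c').resolve_left hc') hcop
    exact (hdich _).resolve_right (not_le.2 h1)

end Pool.Agent.LR2
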